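import Mathlib

/-!
# LibKS44.A0 : Hecke data, definitions

`Γ` a group, `R` a ring, `j : Γ →* R`. A Hecke datum is a finite family `a i ∈ R` together with maps
`c i : Γ → Γ` and permutations `s γ` of the indices such that `a i * j (c i γ) = j γ * a (s γ i)`. It acts on the
functions `Γ → M` with values in an `R`-module `M` by `(T u)(γ) = ∑ i, a i • u (c i γ)`; it maps `1`-cocycles to
`1`-cocycles and coboundaries to coboundaries.
-/

set_option autoImplicit false

namespace KS44

/-- Hecke datum -/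
structure HD {Γ R : Type} [Group Γ] [Ring R] (j : Γ →* R) where
  /-- index set -/
  I : Type
  fin : Fintype I
  a : I → R
  c : I → Γ → Γ
  s : Γ → I → I
  rel : ∀ i γ, a i * j (c i γ) = j γ * a (s γ i)
  c_mul : ∀ i γ δ, c i (γ * δ) = c i γ * c (s γ i) δ
  s_bij : ∀ γ, Function.Bijective (s γ)

attribute [instance] HD.fin

section

variable {Γ R : Type} [Group Γ] [Ring R] (j : Γ →* R) (M : Type) [AddCommGroup M] [Module R M]

/-- `1`-cocycles -/
def Coc (u : Γ → M) : Prop := ∀ g h, u (g * h) = u g + j g • u h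

/-- `1`-coboundaries -/
def Cob (u : Γ → M) : Prop := ∃ m : M, ∀ g, u g = j g • m - m

variable {j} {M}

/-- the operator of a Hecke datum -/
def HD.op (T : HD j) (u : Γ → M) : Γ → M := fun γ => ∑ i, T.a i • u (T.c i γ)

/-- the operator on `M` -/
def HD.act0 (T : HD j) (m : M) : M := ∑ i, T.a i • m

/-- `T² - n S` -/
def dsc (T S : HD j) (n : ℤ) (u : Γ → M) : Γ → M := fun γ => T.op (T.op u) γ - n • S.op u γ

/-- `T² - n S` on `M` -/
def dsc0 (T S : HD j) (n : ℤ) (m : M) : M := T.act0 (T.act0 m) - n • S.act0 m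

variable (M)

/-- `T² - n S` is injective on `H¹(Γ, M)` -/
def Inj (T S : HD j) (n : ℤ) : Prop := ∀ u : Γ → M, Coc j M u → Cob j M (dsc T S n u) → Cob j M u

end

end KS44
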