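import Pool.Agent.LibKS44.A0

/-!
# [KS A1] elementary properties of Hecke data
-/

set_option autoImplicit false

namespace KS44

variable {Γ R : Type} [Group Γ] [Ring R] {j : Γ →* R} {M N : Type} [AddCommGroup M] [Module R M]
  [AddCommGroup N] [Module R N]

/-- `u = g ↦ j g • m - m` is a cocycle -/
theorem cob_coc (m : M) : Coc j M (fun g => j g • m - m) := by
  intro g h
  change j (g * h) • m - m = (j g • m - m) + j g • (j h • m - m)
  rw [map_mul, mul_smul, smul_sub]
  abel

/-- `(T u)(γ δ) = ∑ a_i • u (c_i γ * c_{s γ i} δ) = ∑ a_i • u (c_i γ) + ∑ a_i • j (c_i γ) • u (c_{s γ i} δ)` and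
`a_i * j (c_i γ) = j γ * a_{s γ i}`; reindex the second sum by the bijection `s γ`. -/
theorem op_coc (T : HD j) (u : Γ → M) (hu : Coc j M u) : Coc j M (T.op u) := by
  intro g h
  change ∑ i, T.a i • u (T.c i (g * h)) = ∑ i, T.a i • u (T.c i g) + j g • ∑ i, T.a i • u (T.c i h)
  have h1 : ∀ i, T.a i • u (T.c i (g * h)) =
      T.a i • u (T.c i g) + j g • (T.a (T.s g i) • u (T.c (T.s g i) h)) := by
    intro i
    rw [T.c_mul, hu, smul_add, smul_smul, smul_smul, T.rel]
  rw [Finset.sum_congr rfl fun i _ => h1 i, Finset.sum_add_distrib, Finset.smul_sum]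
  congr 1
  exact (T.s_bij g).sum_comp (fun k => j g • (T.a k • u (T.c k h)))

theorem op_cob (T : HD j) (m : M) :
    T.op (fun g => j g • m - m) = fun g => j g • T.act0 m - T.act0 m := by
  funext g
  change ∑ i, T.a i • (j (T.c i g) • m - m) = j g • (∑ i, T.a i • m) - ∑ i, T.a i • m
  have h1 : ∀ i, T.a i • (j (T.c i g) • m - m) = j g • (T.a (T.s g i) • m) - T.a i • m := by
    intro i
    rw [smul_sub, smul_smul, smul_smul, T.rel]
  rw [Finset.sum_congr rfl fun i _ => h1 i, Finset.sum_sub_distrib, Finset.smul_sum]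
  congr 1
  exact (T.s_bij g).sum_comp (fun k => j g • (T.a k • m))

theorem op_map (T : HD j) (f : M →ₗ[R] N) (u : Γ → M) :
    T.op (fun g => f (u g)) = fun g => f (T.op u g) := by
  funext g
  change ∑ i, T.a i • f (u (T.c i g)) = f (∑ i, T.a i • u (T.c i g))
  rw [map_sum]
  exact Finset.sum_congr rfl fun i _ => (map_smul f _ _).symm

theorem act0_map (T : HD j) (f : M →ₗ[R] N) (m : M) : T.act0 (f m) = f (T.act0 m) := by
  change ∑ i, T.a i • f m = f (∑ i, T.a i • m)
  rw [map_sum]
  exact Finset.sum_congr rfl fun i _ => (map_smul f _ _).symm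

theorem op_sub (T : HD j) (u v : Γ → M) : T.op (fun g => u g - v g) = fun g => T.op u g - T.op v g := by
  funext g
  change ∑ i, T.a i • (u (T.c i g) - v (T.c i g)) =
    ∑ i, T.a i • u (T.c i g) - ∑ i, T.a i • v (T.c i g)
  rw [← Finset.sum_sub_distrib]
  exact Finset.sum_congr rfl fun i _ => smul_sub _ _ _

private theorem a1_smul_zsmul (a : R) (n : ℤ) (x : M) : a • (n • x) = n • (a • x) := by
  have h := map_zsmul (DistribSMul.toAddMonoidHom M a) n x
  exact h

theorem op_zsmul (T : HD j) (n : ℤ) (u : Γ → M) : T.op (fun g => n • u g) = fun g => n • T.op u g := by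
  funext g
  change ∑ i, T.a i • (n • u (T.c i g)) = n • ∑ i, T.a i • u (T.c i g)
  rw [Finset.smul_sum]
  exact Finset.sum_congr rfl fun i _ => a1_smul_zsmul _ _ _

private theorem a1_act0_sub (T : HD j) (m m' : M) : T.act0 (m - m') = T.act0 m - T.act0 m' := by
  change ∑ i, T.a i • (m - m') = ∑ i, T.a i • m - ∑ i, T.a i • m'
  rw [← Finset.sum_sub_distrib]
  exact Finset.sum_congr rfl fun i _ => smul_sub _ _ _

theorem dsc_coc (T S : HD j) (n : ℤ) (u : Γ → M) (hu : Coc j M u) : Coc j M (dsc T S n u) := by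
  intro g h
  have h1 := op_coc T (T.op u) (op_coc T u hu) g h
  have h2 := op_coc S u hu g h
  change T.op (T.op u) (g * h) - n • S.op u (g * h) =
    (T.op (T.op u) g - n • S.op u g) + j g • (T.op (T.op u) h - n • S.op u h)
  rw [h1, h2, smul_sub, a1_smul_zsmul, smul_add]
  abel

theorem dsc_cob (T S : HD j) (n : ℤ) (m : M) :
    dsc T S n (fun g => j g • m - m) = fun g => j g • dsc0 T S n m - dsc0 T S n m := by
  funext g
  have h1 : T.op (T.op (fun g => j g • m - m)) g =
      j g • T.act0 (T.act0 m) - T.act0 (T.act0 m) := by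
    rw [op_cob, op_cob]
  have h2 : S.op (fun g => j g • m - m) g = j g • S.act0 m - S.act0 m := by
    rw [op_cob]
  change T.op (T.op (fun g => j g • m - m)) g - n • S.op (fun g => j g • m - m) g =
    j g • (T.act0 (T.act0 m) - n • S.act0 m) - (T.act0 (T.act0 m) - n • S.act0 m)
  rw [h1, h2, smul_sub (j g), a1_smul_zsmul, smul_sub n]
  abel

theorem dsc_map (T S : HD j) (n : ℤ) (f : M →ₗ[R] N) (u : Γ → M) :
    dsc T S n (fun g => f (u g)) = fun g => f (dsc T S n u g) := by
  funext g
  change T.op (T.op (fun g => f (u g))) g - n • S.op (fun g => f (u g)) g =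
    f (T.op (T.op u) g - n • S.op u g)
  rw [op_map T, op_map T, op_map S, map_sub, map_zsmul]

theorem dsc0_map (T S : HD j) (n : ℤ) (f : M →ₗ[R] N) (m : M) : dsc0 T S n (f m) = f (dsc0 T S n m) := by
  change T.act0 (T.act0 (f m)) - n • S.act0 (f m) = f (T.act0 (T.act0 m) - n • S.act0 m)
  rw [act0_map, act0_map, act0_map, map_sub, map_zsmul]

theorem dsc_sub (T S : HD j) (n : ℤ) (u v : Γ → M) :
    dsc T S n (fun g => u g - v g) = fun g => dsc T S n u g - dsc T S n v g := by
  funext g
  change T.op (T.op (fun g => u g - v g)) g - n • S.op (fun g => u g - v g) g =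
    (T.op (T.op u) g - n • S.op u g) - (T.op (T.op v) g - n • S.op v g)
  rw [op_sub T, op_sub T, op_sub S, smul_sub]
  exact sub_sub_sub_comm _ _ _ _

end KS44
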