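import Pool.Agent.LibKS44.A1

/-!
# [KS A2] extensions

`N ≤ M`, `M` finite. If `D = T² - n S` is injective on `H¹(Γ, N)` and on `H¹(Γ, M/N)`, then it is injective on
`H¹(Γ, M)`.

PROOF. Let `D0 = dsc0 T S n : M → M` (additive, commutes with linear maps, so it maps `N` to `N`), so that
`D ∂m = ∂ (D0 m)` where `∂m = (g ↦ j g • m - m)` (`dsc_cob`).
(1) Let `u` be a cocycle in `M` with `D u = ∂ m`. The image of `u` in `M/N` is a cocycle, `D` of it is a coboundary
(`dsc_map` for `N.mkQ`), so by `hQ` it is `∂` of the class of some `n₀ ∈ M`. So `v = u - ∂ n₀` has values in `N`, and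
`D v = ∂ m₁`, `m₁ = m - D0 n₀`; `D v` has values in `N` (it is the image under `N.subtype` of `D v'`, `v' : Γ → N`,
`dsc_map`).
(2) Let `X = {x ∈ M : ∀ g, j g • x - x ∈ N}` (an additive subgroup, finite, contains `N`, `m₁ ∈ X`), and
`Y = {x ∈ X : ∃ n ∈ N, ∀ g, j g • x - x = j g • n - n} = N + M^Γ`. `D0` maps `X` to `X` (`D ∂x = ∂ D0 x`, and `D` of a
function with values in `N` has values in `N`) and `Y` to `Y`. If `x ∈ X` and `D0 x ∈ Y`, then `x ∈ Y`: the cocycle
`∂x : Γ → N` has `D ∂x = ∂ (D0 x) = ∂ n` with `n ∈ N`; by `hN` it is a coboundary in `N`. So `D0` induces an injective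
endomorphism of the finite group `X/Y`; it is surjective: there are `x' ∈ X`, `y ∈ Y` with `m₁ = D0 x' + y`.
(3) `D (v - ∂x') = ∂ (m₁ - D0 x') = ∂ y = ∂ n`, `n ∈ N`, and `v - ∂x'` has values in `N`: by `hN` it is `∂ n'`, `n' ∈ N`.
So `v = ∂ (x' + n')`, `u = ∂ (n₀ + x' + n')`. QED.
(For (2) the pigeonhole argument can also be done without quotients: `F : X → X`, iterate; or use
`AddSubgroup.map`, or `QuotientAddGroup.map` and `Finite.injective_iff_surjective`.)
-/

set_option autoImplicit false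

namespace KS44

variable {Γ R : Type} [Group Γ] [Ring R] {j : Γ →* R} {M : Type} [AddCommGroup M] [Module R M]

theorem a2_surj {A : Type} [AddCommGroup A] [Finite A] (X Y : AddSubgroup A) (D0 : A →+ A)
    (hX : ∀ x ∈ X, D0 x ∈ X) (hY : ∀ y ∈ Y, D0 y ∈ Y) (h : ∀ x ∈ X, D0 x ∈ Y → x ∈ Y) (m : A)
    (hm : m ∈ X) : ∃ x ∈ X, m - D0 x ∈ Y := by
  let E : (A ⧸ Y) →+ (A ⧸ Y) := QuotientAddGroup.map Y Y D0 hY
  have hE : ∀ x : A, E (QuotientAddGroup.mk x) = QuotientAddGroup.mk (D0 x) := fun x => rfl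
  let Q : AddSubgroup (A ⧸ Y) := X.map (QuotientAddGroup.mk' Y)
  have hQ : ∀ y ∈ Q, E y ∈ Q := by
    rintro y ⟨x, hx, rfl⟩
    exact ⟨D0 x, hX x hx, rfl⟩
  have hs : Function.Surjective (fun y : Q => (⟨E y.1, hQ y.1 y.2⟩ : Q)) := by
    apply Finite.surjective_of_injective
    rintro ⟨y, x, hx, rfl⟩ ⟨y', x', hx', rfl⟩ h'
    apply Subtype.ext
    have h1 : E (QuotientAddGroup.mk x) = E (QuotientAddGroup.mk x') := congrArg Subtype.val h'
    rw [hE, hE, QuotientAddGroup.eq] at h1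
    change (QuotientAddGroup.mk x : A ⧸ Y) = QuotientAddGroup.mk x'
    rw [QuotientAddGroup.eq]
    apply h _ (X.add_mem (X.neg_mem hx) hx')
    rw [map_add, map_neg]
    exact h1
  obtain ⟨⟨y, x, hx, rfl⟩, h2⟩ := hs ⟨QuotientAddGroup.mk m, ⟨m, hm, rfl⟩⟩
  have h3 : E (QuotientAddGroup.mk x) = QuotientAddGroup.mk m := congrArg Subtype.val h2
  rw [hE, QuotientAddGroup.eq] at h3
  refine ⟨x, hx, ?_⟩
  rw [sub_eq_add_neg, add_comm]
  exact h3

theorem a2_act0_add (T : HD j) (x y : M) : T.act0 (x + y) = T.act0 x + T.act0 y := by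
  simp only [HD.act0, smul_add, Finset.sum_add_distrib]

theorem a2_dsc0_add (T S : HD j) (n : ℤ) (x y : M) :
    dsc0 T S n (x + y) = dsc0 T S n x + dsc0 T S n y := by
  simp only [dsc0, a2_act0_add, smul_add]
  abel

theorem devissage [Finite M] (T S : HD j) (n : ℤ) (N : Submodule R M) (hN : Inj N T S n)
    (hQ : Inj (M ⧸ N) T S n) : Inj M T S n := by
  rintro u hu ⟨m, hm⟩
  let D0 : M →+ M := AddMonoidHom.mk' (dsc0 T S n) (a2_dsc0_add T S n)
  have hD0 : ∀ x, D0 x = dsc0 T S n x := fun _ => rfl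
  have hcob : ∀ x : M, ∀ g, dsc T S n (fun g => j g • x - x) g = j g • D0 x - D0 x := fun x g =>
    congrFun (dsc_cob T S n x) g
  -- functions with values in `N`
  have hval : ∀ (w : Γ → M) (hw : ∀ g, w g ∈ N),
      ∀ g, ((dsc T S n (fun g => (⟨w g, hw g⟩ : N)) g : N) : M) = dsc T S n w g := by
    intro w hw g
    have := congrFun (dsc_map T S n N.subtype (fun g => (⟨w g, hw g⟩ : N))) g
    exact this.symm
  -- injectivity for functions with values in `N`
  have hNN : ∀ (w : Γ → M), (∀ g, w g ∈ N) → Coc j M w →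
      (∃ n₁ ∈ N, ∀ g, dsc T S n w g = j g • n₁ - n₁) → ∃ n₁ ∈ N, ∀ g, w g = j g • n₁ - n₁ := by
    rintro w hw hc ⟨n₁, hn₁, h⟩
    obtain ⟨n₂, hn₂⟩ := hN (fun g => (⟨w g, hw g⟩ : N)) (fun g k => Subtype.ext (hc g k))
      ⟨⟨n₁, hn₁⟩, fun g => Subtype.ext (by rw [hval]; exact h g)⟩
    exact ⟨n₂, n₂.2, fun g => congrArg Subtype.val (hn₂ g)⟩
  -- step 1
  obtain ⟨nq, hnq⟩ := hQ (fun g => N.mkQ (u g)) (fun g k => by
      change N.mkQ (u (g * k)) = _
      rw [hu g k, map_add, map_smul]) ⟨N.mkQ m, fun g => by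
      rw [dsc_map]
      dsimp only
      rw [hm g, map_sub, map_smul]⟩
  obtain ⟨n₀, rfl⟩ := N.mkQ_surjective nq
  have hvN : ∀ g, u g - (j g • n₀ - n₀) ∈ N := by
    intro g
    have h1 := hnq g
    rw [← map_smul, ← map_sub] at h1
    exact (Submodule.Quotient.eq N).mp h1
  have hvD : ∀ g, dsc T S n (fun g => u g - (j g • n₀ - n₀)) g =
      j g • (m - D0 n₀) - (m - D0 n₀) := by
    intro g
    rw [dsc_sub]
    dsimp only
    rw [hm g, hcob, smul_sub]
    abel
  have hvc : Coc j M (fun g => u g - (j g • n₀ - n₀)) := by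
    intro g k
    have h1 := cob_coc (j := j) n₀ g k
    have h2 := hu g k
    dsimp only at h1 ⊢
    rw [h2, h1]
    simp only [smul_sub]
    abel
  -- step 2
  let X : AddSubgroup M :=
    { carrier := {x | ∀ g, j g • x - x ∈ N}
      zero_mem' := fun g => by rw [smul_zero, sub_zero]; exact N.zero_mem
      add_mem' := by
        intro x y hx hy g
        have e : j g • (x + y) - (x + y) = (j g • x - x) + (j g • y - y) := by
          rw [smul_add]; abel
        rw [e]
        exact N.add_mem (hx g) (hy g)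
      neg_mem' := by
        intro x hx g
        have e : j g • (-x) - (-x) = -(j g • x - x) := by rw [smul_neg]; abel
        rw [e]
        exact N.neg_mem (hx g) }
  let Y : AddSubgroup M :=
    { carrier := {x | ∃ n₁ ∈ N, ∀ g, j g • x - x = j g • n₁ - n₁}
      zero_mem' := ⟨0, N.zero_mem, fun g => rfl⟩
      add_mem' := by
        rintro x y ⟨a, ha, hx⟩ ⟨b, hb, hy⟩
        refine ⟨a + b, N.add_mem ha hb, fun g => ?_⟩
        have e : ∀ z w : M, j g • (z + w) - (z + w) = (j g • z - z) + (j g • w - w) := by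
          intro z w
          rw [smul_add]; abel
        rw [e, e, hx g, hy g]
      neg_mem' := by
        rintro x ⟨a, ha, hx⟩
        refine ⟨-a, N.neg_mem ha, fun g => ?_⟩
        have e : ∀ z : M, j g • (-z) - (-z) = -(j g • z - z) := by
          intro z
          rw [smul_neg]; abel
        rw [e, e, hx g] }
  have hX : ∀ x ∈ X, D0 x ∈ X := by
    intro x hx g
    rw [← hcob x g, ← hval (fun g => j g • x - x) hx g]
    exact Subtype.property _
  have hkey : ∀ x ∈ X, D0 x ∈ Y → x ∈ Y := by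
    rintro x hx ⟨n₁, hn₁, h⟩
    exact hNN (fun g => j g • x - x) hx (cob_coc x) ⟨n₁, hn₁, fun g => by rw [hcob]; exact h g⟩
  have hY : ∀ y ∈ Y, D0 y ∈ Y := by
    rintro y ⟨n₁, hn₁, h⟩
    have h1 : D0 n₁ ∈ N := by
      have h2 : dsc0 T S n (N.subtype ⟨n₁, hn₁⟩) = N.subtype (dsc0 T S n ⟨n₁, hn₁⟩) :=
        dsc0_map T S n N.subtype ⟨n₁, hn₁⟩
      rw [hD0]
      rw [Submodule.subtype_apply] at h2
      rw [h2]
      exact Subtype.property _
    refine ⟨D0 n₁, h1, fun g => ?_⟩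
    rw [← hcob, ← hcob]
    congr 1
    funext g
    exact h g
  have hm1 : m - D0 n₀ ∈ X := by
    intro g
    rw [← hvD g, ← hval _ hvN g]
    exact Subtype.property _
  obtain ⟨x', hx', n₁, hn₁, hy⟩ := a2_surj X Y D0 hX hY hkey _ hm1
  -- step 3
  obtain ⟨n', -, hn'⟩ := hNN (fun g => (u g - (j g • n₀ - n₀)) - (j g • x' - x'))
    (fun g => N.sub_mem (hvN g) (hx' g)) (by
      intro g k
      have h1 := cob_coc (j := j) x' g k
      have h2 := hvc g k
      dsimp only at h1 h2 ⊢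
      rw [h2, h1]
      simp only [smul_sub]
      abel) ⟨n₁, hn₁, fun g => by
      rw [dsc_sub]
      dsimp only
      rw [hvD g, hcob, ← hy g, smul_sub (j g) (m - D0 n₀)]
      abel⟩
  refine ⟨n₀ + x' + n', fun g => ?_⟩
  have h1 := hn' g
  have h2 : u g = (j g • n' - n') + (j g • x' - x') + (j g • n₀ - n₀) := by
    rw [← h1]
    abel
  rw [h2, smul_add, smul_add]
  abel

end KS44
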