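import Pool.Agent.LibKS44.A1

/-!
# [KS A3] change of representatives

Two Hecke data `T`, `T'` with a bijection `e` of the index sets and elements `δ i ∈ Γ` such that
`a i = a' (e i) * j (δ i)⁻¹`, `c i γ = δ i * c' (e i) γ * (δ (s γ i))⁻¹`, `e (s γ i) = s' γ (e i)`.
Then `T u - T' u` is a coboundary for every cocycle `u`:
`T u γ - T' u γ = j γ • m - m` with `m = ∑ i, a' (e i) • u ((δ i)⁻¹)`.

PROOF. `u (δ_i c' δ_k⁻¹) = u δ_i + δ_i u(c') + δ_i c' u(δ_k⁻¹)` with `k = s γ i`. Multiply by `a i = a'_{e i} δ_i⁻¹` and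
sum: `δ_i⁻¹ • u δ_i = - u (δ_i⁻¹)` (because `u 1 = 0`) gives `- m`; the second term gives `T' u γ` (reindex by `e`);
the third is `∑ a'_{e i} c'_{e i}(γ) • u(δ_k⁻¹) = ∑ γ • a'_{s' γ (e i)} • u (δ_k⁻¹) = γ • ∑_k a'_{e k} • u (δ_k⁻¹) = γ • m`
(reindex by the bijection `s γ`). QED.
-/

set_option autoImplicit false

namespace KS44

variable {Γ R : Type} [Group Γ] [Ring R] {j : Γ →* R} {M : Type} [AddCommGroup M] [Module R M]

theorem op_change (T T' : HD j) (e : T.I ≃ T'.I) (δ : T.I → Γ)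
    (ha : ∀ i, T.a i = T'.a (e i) * j (δ i)⁻¹)
    (hc : ∀ i γ, T.c i γ = δ i * T'.c (e i) γ * (δ (T.s γ i))⁻¹)
    (hs : ∀ i γ, e (T.s γ i) = T'.s γ (e i)) (u : Γ → M) (hu : Coc j M u) :
    Cob j M (fun γ => T.op u γ - T'.op u γ) := by
  have hu1 : u 1 = 0 := by
    have h := hu 1 1
    rw [mul_one, map_one, one_smul] at h
    have h2 : u 1 + 0 = u 1 + u 1 := by rw [add_zero]; exact h
    exact (add_left_cancel h2).symm
  have hinv : ∀ g, j g⁻¹ • u g = - u g⁻¹ := by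
    intro g
    have h := hu g⁻¹ g
    rw [inv_mul_cancel, hu1] at h
    exact eq_neg_of_add_eq_zero_right h.symm
  refine ⟨∑ i, T'.a (e i) • u (δ i)⁻¹, fun γ => ?_⟩
  have h1 : ∀ i, T.a i • u (T.c i γ) =
      (T'.a (e i) • u (T'.c (e i) γ) - T'.a (e i) • u (δ i)⁻¹) +
        j γ • (T'.a (e (T.s γ i)) • u (δ (T.s γ i))⁻¹) := by
    intro i
    have hj : j (δ i)⁻¹ * j (δ i) = 1 := by
      rw [← map_mul, inv_mul_cancel, map_one]
    rw [hc, hu, hu, ha, smul_add, smul_add, mul_smul, mul_smul, mul_smul, hinv, smul_neg,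
      smul_smul (j (δ i)⁻¹) (j (δ i)), hj, one_smul, map_mul, smul_smul (j (δ i)⁻¹), ← mul_assoc,
      hj, one_mul, smul_smul (T'.a (e i)), T'.rel, hs, mul_smul]
    abel
  have h2 : T.op u γ = (∑ i, T'.a (e i) • u (T'.c (e i) γ) - ∑ i, T'.a (e i) • u (δ i)⁻¹) +
      j γ • ∑ i, T'.a (e i) • u (δ i)⁻¹ := by
    change ∑ i, T.a i • u (T.c i γ) = _
    rw [Finset.sum_congr rfl fun i _ => h1 i, Finset.sum_add_distrib, Finset.sum_sub_distrib,
      Finset.smul_sum]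
    congr 1
    exact (T.s_bij γ).sum_comp (fun k => j γ • (T'.a (e k) • u (δ k)⁻¹))
  have h3 : T'.op u γ = ∑ i, T'.a (e i) • u (T'.c (e i) γ) := by
    change ∑ i, T'.a i • u (T'.c i γ) = _
    exact (Equiv.sum_comp e (fun k => T'.a k • u (T'.c k γ))).symm
  change T.op u γ - T'.op u γ = _
  rw [h2, h3]
  abel

end KS44
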