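import Mathlib

/-!
# LibKS44.B0 : integral matrices, definitions
-/

set_option autoImplicit false

open Matrix
open scoped MatrixGroups

namespace KS44

/-- integral `2 × 2` matrices -/
abbrev Mat := Matrix (Fin 2) (Fin 2) ℤ

/-- `α i`, `i ∈ I`, are representatives of the classes `SL₂(ℤ) g` of the integral matrices `g` of determinant `p` -/
def IsReps (p : ℕ) {I : Type} (α : I → Mat) : Prop :=
  (∀ i, (α i).det = p) ∧
    ∀ g : Mat, g.det = p → ∃! x : SL(2, ℤ) × I, g = (x.1 : Mat) * α x.2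

open Classical in
/-- `c_i(γ)`: `α i * γ = c_i(γ) * α j` -/
noncomputable def comp {I : Type} (α : I → Mat) (i : I) (γ : SL(2, ℤ)) : SL(2, ℤ) :=
  if h : ∃ x : SL(2, ℤ) × I, α i * (γ : Mat) = (x.1 : Mat) * α x.2 then h.choose.1 else 1

open Classical in
/-- the index `j` with `α i * γ = c_i(γ) * α j` -/
noncomputable def perm {I : Type} (α : I → Mat) (i : I) (γ : SL(2, ℤ)) : I :=
  if h : ∃ x : SL(2, ℤ) × I, α i * (γ : Mat) = (x.1 : Mat) * α x.2 then h.choose.2 else i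

/-- the matrix `(1, 0; n, 1)` -/
def lowV (n : ℤ) : SL(2, ℤ) := ⟨!![1, 0; n, 1], by simp⟩

/-- the representatives `(p, 0; 0, 1)` and `τ (1, b; 0, p)`, `0 ≤ b < p` -/
def alpha (τ : SL(2, ℤ)) (p : ℕ) : Option (Fin p) → Mat
  | none => !![(p : ℤ), 0; 0, 1]
  | some b => (τ : Mat) * !![1, (b : ℤ); 0, (p : ℤ)]

/-- `Γ₁(ℓ)`: the elements `(1, *; 0, 1)` modulo `ℓ` -/
def G1 (ℓ : ℕ) : Subgroup SL(2, ℤ) where
  carrier := {g | (ℓ : ℤ) ∣ (g : Mat) 0 0 - 1 ∧ (ℓ : ℤ) ∣ (g : Mat) 1 0}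
  one_mem' := by simp
  mul_mem' := by
    intro a b ha hb
    obtain ⟨⟨x, hx⟩, ⟨y, hy⟩⟩ := ha
    obtain ⟨⟨z, hz⟩, ⟨w, hw⟩⟩ := hb
    have hx' : (a : Mat) 0 0 = 1 + ℓ * x := by linear_combination hx
    have hz' : (b : Mat) 0 0 = 1 + ℓ * z := by linear_combination hz
    refine ⟨?_, ?_⟩
    · rw [Matrix.SpecialLinearGroup.coe_mul, Matrix.mul_apply, Fin.sum_univ_two, hx', hz', hw]
      exact ⟨x + z + ℓ * x * z + (a : Mat) 0 1 * w, by ring⟩
    · rw [Matrix.SpecialLinearGroup.coe_mul, Matrix.mul_apply, Fin.sum_univ_two, hy, hz', hw]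
      exact ⟨y * (1 + ℓ * z) + (a : Mat) 1 1 * w, by ring⟩
  inv_mem' := by
    intro a ha
    obtain ⟨⟨x, hx⟩, ⟨y, hy⟩⟩ := ha
    have hx' : (a : Mat) 0 0 = 1 + ℓ * x := by linear_combination hx
    have hd : (a : Mat) 0 0 * (a : Mat) 1 1 - (a : Mat) 0 1 * (a : Mat) 1 0 = 1 := by
      have := Matrix.SpecialLinearGroup.det_coe a
      rwa [Matrix.det_fin_two] at this
    rw [hx', hy] at hd
    refine ⟨?_, ?_⟩
    · rw [Matrix.SpecialLinearGroup.coe_inv, Matrix.adjugate_fin_two]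
      exact ⟨(a : Mat) 0 1 * y - x * (a : Mat) 1 1, by
        simp only [Matrix.of_apply, Matrix.cons_val', Matrix.cons_val_zero, Matrix.cons_val_fin_one]
        linear_combination hd⟩
    · rw [Matrix.SpecialLinearGroup.coe_inv, Matrix.adjugate_fin_two]
      exact ⟨-y, by
        simp only [Matrix.of_apply, Matrix.cons_val', Matrix.cons_val_zero, Matrix.cons_val_one,
          Matrix.cons_val_fin_one]
        rw [hy]
        ring⟩

/-- `Γ₀(ℓ)`: the elements `(*, *; 0, *)` modulo `ℓ` -/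
def G0 (ℓ : ℕ) : Subgroup SL(2, ℤ) where
  carrier := {g | (ℓ : ℤ) ∣ (g : Mat) 1 0}
  one_mem' := by simp
  mul_mem' := by
    intro a b ha hb
    obtain ⟨y, hy⟩ := ha
    obtain ⟨w, hw⟩ := hb
    change (ℓ : ℤ) ∣ ((a * b : SL(2, ℤ)) : Mat) 1 0
    rw [Matrix.SpecialLinearGroup.coe_mul, Matrix.mul_apply, Fin.sum_univ_two, hy, hw]
    exact ⟨y * (b : Mat) 0 0 + (a : Mat) 1 1 * w, by ring⟩
  inv_mem' := by
    intro a ha
    obtain ⟨y, hy⟩ := ha
    change (ℓ : ℤ) ∣ ((a⁻¹ : SL(2, ℤ)) : Mat) 1 0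
    rw [Matrix.SpecialLinearGroup.coe_inv, Matrix.adjugate_fin_two]
    exact ⟨-y, by
      simp only [Matrix.of_apply, Matrix.cons_val', Matrix.cons_val_zero, Matrix.cons_val_one,
        Matrix.cons_val_fin_one]
      rw [hy]
      ring⟩

/-- the monoid of the integral matrices `(1, *; 0, *)` modulo `ℓ` of determinant prime to `ℓ` -/
def D1 (ℓ : ℕ) : Submonoid Mat where
  carrier := {g | IsCoprime g.det (ℓ : ℤ) ∧ (ℓ : ℤ) ∣ g 0 0 - 1 ∧ (ℓ : ℤ) ∣ g 1 0}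
  one_mem' := by simpa using isCoprime_one_left
  mul_mem' := by
    intro a b ha hb
    obtain ⟨h1, ⟨x, hx⟩, ⟨y, hy⟩⟩ := ha
    obtain ⟨h2, ⟨z, hz⟩, ⟨w, hw⟩⟩ := hb
    have hx' : a 0 0 = 1 + ℓ * x := by linear_combination hx
    have hz' : b 0 0 = 1 + ℓ * z := by linear_combination hz
    refine ⟨by rw [Matrix.det_mul]; exact h1.mul_left h2, ?_, ?_⟩
    · rw [Matrix.mul_apply, Fin.sum_univ_two, hx', hz', hw]
      exact ⟨x + z + ℓ * x * z + a 0 1 * w, by ring⟩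
    · rw [Matrix.mul_apply, Fin.sum_univ_two, hy, hz', hw]
      exact ⟨y * (1 + ℓ * z) + a 1 1 * w, by ring⟩

/-- the monoid ring of `D1 ℓ` over `𝔽_ℓ` -/
abbrev R1 (ℓ : ℕ) := MonoidAlgebra (ZMod ℓ) (D1 ℓ)

/-- the element of the monoid ring -/
noncomputable def el (ℓ : ℕ) : D1 ℓ →* R1 ℓ := MonoidAlgebra.of (ZMod ℓ) (D1 ℓ)

/-- `Γ₁(ℓ)` is contained in the monoid -/
def incl (ℓ : ℕ) : G1 ℓ →* D1 ℓ where
  toFun g := ⟨((g : SL(2, ℤ)) : Mat), by
    refine ⟨?_, g.2.1, g.2.2⟩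
    rw [Matrix.SpecialLinearGroup.det_coe]
    exact isCoprime_one_left⟩
  map_one' := rfl
  map_mul' := fun a b => by
    apply Subtype.ext
    simp

/-- the map to the monoid ring -/
noncomputable def jj (ℓ : ℕ) : G1 ℓ →* R1 ℓ := (el ℓ).comp (incl ℓ)

/-- an `R1 ℓ`-module on which an element of the monoid acts depending only on the matrix modulo `ℓ ^ r` -/
def CongMod (ℓ r : ℕ) (M : Type) [AddCommGroup M] [Module (R1 ℓ) M] : Prop :=
  ∀ g h : D1 ℓ, (∀ i j, (ℓ : ℤ) ^ r ∣ g.1 i j - h.1 i j) → ∀ m : M, el ℓ g • m = el ℓ h • m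

/-- an `R1 ℓ`-module on which an element of the monoid acts depending only on the entry `(1, 1)` modulo `ℓ` (that
is, on the determinant modulo `ℓ`) -/
def DetMod (ℓ : ℕ) (M : Type) [AddCommGroup M] [Module (R1 ℓ) M] : Prop :=
  ∀ g h : D1 ℓ, (ℓ : ℤ) ∣ g.1 1 1 - h.1 1 1 → ∀ m : M, el ℓ g • m = el ℓ h • m

end KS44
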