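import Pool.Agent.LibKS44.B0

/-!
# [KS B1] `SL₂(ℤ) → (ℤ/ℓ)² ∖ 0`, first column, is surjective

PROOF. Case `ℓ ∤ c`: take `c'` with `ℓ ∣ c * c' - 1` (`Int.isCoprime_iff_gcd_eq_one`, or from `IsCoprime c ℓ`),
`s = (a - 1) * c'`, `g = (1 + s * c, s; c, 1)` (determinant `1`). Case `ℓ ∣ c`, `ℓ ∤ a`: take `a'` with
`ℓ ∣ a * a' - 1`, `t = -a'`, `g = (a, a - 1; 1 + t * a, 1 + t * (a - 1))` (determinant
`a (1 + t (a - 1)) - (a - 1) (1 + t a) = 1`), lower left entry `1 - a a' ≡ 0 ≡ c`. QED.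
-/

set_option autoImplicit false

open Matrix
open scoped MatrixGroups

namespace KS44

theorem b1_inv (ℓ : ℕ) (hℓ : ℓ.Prime) (c : ℤ) (h : ¬ (ℓ : ℤ) ∣ c) :
    ∃ c' : ℤ, (ℓ : ℤ) ∣ c * c' - 1 := by
  have h1 : Prime (ℓ : ℤ) := Nat.prime_iff_prime_int.1 hℓ
  have h2 : IsCoprime (ℓ : ℤ) c := (h1.irreducible.coprime_iff_not_dvd).2 h
  obtain ⟨u, v, huv⟩ := h2
  refine ⟨v, -u, ?_⟩
  linear_combination huv

theorem lift_col (ℓ : ℕ) (hℓ : ℓ.Prime) (a c : ℤ) (h : ¬ ((ℓ : ℤ) ∣ a ∧ (ℓ : ℤ) ∣ c)) :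
    ∃ g : SL(2, ℤ), (ℓ : ℤ) ∣ (g : Mat) 0 0 - a ∧ (ℓ : ℤ) ∣ (g : Mat) 1 0 - c := by
  by_cases hc : (ℓ : ℤ) ∣ c
  · have ha : ¬ (ℓ : ℤ) ∣ a := fun ha => h ⟨ha, hc⟩
    obtain ⟨a', ha'⟩ := b1_inv ℓ hℓ a ha
    refine ⟨⟨!![a, a - 1; 1 + -a' * a, 1 + -a' * (a - 1)], ?_⟩, ?_, ?_⟩
    · rw [Matrix.det_fin_two_of]
      ring
    · simp
    · obtain ⟨m, hm⟩ := ha'
      obtain ⟨n, hn⟩ := hc
      have h1 : (!![a, a - 1; 1 + -a' * a, 1 + -a' * (a - 1)] : Mat) 1 0 = 1 + -a' * a := by simp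
      change (ℓ : ℤ) ∣ (!![a, a - 1; 1 + -a' * a, 1 + -a' * (a - 1)] : Mat) 1 0 - c
      rw [h1]
      refine ⟨-m - n, ?_⟩
      linear_combination -hm - hn
  · obtain ⟨c', hc'⟩ := b1_inv ℓ hℓ c hc
    refine ⟨⟨!![1 + (a - 1) * c' * c, (a - 1) * c'; c, 1], ?_⟩, ?_, ?_⟩
    · rw [Matrix.det_fin_two_of]
      ring
    · obtain ⟨m, hm⟩ := hc'
      have h1 : (!![1 + (a - 1) * c' * c, (a - 1) * c'; c, 1] : Mat) 0 0 =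
        1 + (a - 1) * c' * c := by simp
      change (ℓ : ℤ) ∣ (!![1 + (a - 1) * c' * c, (a - 1) * c'; c, 1] : Mat) 0 0 - a
      rw [h1]
      refine ⟨(a - 1) * m, ?_⟩
      linear_combination (a - 1) * hm
    · simp

end KS44
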