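import Pool.Agent.LibKS44.B0

/-!
# [KS B2] general facts on representatives

`comp α i γ` and `perm α i γ` come from the unique decomposition `α i * γ = c * α j` (`IsReps`, applied to the matrix
`α i * γ` of determinant `p`). Everything follows from `comp_spec` and `comp_unique`:
* `comp_mul`, `perm_mul`: `α i * (γ * δ) = c * α j * δ = c * c' * α k`, uniqueness;
* `comp_one`: `α i * 1 = 1 * α i`;
* `perm_bij`: `perm α · γ` and `perm α · γ⁻¹` are inverse to each other (`perm_mul`, `perm_one`);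
* `adj_rel`: take adjugates in `α i * γ = c * α k` (`Matrix.adjugate_mul_distrib`):
  `adj γ * adj α_i = adj α_k * adj c`, multiply by `γ` on the left and by `c` on the right
  (`γ * adj γ = 1`, `adj c * c = 1`, `Matrix.mul_adjugate`, `Matrix.adjugate_mul`, determinant `1`).
-/

set_option autoImplicit false

open Matrix
open scoped MatrixGroups

namespace KS44

variable {p : ℕ} {I : Type} {α : I → Mat}

theorem b2_det (hα : IsReps p α) (i : I) (γ : SL(2, ℤ)) : (α i * (γ : Mat)).det = p := by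
  rw [Matrix.det_mul, Matrix.SpecialLinearGroup.det_coe, mul_one]
  exact hα.1 i

theorem b2_ex (hα : IsReps p α) (i : I) (γ : SL(2, ℤ)) :
    ∃ x : SL(2, ℤ) × I, α i * (γ : Mat) = (x.1 : Mat) * α x.2 :=
  (hα.2 _ (b2_det hα i γ)).exists

theorem comp_spec (hα : IsReps p α) (i : I) (γ : SL(2, ℤ)) :
    α i * (γ : Mat) = (comp α i γ : Mat) * α (perm α i γ) := by
  have h := b2_ex hα i γ
  unfold comp perm
  rw [dif_pos h, dif_pos h]
  exact h.choose_spec

theorem comp_unique (hα : IsReps p α) {i k : I} {γ δ : SL(2, ℤ)} (h : α i * (γ : Mat) = (δ : Mat) * α k) :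
    comp α i γ = δ ∧ perm α i γ = k := by
  have hu := (hα.2 _ (b2_det hα i γ)).unique
    (y₁ := (comp α i γ, perm α i γ)) (y₂ := (δ, k)) (comp_spec hα i γ) h
  exact ⟨congrArg Prod.fst hu, congrArg Prod.snd hu⟩

theorem b2_mul_rel (hα : IsReps p α) (i : I) (γ δ : SL(2, ℤ)) :
    α i * ((γ * δ : SL(2, ℤ)) : Mat) =
      ((comp α i γ * comp α (perm α i γ) δ : SL(2, ℤ)) : Mat) * α (perm α (perm α i γ) δ) := by
  rw [Matrix.SpecialLinearGroup.coe_mul, Matrix.SpecialLinearGroup.coe_mul, ← Matrix.mul_assoc,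
    comp_spec hα i γ, Matrix.mul_assoc, comp_spec hα (perm α i γ) δ, Matrix.mul_assoc]

theorem comp_mul (hα : IsReps p α) (i : I) (γ δ : SL(2, ℤ)) :
    comp α i (γ * δ) = comp α i γ * comp α (perm α i γ) δ :=
  (comp_unique hα (b2_mul_rel hα i γ δ)).1

theorem perm_mul (hα : IsReps p α) (i : I) (γ δ : SL(2, ℤ)) :
    perm α i (γ * δ) = perm α (perm α i γ) δ :=
  (comp_unique hα (b2_mul_rel hα i γ δ)).2

theorem b2_one_rel (i : I) :
    α i * ((1 : SL(2, ℤ)) : Mat) = ((1 : SL(2, ℤ)) : Mat) * α i := by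
  rw [Matrix.SpecialLinearGroup.coe_one, Matrix.mul_one, Matrix.one_mul]

theorem comp_one (hα : IsReps p α) (i : I) : comp α i 1 = 1 :=
  (comp_unique hα (b2_one_rel i)).1

theorem perm_one (hα : IsReps p α) (i : I) : perm α i 1 = i :=
  (comp_unique hα (b2_one_rel i)).2

theorem perm_bij (hα : IsReps p α) (γ : SL(2, ℤ)) : Function.Bijective (fun i => perm α i γ) := by
  refine Function.bijective_iff_has_inverse.2 ⟨fun i => perm α i γ⁻¹, ?_, ?_⟩
  · intro i
    change perm α (perm α i γ) γ⁻¹ = i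
    rw [← perm_mul hα, mul_inv_cancel, perm_one hα]
  · intro i
    change perm α (perm α i γ⁻¹) γ = i
    rw [← perm_mul hα, inv_mul_cancel, perm_one hα]

theorem adj_rel (hα : IsReps p α) (i : I) (γ : SL(2, ℤ)) :
    (α i).adjugate * (comp α i γ : Mat) = (γ : Mat) * (α (perm α i γ)).adjugate := by
  have h := congrArg Matrix.adjugate (comp_spec hα i γ)
  rw [Matrix.adjugate_mul_distrib, Matrix.adjugate_mul_distrib] at h
  have h1 : (γ : Mat) * (γ : Mat).adjugate = 1 := by
    rw [Matrix.mul_adjugate, Matrix.SpecialLinearGroup.det_coe, one_smul]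
  have h2 : (comp α i γ : Mat).adjugate * (comp α i γ : Mat) = 1 := by
    rw [Matrix.adjugate_mul, Matrix.SpecialLinearGroup.det_coe, one_smul]
  calc (α i).adjugate * (comp α i γ : Mat)
      = ((γ : Mat) * (γ : Mat).adjugate) * (α i).adjugate * (comp α i γ : Mat) := by
        rw [h1, Matrix.one_mul]
    _ = (γ : Mat) * ((γ : Mat).adjugate * (α i).adjugate) * (comp α i γ : Mat) := by
        rw [Matrix.mul_assoc (γ : Mat) (γ : Mat).adjugate]
    _ = (γ : Mat) * ((α (perm α i γ)).adjugate * (comp α i γ : Mat).adjugate) *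
          (comp α i γ : Mat) := by rw [h]
    _ = (γ : Mat) * (α (perm α i γ)).adjugate *
          ((comp α i γ : Mat).adjugate * (comp α i γ : Mat)) := by
        simp only [Matrix.mul_assoc]
    _ = (γ : Mat) * (α (perm α i γ)).adjugate := by rw [h2, Matrix.mul_one]

end KS44
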