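import Pool.Agent.LibKS44.B0

/-!
# [KS B3] Hermite normal form: `alpha τ p` is a system of representatives

PROOF. Determinants: `det alpha = p` clear (`Matrix.det_mul`, `Matrix.SpecialLinearGroup.det_coe`, `Matrix.det_fin_two_of`).
EXISTENCE. `g = (x, y; z, w)`, `x w - y z = p`. `d = gcd(x, z) > 0`, `x = d x'`, `z = d z'`, `s x' + t z' = 1`,
`δ = (s, t; -z', x') ∈ SL₂(ℤ)`; `δ g = (d, b; 0, e)` with `d e = p`, `d > 0`, so `(d, e) = (1, p)` or `(p, 1)`.
If `(p, 1)`: `δ g = (1, b; 0, 1) (p, 0; 0, 1)`, `g = (δ⁻¹ (1, b; 0, 1)) α none`. If `(1, p)`: `b = b₀ + k p`,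
`0 ≤ b₀ < p`, `δ g = (1, k; 0, 1) (1, b₀; 0, p)` and `g = (δ⁻¹ (1, k; 0, 1) τ⁻¹) α (some b₀)`.
UNIQUENESS. Let `γ α i = γ' α k`, `δ = γ'⁻¹ γ`, `δ α i = α k`.
`none, none`: `δ (p, 0; 0, 1) = (p, 0; 0, 1)`, compare entries: `δ = 1` (`p ≠ 0`).
`none, some b` (or reversed, replace `δ` by `δ⁻¹`): the first column of `δ (p, 0; 0, 1)` is divisible by `p`, the first column
of `τ (1, b; 0, p)` is the first column of `τ`, whose entries are coprime (determinant `1`): contradiction (`p` prime).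
`some b, some c`: `ε = τ⁻¹ δ τ`, `ε (1, b; 0, p) = (1, c; 0, p)`: first column of `ε` is `(1, 0)`, so `ε = (1, k; 0, 1)`
(determinant), `b + k p = c`, so `k = 0`, `b = c`, `ε = 1`, `δ = 1`. QED.
(`∃! x : SL(2, ℤ) × I` : `⟨(γ, i), h, fun ⟨γ', k⟩ h' => _⟩`.)
-/

set_option autoImplicit false

open Matrix
open scoped MatrixGroups

namespace KS44

theorem b3_det (γ : SL(2, ℤ)) :
    (γ : Mat) 0 0 * (γ : Mat) 1 1 - (γ : Mat) 0 1 * (γ : Mat) 1 0 = 1 := by
  have h := Matrix.SpecialLinearGroup.det_coe γ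
  rwa [Matrix.det_fin_two] at h

theorem b3_ext {γ γ' : SL(2, ℤ)} (h00 : (γ : Mat) 0 0 = (γ' : Mat) 0 0)
    (h01 : (γ : Mat) 0 1 = (γ' : Mat) 0 1) (h10 : (γ : Mat) 1 0 = (γ' : Mat) 1 0)
    (h11 : (γ : Mat) 1 1 = (γ' : Mat) 1 1) : γ = γ' := by
  apply Subtype.ext
  ext i j
  fin_cases i <;> fin_cases j
  · exact h00
  · exact h01
  · exact h10
  · exact h11

theorem b3_alpha_none (τ : SL(2, ℤ)) (p : ℕ) : alpha τ p none = !![(p : ℤ), 0; 0, 1] := rfl

theorem b3_alpha_some (τ : SL(2, ℤ)) (p : ℕ) (b : Fin p) :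
    alpha τ p (some b) = (τ : Mat) * !![1, (b : ℤ); 0, (p : ℤ)] := rfl

theorem b3_mul (m : Mat) (a b c d : ℤ) :
    (m * !![a, b; c, d]) 0 0 = m 0 0 * a + m 0 1 * c ∧
      (m * !![a, b; c, d]) 0 1 = m 0 0 * b + m 0 1 * d ∧
      (m * !![a, b; c, d]) 1 0 = m 1 0 * a + m 1 1 * c ∧
      (m * !![a, b; c, d]) 1 1 = m 1 0 * b + m 1 1 * d := by
  refine ⟨?_, ?_, ?_, ?_⟩ <;> simp [Matrix.mul_apply, Fin.sum_univ_two]

theorem b3_mixed (p : ℕ) (hp : p.Prime) (b : ℤ) (γ ε : SL(2, ℤ))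
    (h : (γ : Mat) * !![(p : ℤ), 0; 0, 1] = (ε : Mat) * !![1, b; 0, (p : ℤ)]) : False := by
  obtain ⟨a00, -, a10, -⟩ := b3_mul (γ : Mat) (p : ℤ) 0 0 1
  obtain ⟨c00, -, c10, -⟩ := b3_mul (ε : Mat) 1 b 0 (p : ℤ)
  rw [h, c00] at a00
  rw [h, c10] at a10
  have h1 := b3_det ε
  have h2 : (p : ℤ) * ((γ : Mat) 0 0 * (ε : Mat) 1 1 - (ε : Mat) 0 1 * (γ : Mat) 1 0) = 1 := by
    linear_combination h1 - (ε : Mat) 1 1 * a00 + (ε : Mat) 0 1 * a10
  have h3 : (p : ℤ) ∣ 1 := ⟨_, h2.symm⟩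
  have h4 : p ∣ 1 := by exact_mod_cast h3
  exact hp.one_lt.ne' (Nat.dvd_one.1 h4)

theorem b3_same (p : ℕ) (hp : p.Prime) (b c : Fin p) (ε ε' : SL(2, ℤ))
    (h : (ε : Mat) * !![1, (b : ℤ); 0, (p : ℤ)] = (ε' : Mat) * !![1, (c : ℤ); 0, (p : ℤ)]) :
    ε = ε' ∧ b = c := by
  have hp0 : (p : ℤ) ≠ 0 := by exact_mod_cast hp.ne_zero
  obtain ⟨a00, a01, a10, a11⟩ := b3_mul (ε : Mat) 1 (b : ℤ) 0 (p : ℤ)
  obtain ⟨c00, c01, c10, c11⟩ := b3_mul (ε' : Mat) 1 (c : ℤ) 0 (p : ℤ)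
  rw [h, c00] at a00
  rw [h, c01] at a01
  rw [h, c10] at a10
  rw [h, c11] at a11
  have h00 : (ε : Mat) 0 0 = (ε' : Mat) 0 0 := by linear_combination -a00
  have h10 : (ε : Mat) 1 0 = (ε' : Mat) 1 0 := by linear_combination -a10
  rw [← h00] at a01
  rw [← h10] at a11
  have h1 := b3_det ε
  have h2 : ((b : ℕ) : ℤ) - (c : ℕ) = p * ((ε : Mat) 1 1 * ((ε' : Mat) 0 1 - (ε : Mat) 0 1) -
      (ε : Mat) 0 1 * ((ε' : Mat) 1 1 - (ε : Mat) 1 1)) := by
    linear_combination -(((b : ℕ) : ℤ) - (c : ℕ)) * h1 - (ε : Mat) 1 1 * a01 + (ε : Mat) 0 1 * a11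
  have h3 : (p : ℤ) ∣ ((b : ℕ) : ℤ) - (c : ℕ) := ⟨_, h2⟩
  have h4 : ((b : ℕ) : ℤ) - (c : ℕ) = 0 := by
    refine Int.eq_zero_of_abs_lt_dvd h3 ?_
    have hb := b.isLt
    have hc := c.isLt
    rw [abs_lt]
    constructor <;> omega
  have h5 : b = c := Fin.ext (by omega)
  refine ⟨?_, h5⟩
  subst h5
  refine b3_ext h00 ?_ h10 ?_
  · have h6 : (p : ℤ) * ((ε : Mat) 0 1 - (ε' : Mat) 0 1) = 0 := by linear_combination -a01
    exact sub_eq_zero.1 ((mul_eq_zero.1 h6).resolve_left hp0)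
  · have h6 : (p : ℤ) * ((ε : Mat) 1 1 - (ε' : Mat) 1 1) = 0 := by linear_combination -a11
    exact sub_eq_zero.1 ((mul_eq_zero.1 h6).resolve_left hp0)

theorem b3_uniq (τ : SL(2, ℤ)) (p : ℕ) (hp : p.Prime) (γ γ' : SL(2, ℤ)) (i k : Option (Fin p))
    (h : (γ : Mat) * alpha τ p i = (γ' : Mat) * alpha τ p k) : γ = γ' ∧ i = k := by
  have hp0 : (p : ℤ) ≠ 0 := by exact_mod_cast hp.ne_zero
  cases i with
  | none =>
    cases k with
    | none =>
      refine ⟨?_, rfl⟩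
      rw [b3_alpha_none] at h
      obtain ⟨a00, a01, a10, a11⟩ := b3_mul (γ : Mat) (p : ℤ) 0 0 1
      obtain ⟨c00, c01, c10, c11⟩ := b3_mul (γ' : Mat) (p : ℤ) 0 0 1
      rw [h, c00] at a00
      rw [h, c01] at a01
      rw [h, c10] at a10
      rw [h, c11] at a11
      refine b3_ext ?_ ?_ ?_ ?_
      · have h6 : (p : ℤ) * ((γ : Mat) 0 0 - (γ' : Mat) 0 0) = 0 := by linear_combination -a00
        exact sub_eq_zero.1 ((mul_eq_zero.1 h6).resolve_left hp0)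
      · linear_combination -a01
      · have h6 : (p : ℤ) * ((γ : Mat) 1 0 - (γ' : Mat) 1 0) = 0 := by linear_combination -a10
        exact sub_eq_zero.1 ((mul_eq_zero.1 h6).resolve_left hp0)
      · linear_combination -a11
    | some c =>
      exfalso
      rw [b3_alpha_none, b3_alpha_some, ← mul_assoc, ← Matrix.SpecialLinearGroup.coe_mul] at h
      exact b3_mixed p hp _ _ _ h
  | some b =>
    cases k with
    | none =>
      exfalso
      rw [b3_alpha_none, b3_alpha_some, ← mul_assoc, ← Matrix.SpecialLinearGroup.coe_mul] at h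
      exact b3_mixed p hp _ _ _ h.symm
    | some c =>
      rw [b3_alpha_some, b3_alpha_some, ← mul_assoc, ← Matrix.SpecialLinearGroup.coe_mul,
        ← mul_assoc, ← Matrix.SpecialLinearGroup.coe_mul] at h
      obtain ⟨h1, h2⟩ := b3_same p hp b c _ _ h
      exact ⟨mul_right_cancel h1, by rw [h2]⟩

theorem b3_exists (τ : SL(2, ℤ)) (p : ℕ) (hp : p.Prime) (x y z w : ℤ) (hg : x * w - y * z = p) :
    ∃ (γ : SL(2, ℤ)) (i : Option (Fin p)), !![x, y; z, w] = (γ : Mat) * alpha τ p i := by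
  have hp0 : (0 : ℤ) < p := by exact_mod_cast hp.pos
  obtain ⟨x', hx'⟩ : (Int.gcd x z : ℤ) ∣ x := Int.gcd_dvd_left ..
  obtain ⟨z', hz'⟩ : (Int.gcd x z : ℤ) ∣ z := Int.gcd_dvd_right ..
  have hb := Int.gcd_eq_gcd_ab x z
  generalize Int.gcdA x z = s at hb
  generalize Int.gcdB x z = t at hb
  generalize Int.gcd x z = d at hx' hz' hb
  subst hx' hz'
  have hde : (d : ℤ) * (-z' * y + x' * w) = p := by linear_combination hg
  have hd0 : (d : ℤ) ≠ 0 := by
    intro h0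
    rw [h0, zero_mul] at hde
    exact hp0.ne hde
  have hst : x' * s + t * z' = 1 := by
    have h1 : (d : ℤ) * (x' * s + t * z' - 1) = 0 := by linear_combination -hb
    exact sub_eq_zero.1 ((mul_eq_zero.1 h1).resolve_left hd0)
  have hdp : d ∣ p := by
    have h1 : (d : ℤ) ∣ p := ⟨_, hde.symm⟩
    exact_mod_cast h1
  let γ₀ : SL(2, ℤ) := ⟨!![x', -t; z', s], by rw [Matrix.det_fin_two_of]; linear_combination hst⟩
  have hγ₀ : (γ₀ : Mat) = !![x', -t; z', s] := rfl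
  rcases (Nat.dvd_prime hp).1 hdp with h1 | h1
  · subst h1
    have he : -z' * y + x' * w = p := by
      rw [Nat.cast_one, one_mul] at hde
      exact hde
    have hlt : ((s * y + t * w) % (p : ℤ)).toNat < p := by
      have h2 := Int.emod_nonneg (s * y + t * w) hp0.ne'
      have h3 := Int.emod_lt_of_pos (s * y + t * w) hp0
      omega
    let U : SL(2, ℤ) := ⟨!![1, (s * y + t * w) / (p : ℤ); 0, 1], by
      rw [Matrix.det_fin_two_of]; ring⟩
    have hU : (U : Mat) = !![1, (s * y + t * w) / (p : ℤ); 0, 1] := rfl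
    refine ⟨γ₀ * U * τ⁻¹, some ⟨_, hlt⟩, ?_⟩
    have h2 : ((γ₀ * U * τ⁻¹ : SL(2, ℤ)) : Mat) * (τ : Mat) = (γ₀ : Mat) * (U : Mat) := by
      rw [← Matrix.SpecialLinearGroup.coe_mul, inv_mul_cancel_right,
        Matrix.SpecialLinearGroup.coe_mul]
    rw [b3_alpha_some, ← mul_assoc, h2, hγ₀, hU, Matrix.mul_fin_two, Matrix.mul_fin_two]
    have h3 : ((((s * y + t * w) % (p : ℤ)).toNat : ℕ) : ℤ) = (s * y + t * w) % (p : ℤ) :=
      Int.toNat_of_nonneg (Int.emod_nonneg _ hp0.ne')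
    have h4 := Int.emod_add_mul_ediv (s * y + t * w) (p : ℤ)
    simp only [h3]
    congr 1
    ext i j
    fin_cases i <;> fin_cases j
    · simp
    · simp
      linear_combination (-y) * hst - x' * h4 - t * he
    · simp
    · simp
      linear_combination (-w) * hst - z' * h4 + s * he
  · subst h1
    have he : -z' * y + x' * w = 1 := by
      have h2 : (d : ℤ) * (-z' * y + x' * w - 1) = 0 := by linear_combination hde
      exact sub_eq_zero.1 ((mul_eq_zero.1 h2).resolve_left hd0)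
    let U : SL(2, ℤ) := ⟨!![1, s * y + t * w; 0, 1], by
      rw [Matrix.det_fin_two_of]; ring⟩
    have hU : (U : Mat) = !![1, s * y + t * w; 0, 1] := rfl
    refine ⟨γ₀ * U, none, ?_⟩
    rw [b3_alpha_none, Matrix.SpecialLinearGroup.coe_mul, hγ₀, hU, Matrix.mul_fin_two,
      Matrix.mul_fin_two]
    congr 1
    ext i j
    fin_cases i <;> fin_cases j
    · simp
      ring
    · simp
      linear_combination (-y) * hst - t * he
    · simp
      ring
    · simp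
      linear_combination (-w) * hst + s * he

theorem alpha_reps (τ : SL(2, ℤ)) (p : ℕ) (hp : p.Prime) : IsReps p (alpha τ p) := by
  constructor
  · intro i
    cases i with
    | none =>
      rw [b3_alpha_none, Matrix.det_fin_two_of]
      ring
    | some b =>
      rw [b3_alpha_some, Matrix.det_mul, Matrix.SpecialLinearGroup.det_coe, Matrix.det_fin_two_of]
      ring
  · intro g hg
    rw [Matrix.det_fin_two] at hg
    obtain ⟨γ, i, h⟩ := b3_exists τ p hp (g 0 0) (g 0 1) (g 1 0) (g 1 1) hg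
    rw [← Matrix.eta_fin_two g] at h
    refine ⟨(γ, i), h, ?_⟩
    rintro ⟨γ', k⟩ h'
    have h1 := b3_uniq τ p hp γ' γ k i (h'.symm.trans h)
    rw [h1.1, h1.2]

end KS44
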