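import Pool.Agent.LibKS44.B2
import Pool.Agent.LibKS44.B3

/-!
# [KS B4] congruences modulo `ℓ`

`τ ≡ (p, *; 0, 1/p)` modulo `ℓ`. Then every `α i = alpha τ p i` is `≡ (p, *; 0, 1)` modulo `ℓ`.

PROOFS. `alpha_cong`: `none` clear; `some b`: the first column is that of `τ`: `≡ (p, 0)`; the entry `(1, 1)` is
`τ₁₀ b + τ₁₁ p ≡ τ₁₁ τ₀₀ ≡ 1` (`τ₀₀ τ₁₁ - τ₀₁ τ₁₀ = 1`).
`adj_mem`: `det (adj α) = det α = p` (`Matrix.det_adjugate`, `Fintype.card (Fin 2) - 1 = 1`, or `adjugate_fin_two`),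
entries `(0,0)`: `α₁₁ ≡ 1`, `(1, 0)`: `-α₁₀ ≡ 0`.
`conj_mem`: direct computation: `σ γ σ⁻¹` for `σ ≡ (s, *; 0, s')`, `s s' ≡ 1`, `γ ≡ (1, *; 0, 1)` (adjugate for the inverse).
`comp_mem`: `α_i σ = c α_k` (`comp_spec`), first columns modulo `ℓ`: left `(p σ₀₀, 0)`, right `(c₀₀ p, c₁₀ p)`; `p` is prime to
`ℓ`, so `c₁₀ ≡ 0`, `c₀₀ ≡ σ₀₀`; the first column of `σ⁻¹ c` is `(σ₁₁ c₀₀ - σ₀₁ c₁₀, -σ₁₀ c₀₀ + σ₀₀ c₁₀) ≡ (σ₁₁ σ₀₀, 0) ≡ (1, 0)`.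
`comp_mem_G1`: `c = σ (σ⁻¹ c)` for `σ ∈ G1 ≤ G0`. `z_mem`: `det (p τ⁻¹) = p²`, entries `p τ₁₁ ≡ 1`, `-p τ₁₀ ≡ 0`. QED.
-/

set_option autoImplicit false

open Matrix
open scoped MatrixGroups

namespace KS44

/-- the data: primes `ℓ ≠ p`, `τ ≡ (p, *; 0, 1/p)` modulo `ℓ` -/
structure Setup (ℓ p : ℕ) (τ : SL(2, ℤ)) : Prop where
  hl : ℓ.Prime
  hp : p.Prime
  cop : IsCoprime (p : ℤ) (ℓ : ℤ)
  h00 : (ℓ : ℤ) ∣ (τ : Mat) 0 0 - p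
  h10 : (ℓ : ℤ) ∣ (τ : Mat) 1 0

variable {ℓ p : ℕ} {τ : SL(2, ℤ)}

private theorem b4_det (σ : SL(2, ℤ)) :
    (σ : Mat) 0 0 * (σ : Mat) 1 1 - (σ : Mat) 0 1 * (σ : Mat) 1 0 = 1 := by
  have := Matrix.SpecialLinearGroup.det_coe σ
  rwa [Matrix.det_fin_two] at this

private theorem b4_inv (σ : SL(2, ℤ)) :
    ((σ⁻¹ : SL(2, ℤ)) : Mat) 0 0 = (σ : Mat) 1 1 ∧ ((σ⁻¹ : SL(2, ℤ)) : Mat) 0 1 = -(σ : Mat) 0 1 ∧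
    ((σ⁻¹ : SL(2, ℤ)) : Mat) 1 0 = -(σ : Mat) 1 0 ∧ ((σ⁻¹ : SL(2, ℤ)) : Mat) 1 1 = (σ : Mat) 0 0 := by
  rw [Matrix.SpecialLinearGroup.coe_inv, Matrix.adjugate_fin_two]
  simp

private theorem b4_mul (A B : Mat) (i j : Fin 2) : (A * B) i j = A i 0 * B 0 j + A i 1 * B 1 j := by
  rw [Matrix.mul_apply, Fin.sum_univ_two]

private theorem b4_G1 {ℓ : ℕ} {g : SL(2, ℤ)} :
    g ∈ G1 ℓ ↔ (ℓ : ℤ) ∣ (g : Mat) 0 0 - 1 ∧ (ℓ : ℤ) ∣ (g : Mat) 1 0 := Iff.rfl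

private theorem b4_G0 {ℓ : ℕ} {g : SL(2, ℤ)} : g ∈ G0 ℓ ↔ (ℓ : ℤ) ∣ (g : Mat) 1 0 := Iff.rfl

private theorem b4_D1 {ℓ : ℕ} {g : Mat} :
    g ∈ D1 ℓ ↔ IsCoprime g.det (ℓ : ℤ) ∧ (ℓ : ℤ) ∣ g 0 0 - 1 ∧ (ℓ : ℤ) ∣ g 1 0 := Iff.rfl

theorem alpha_cong (h : Setup ℓ p τ) (i : Option (Fin p)) :
    (ℓ : ℤ) ∣ alpha τ p i 0 0 - p ∧ (ℓ : ℤ) ∣ alpha τ p i 1 0 ∧ (ℓ : ℤ) ∣ alpha τ p i 1 1 - 1 := by
  cases i with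
  | none => simp [alpha]
  | some b =>
    obtain ⟨x, hx⟩ := h.h00
    obtain ⟨y, hy⟩ := h.h10
    have hd := b4_det τ
    have e00 : alpha τ p (some b) 0 0 = (τ : Mat) 0 0 := by
      simp [alpha, b4_mul]
    have e10 : alpha τ p (some b) 1 0 = (τ : Mat) 1 0 := by
      simp [alpha, b4_mul]
    have e11 : alpha τ p (some b) 1 1 = (τ : Mat) 1 0 * b + (τ : Mat) 1 1 * p := by
      simp [alpha, b4_mul]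
    rw [e00, e10, e11]
    refine ⟨⟨x, hx⟩, ⟨y, hy⟩, ⟨y * (b + (τ : Mat) 0 1) - (τ : Mat) 1 1 * x, ?_⟩⟩
    linear_combination (b + (τ : Mat) 0 1) * hy - (τ : Mat) 1 1 * hx + hd

theorem adj_mem (h : Setup ℓ p τ) (i : Option (Fin p)) : (alpha τ p i).adjugate ∈ D1 ℓ := by
  obtain ⟨h1, h2, h3⟩ := alpha_cong h i
  rw [b4_D1]
  have hdet : (alpha τ p i).adjugate.det = p := by
    rw [Matrix.det_adjugate, (alpha_reps τ p h.hp).1 i]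
    simp
  rw [hdet]
  refine ⟨h.cop, ?_, ?_⟩
  · rw [Matrix.adjugate_fin_two]
    simpa using h3
  · rw [Matrix.adjugate_fin_two]
    simpa using h2

theorem G1_le_G0 : G1 ℓ ≤ G0 ℓ := by
  intro g hg
  exact (b4_G1.1 hg).2

theorem tau_mem (h : Setup ℓ p τ) : τ ∈ G0 ℓ := by
  exact h.h10

theorem conj_mem {σ γ : SL(2, ℤ)} (hσ : σ ∈ G0 ℓ) (hγ : γ ∈ G1 ℓ) : σ * γ * σ⁻¹ ∈ G1 ℓ := by
  obtain ⟨c, hc⟩ := b4_G0.1 hσ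
  obtain ⟨⟨x, hx⟩, ⟨z, hz⟩⟩ := b4_G1.1 hγ
  obtain ⟨i00, i01, i10, i11⟩ := b4_inv σ
  have hd := b4_det σ
  rw [b4_G1]
  rw [Matrix.SpecialLinearGroup.coe_mul, Matrix.SpecialLinearGroup.coe_mul, b4_mul, b4_mul, b4_mul,
    b4_mul, b4_mul, b4_mul, i00, i10]
  set s00 := (σ : Mat) 0 0
  set s01 := (σ : Mat) 0 1
  set s10 := (σ : Mat) 1 0
  set s11 := (σ : Mat) 1 1
  set g00 := (γ : Mat) 0 0
  set g01 := (γ : Mat) 0 1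
  set g10 := (γ : Mat) 1 0
  set g11 := (γ : Mat) 1 1
  refine ⟨⟨s00 * s11 * x + s01 * s11 * z - (s00 * g01 + s01 * g11) * c + s01 * c, ?_⟩,
    ⟨(c * g00 + s11 * z) * s11 - (s10 * g01 + s11 * g11) * c, ?_⟩⟩
  · linear_combination s00 * s11 * hx + s01 * s11 * hz - (s00 * g01 + s01 * g11) * hc + s01 * hc + hd
  · linear_combination (g00 * s11) * hc + s11 * s11 * hz - (s10 * g01 + s11 * g11) * hc

theorem comp_mem (h : Setup ℓ p τ) (i : Option (Fin p)) {σ : SL(2, ℤ)} (hσ : σ ∈ G0 ℓ) :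
    σ⁻¹ * comp (alpha τ p) i σ ∈ G1 ℓ := by
  obtain ⟨s, hs⟩ := b4_G0.1 hσ
  have hsp := comp_spec (alpha_reps τ p h.hp) i σ
  set c := comp (alpha τ p) i σ with hcdef
  set k := perm (alpha τ p) i σ with hkdef
  obtain ⟨⟨a, ha⟩, ⟨a', ha'⟩, -⟩ := alpha_cong h i
  obtain ⟨⟨b, hb⟩, ⟨b', hb'⟩, -⟩ := alpha_cong h k
  have e0 := congrFun (congrFun hsp 0) 0
  have e1 := congrFun (congrFun hsp 1) 0
  rw [b4_mul, b4_mul] at e0 e1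
  have hd := b4_det σ
  have h0 : (ℓ : ℤ) ∣ (c : Mat) 0 0 - (σ : Mat) 0 0 := by
    have h5 : (ℓ : ℤ) ∣ ((c : Mat) 0 0 - (σ : Mat) 0 0) * p := by
      refine ⟨a * (σ : Mat) 0 0 + alpha τ p i 0 1 * s - (c : Mat) 0 0 * b - (c : Mat) 0 1 * b', ?_⟩
      linear_combination -e0 + (σ : Mat) 0 0 * ha + alpha τ p i 0 1 * hs - (c : Mat) 0 0 * hb
        - (c : Mat) 0 1 * hb'
    exact h.cop.symm.dvd_of_dvd_mul_right h5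
  have h1 : (ℓ : ℤ) ∣ (c : Mat) 1 0 := by
    have h5 : (ℓ : ℤ) ∣ (c : Mat) 1 0 * p := by
      refine ⟨a' * (σ : Mat) 0 0 + alpha τ p i 1 1 * s - (c : Mat) 1 0 * b - (c : Mat) 1 1 * b', ?_⟩
      linear_combination -e1 + (σ : Mat) 0 0 * ha' + alpha τ p i 1 1 * hs - (c : Mat) 1 0 * hb
        - (c : Mat) 1 1 * hb'
    exact h.cop.symm.dvd_of_dvd_mul_right h5
  obtain ⟨x, hx⟩ := h0
  obtain ⟨y, hy⟩ := h1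
  obtain ⟨i00, i01, i10, i11⟩ := b4_inv σ
  rw [b4_G1, Matrix.SpecialLinearGroup.coe_mul, b4_mul, b4_mul, i00, i01, i10, i11]
  refine ⟨⟨(σ : Mat) 1 1 * x - (σ : Mat) 0 1 * (y - s), ?_⟩,
    ⟨-s * (c : Mat) 0 0 + (σ : Mat) 0 0 * y, ?_⟩⟩
  · linear_combination (σ : Mat) 1 1 * hx - (σ : Mat) 0 1 * hy + (σ : Mat) 0 1 * hs + hd
  · linear_combination -(c : Mat) 0 0 * hs + (σ : Mat) 0 0 * hy

theorem comp_mem_G1 (h : Setup ℓ p τ) (i : Option (Fin p)) {γ : SL(2, ℤ)} (hγ : γ ∈ G1 ℓ) :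
    comp (alpha τ p) i γ ∈ G1 ℓ := by
  have h1 := (G1 ℓ).mul_mem hγ (comp_mem h i (G1_le_G0 hγ))
  rwa [mul_inv_cancel_left] at h1

theorem z_mem (h : Setup ℓ p τ) : ((p : ℤ) • ((τ⁻¹ : SL(2, ℤ)) : Mat)) ∈ D1 ℓ := by
  obtain ⟨x, hx⟩ := h.h00
  obtain ⟨y, hy⟩ := h.h10
  have hd := b4_det τ
  obtain ⟨i00, i01, i10, i11⟩ := b4_inv τ
  rw [b4_D1]
  refine ⟨?_, ?_, ?_⟩
  · rw [Matrix.det_smul, Matrix.SpecialLinearGroup.det_coe, mul_one, Fintype.card_fin]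
    exact h.cop.pow_left
  · rw [Matrix.smul_apply, i00, smul_eq_mul]
    refine ⟨(τ : Mat) 0 1 * y - (τ : Mat) 1 1 * x, ?_⟩
    linear_combination (τ : Mat) 0 1 * hy - (τ : Mat) 1 1 * hx + hd
  · rw [Matrix.smul_apply, i10, smul_eq_mul]
    refine ⟨-p * y, ?_⟩
    linear_combination (-p : ℤ) * hy

end KS44
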