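import Pool.Agent.LibKS44.A1
import Pool.Agent.LibKS44.B4

/-!
# LibKS44.B6 : the Hecke data `T` and `S` on `Γ₁(ℓ)`
-/

set_option autoImplicit false

open Matrix
open scoped MatrixGroups

namespace KS44

variable {ℓ p : ℕ} {τ : SL(2, ℤ)}

/-- `T`: `(T u)(γ) = ∑ i, adj (α i) • u (c_i γ)` -/
noncomputable def T1 (h : Setup ℓ p τ) : HD (jj ℓ) where
  I := Option (Fin p)
  fin := inferInstance
  a i := el ℓ ⟨(alpha τ p i).adjugate, adj_mem h i⟩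
  c i γ := ⟨comp (alpha τ p) i γ, comp_mem_G1 h i γ.2⟩
  s γ i := perm (alpha τ p) i γ
  rel i γ := by
    change el ℓ _ * el ℓ (incl ℓ _) = el ℓ (incl ℓ _) * el ℓ _
    rw [← map_mul, ← map_mul]
    congr 1
    exact Subtype.ext (adj_rel (alpha_reps τ p h.hp) i γ)
  c_mul i γ δ := Subtype.ext (comp_mul (alpha_reps τ p h.hp) i γ δ)
  s_bij γ := perm_bij (alpha_reps τ p h.hp) γ

/-- `S`: `(S u)(γ) = (p τ⁻¹) • u (τ γ τ⁻¹)` -/
noncomputable def S1 (h : Setup ℓ p τ) : HD (jj ℓ) where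
  I := Unit
  fin := inferInstance
  a _ := el ℓ ⟨_, z_mem h⟩
  c _ γ := ⟨τ * γ * τ⁻¹, conj_mem (tau_mem h) γ.2⟩
  s _ i := i
  rel i γ := by
    change el ℓ _ * el ℓ (incl ℓ _) = el ℓ (incl ℓ _) * el ℓ _
    rw [← map_mul, ← map_mul]
    congr 1
    refine Subtype.ext ?_
    change ((p : ℤ) • ((τ⁻¹ : SL(2, ℤ)) : Mat)) * ((τ * γ * τ⁻¹ : SL(2, ℤ)) : Mat) =
      ((γ : SL(2, ℤ)) : Mat) * ((p : ℤ) • ((τ⁻¹ : SL(2, ℤ)) : Mat))
    rw [Matrix.smul_mul, Matrix.mul_smul, ← Matrix.SpecialLinearGroup.coe_mul,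
      ← Matrix.SpecialLinearGroup.coe_mul]
    congr 2
    group
  c_mul i γ δ := Subtype.ext (by
    change τ * (γ * δ : SL(2, ℤ)) * τ⁻¹ = (τ * γ * τ⁻¹) * (τ * δ * τ⁻¹)
    group)
  s_bij γ := Function.bijective_id

end KS44
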