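import Pool.Agent.LibKS44.B4

/-!
# LibKS44.C0 : homomorphisms on `Γ₁(ℓ)`, definitions
-/

set_option autoImplicit false

open Matrix
open scoped MatrixGroups

namespace KS44

/-- `f` is additive on `Γ₁(ℓ)` -/
def HomOn (ℓ : ℕ) {V : Type} [AddCommGroup V] (f : SL(2, ℤ) → V) : Prop :=
  ∀ γ ∈ G1 ℓ, ∀ δ ∈ G1 ℓ, f (γ * δ) = f γ + f δ

/-- the Hecke operator on `Hom(Γ₁(ℓ), V)` -/
noncomputable def hk {V : Type} [AddCommGroup V] (τ : SL(2, ℤ)) (p : ℕ) (f : SL(2, ℤ) → V) (γ : SL(2, ℤ)) : V :=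
  ∑ i, f (comp (alpha τ p) i γ)

section

variable {ℓ : ℕ} {V : Type} [AddCommGroup V] {f : SL(2, ℤ) → V}

theorem HomOn.one (hf : HomOn ℓ f) : f 1 = 0 := by
  have h := hf 1 (one_mem _) 1 (one_mem _)
  rw [mul_one] at h
  exact left_eq_add.mp h

theorem HomOn.inv (hf : HomOn ℓ f) {γ : SL(2, ℤ)} (hγ : γ ∈ G1 ℓ) : f γ⁻¹ = - f γ := by
  have h := hf γ⁻¹ (inv_mem hγ) γ hγ
  rw [inv_mul_cancel, hf.one] at h
  exact eq_neg_of_add_eq_zero_left h.symm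

theorem HomOn.pow (hf : HomOn ℓ f) {γ : SL(2, ℤ)} (hγ : γ ∈ G1 ℓ) (n : ℕ) : f (γ ^ n) = n • f γ := by
  induction n with
  | zero => rw [pow_zero, hf.one, zero_smul]
  | succ n ih => rw [pow_succ, hf _ (pow_mem hγ n) _ hγ, ih, succ_nsmul]

theorem HomOn.conj (hf : HomOn ℓ f) {γ κ : SL(2, ℤ)} (hγ : γ ∈ G1 ℓ) (hκ : κ ∈ G1 ℓ) :
    f (κ * γ * κ⁻¹) = f γ := by
  rw [hf _ (mul_mem hκ hγ) _ (inv_mem hκ), hf _ hκ _ hγ, hf.inv hκ]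
  abel

theorem T_mem : ModularGroup.T ∈ G1 ℓ := by
  refine ⟨?_, ?_⟩ <;> simp [ModularGroup.coe_T]

theorem lowV_mem : lowV ℓ ∈ G1 ℓ := by
  refine ⟨?_, ?_⟩ <;> simp [lowV]

end

end KS44
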