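import Pool.Agent.LibKS44.C0

/-!
# [KS C1] the value at `T = (1, 1; 0, 1)`

PROOF. With `comp_unique` (`alpha_reps τ p h.hp`): `α none * T = (p, p; 0, 1) = T ^ p * α none`, so
`comp α none T = T ^ p`, `f = p • f T` (`HomOn.pow`). `α (some b) * T = τ (1, b + 1; 0, p)`: if `b + 1 < p` it is
`1 * α (some (b + 1))`, so `comp = 1`, `f 1 = 0`; if `b = p - 1`: `τ (1, p; 0, p) = τ T (1, 0; 0, p) =
(τ T τ⁻¹) * α (some 0)`. Sum over `Option (Fin p)` (`Fintype.sum_option`, `Finset.sum_eq_single` at `p - 1`). QED.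
(`ModularGroup.coe_T_zpow`, or prove `((T ^ n : SL(2, ℤ)) : Mat) = !![1, n; 0, 1]` by induction.)
-/

set_option autoImplicit false

open Matrix
open scoped MatrixGroups

namespace KS44

theorem c1_T_pow (n : ℕ) : ((ModularGroup.T ^ n : SL(2, ℤ)) : Mat) = !![1, (n : ℤ); 0, 1] := by
  have h := ModularGroup.coe_T_zpow (n : ℤ)
  rw [zpow_natCast] at h
  exact h

theorem c1_none (τ : SL(2, ℤ)) (p : ℕ) :
    alpha τ p none * (ModularGroup.T : Mat) =
      ((ModularGroup.T ^ p : SL(2, ℤ)) : Mat) * alpha τ p none := by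
  rw [c1_T_pow, ModularGroup.coe_T]
  simp only [alpha]
  ext i j
  fin_cases i <;> fin_cases j <;> simp [Matrix.mul_apply, Fin.sum_univ_two]

theorem c1_some (τ : SL(2, ℤ)) (p : ℕ) (b : Fin p) :
    alpha τ p (some b) * (ModularGroup.T : Mat) = (τ : Mat) * !![1, ((b : ℕ) : ℤ) + 1; 0, (p : ℤ)] := by
  rw [ModularGroup.coe_T]
  simp only [alpha]
  rw [Matrix.mul_assoc]
  congr 1
  ext i j
  fin_cases i <;> fin_cases j <;> simp [Matrix.mul_apply, Fin.sum_univ_two]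
  ring

theorem c1_lt (τ : SL(2, ℤ)) (p : ℕ) (b : Fin p) (hb : (b : ℕ) + 1 < p) :
    alpha τ p (some b) * (ModularGroup.T : Mat) =
      ((1 : SL(2, ℤ)) : Mat) * alpha τ p (some ⟨(b : ℕ) + 1, hb⟩) := by
  rw [c1_some, Matrix.SpecialLinearGroup.coe_one, Matrix.one_mul]
  simp only [alpha]
  push_cast
  rfl

theorem c1_last (τ : SL(2, ℤ)) (p : ℕ) (hp : 0 < p) (b : Fin p) (hb : (b : ℕ) + 1 = p) :
    alpha τ p (some b) * (ModularGroup.T : Mat) =
      ((τ * ModularGroup.T * τ⁻¹ : SL(2, ℤ)) : Mat) * alpha τ p (some ⟨0, hp⟩) := by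
  have hb' : ((b : ℕ) : ℤ) + 1 = p := by exact_mod_cast hb
  rw [c1_some, hb']
  have h1 : ((τ⁻¹ : SL(2, ℤ)) : Mat) * (τ : Mat) = 1 := by
    rw [← Matrix.SpecialLinearGroup.coe_mul, inv_mul_cancel, Matrix.SpecialLinearGroup.coe_one]
  have h2 : ((τ * ModularGroup.T * τ⁻¹ : SL(2, ℤ)) : Mat) * alpha τ p (some ⟨0, hp⟩) =
      (τ : Mat) * ((ModularGroup.T : Mat) * !![1, ((0 : ℕ) : ℤ); 0, (p : ℤ)]) := by
    rw [Matrix.SpecialLinearGroup.coe_mul, Matrix.SpecialLinearGroup.coe_mul]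
    simp only [alpha]
    rw [Matrix.mul_assoc, ← Matrix.mul_assoc ((τ⁻¹ : SL(2, ℤ)) : Mat) (τ : Mat), h1,
      Matrix.one_mul, Matrix.mul_assoc]
  rw [h2, ModularGroup.coe_T]
  congr 1
  ext i j
  fin_cases i <;> fin_cases j <;> simp [Matrix.mul_apply, Fin.sum_univ_two]

theorem hk_T {ℓ p : ℕ} {τ : SL(2, ℤ)} (h : Setup ℓ p τ) {V : Type} [AddCommGroup V] {f : SL(2, ℤ) → V}
    (hf : HomOn ℓ f) : hk τ p f ModularGroup.T = p • f ModularGroup.T + f (τ * ModularGroup.T * τ⁻¹) := by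
  have hα := alpha_reps τ p h.hp
  have hp := h.hp.pos
  unfold hk
  rw [Fintype.sum_option]
  congr 1
  · rw [(comp_unique hα (c1_none τ p)).1, hf.pow T_mem]
  · rw [Finset.sum_eq_single (⟨p - 1, by omega⟩ : Fin p)]
    · rw [(comp_unique hα (c1_last τ p hp ⟨p - 1, by omega⟩ (by simp only; omega))).1]
    · intro b _ hb
      have hb1 : (b : ℕ) + 1 < p := by
        have h1 := b.2
        have h2 : (b : ℕ) ≠ p - 1 := fun h3 => hb (Fin.ext h3)
        omega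
      rw [(comp_unique hα (c1_lt τ p b hb1)).1, hf.one]
    · intro hn
      exact absurd (Finset.mem_univ _) hn

end KS44
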