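import Pool.Agent.LibKS44.C3

/-!
# [KS C2] the value at `V = lowV ℓ = (1, 0; ℓ, 1)`

PROOF. `hk τ p f` is additive on `Γ₁(ℓ)` (`hk_hom`, row C3), so `hk (V ^ p) = p • hk V`. `V ^ p = lowV (p ℓ)`.
By `comp_unique`: `α none * V ^ p = (p, 0; p ℓ, 1) = V * α none`, so the term `none` is `f V`.
`α (some b) * V ^ p = (τ W_b τ⁻¹) * α (some b)` with `W_b = (1 + b p ℓ, - b² ℓ; p² ℓ, 1 - b p ℓ)` (check
`W_b (1, b; 0, p) = (1, b; 0, p) (1, 0; p ℓ, 1) = (1 + b p ℓ, b; p² ℓ, p)`).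
`b = 0`: `W_0 = V ^ (p²)`, the term is `f (τ V ^ (p²) τ⁻¹) = f ((τ V τ⁻¹) ^ (p²)) = p² • f (τ V τ⁻¹)`.
`0 < b < p`: `p` is prime to `b ℓ` (`p` prime, `p ∤ b`, `h.cop`), so there are integers `x, y` with `x p - b ℓ y = 1`;
`g = (x, b; ℓ y, p) ∈ SL₂(ℤ)` and `W_b = g V g⁻¹` (check), `τ g ∈ Γ₁(ℓ)`: `(τ g)₀₀ = τ₀₀ x + τ₀₁ ℓ y ≡ p x ≡ 1`,
`(τ g)₁₀ = τ₁₀ x + τ₁₁ ℓ y ≡ 0`. So the term is `f ((τ g) V (τ g)⁻¹) = f V` (`HomOn.conj`).
Sum: `p • hk V = f V + p² • f (τ V τ⁻¹) + (p - 1) • f V = p • (f V + p • f (τ V τ⁻¹))`. Since `ℓ • v = 0` for all `v` and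
`p` is prime to `ℓ`, `p •` is injective: done. QED.
-/

set_option autoImplicit false

open Matrix
open scoped MatrixGroups

namespace KS44

theorem c2_lowV_mul (a b : ℤ) : lowV a * lowV b = lowV (a + b) := by
  refine Subtype.ext ?_
  rw [Matrix.SpecialLinearGroup.coe_mul]
  ext i j
  fin_cases i <;> fin_cases j <;> simp [lowV, Matrix.mul_apply, Fin.sum_univ_two]

theorem c2_lowV_pow (a : ℤ) (k : ℕ) : lowV a ^ k = lowV (k * a) := by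
  induction k with
  | zero =>
    rw [pow_zero]
    refine Subtype.ext ?_
    rw [Matrix.SpecialLinearGroup.coe_one]
    ext i j
    fin_cases i <;> fin_cases j <;> simp [lowV]
  | succ k ih =>
    rw [pow_succ, ih, c2_lowV_mul]
    congr 1
    push_cast
    ring

/-- the matrix `W_b` -/
def c2_W (ℓ p b : ℤ) : SL(2, ℤ) :=
  ⟨!![1 + b * p * ℓ, -(b ^ 2 * ℓ); p ^ 2 * ℓ, 1 - b * p * ℓ], by
    rw [Matrix.det_fin_two_of]; ring⟩

theorem c2_term {ℓ p : ℕ} {τ : SL(2, ℤ)} (h : Setup ℓ p τ) (b : Fin p) :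
    comp (alpha τ p) (some b) (lowV (p * ℓ)) = τ * c2_W ℓ p (b : ℕ) * τ⁻¹ := by
  refine (comp_unique (alpha_reps τ p h.hp) (k := some b) ?_).1
  have h1 : ((τ⁻¹ : SL(2, ℤ)) : Mat) * (τ : Mat) = 1 := by
    rw [← Matrix.SpecialLinearGroup.coe_mul, inv_mul_cancel, Matrix.SpecialLinearGroup.coe_one]
  have h2 : !![1, ((b : ℕ) : ℤ); 0, (p : ℤ)] * (lowV (p * ℓ) : Mat) =
      (c2_W ℓ p (b : ℕ) : Mat) * !![1, ((b : ℕ) : ℤ); 0, (p : ℤ)] := by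
    ext i j
    fin_cases i <;> fin_cases j <;>
      simp [lowV, c2_W, Matrix.mul_apply, Fin.sum_univ_two] <;> ring
  change ((τ : Mat) * !![1, ((b : ℕ) : ℤ); 0, (p : ℤ)]) * (lowV (p * ℓ) : Mat) =
    ((τ * c2_W ℓ p (b : ℕ) * τ⁻¹ : SL(2, ℤ)) : Mat) * ((τ : Mat) * !![1, ((b : ℕ) : ℤ); 0, (p : ℤ)])
  rw [Matrix.SpecialLinearGroup.coe_mul, Matrix.SpecialLinearGroup.coe_mul, Matrix.mul_assoc, h2,
    Matrix.mul_assoc ((τ : Mat) * _), ← Matrix.mul_assoc _ (τ : Mat), h1, Matrix.one_mul, Matrix.mul_assoc]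

theorem c2_none {ℓ p : ℕ} {τ : SL(2, ℤ)} (h : Setup ℓ p τ) :
    comp (alpha τ p) none (lowV (p * ℓ)) = lowV ℓ := by
  refine (comp_unique (alpha_reps τ p h.hp) (k := none) ?_).1
  ext i j
  fin_cases i <;> fin_cases j <;>
    simp [alpha, lowV, Matrix.mul_apply, Fin.sum_univ_two, mul_comm]

theorem c2_zero {ℓ p : ℕ} {τ : SL(2, ℤ)} (h : Setup ℓ p τ) {V : Type} [AddCommGroup V]
    {f : SL(2, ℤ) → V} (hf : HomOn ℓ f) :
    f (τ * c2_W ℓ p 0 * τ⁻¹) = (p * p) • f (τ * lowV ℓ * τ⁻¹) := by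
  have h1 : c2_W ℓ p 0 = lowV ℓ ^ (p * p) := by
    rw [c2_lowV_pow]
    refine Subtype.ext ?_
    change !![1 + 0 * (p : ℤ) * ℓ, -((0 : ℤ) ^ 2 * ℓ); (p : ℤ) ^ 2 * ℓ, 1 - 0 * (p : ℤ) * ℓ] =
      !![1, 0; ((p * p : ℕ) : ℤ) * ℓ, 1]
    have h2 : ((p * p : ℕ) : ℤ) * ℓ = (p : ℤ) ^ 2 * ℓ := by push_cast; ring
    rw [h2]
    simp
  rw [h1, ← conj_pow, hf.pow (conj_mem (tau_mem h) lowV_mem)]

theorem c2_pos {ℓ p : ℕ} {τ : SL(2, ℤ)} (h : Setup ℓ p τ) {V : Type} [AddCommGroup V]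
    {f : SL(2, ℤ) → V} (hf : HomOn ℓ f) {b : ℕ} (hb0 : 0 < b) (hbp : b < p) :
    f (τ * c2_W ℓ p b * τ⁻¹) = f (lowV ℓ) := by
  have hcb : IsCoprime (p : ℤ) (b : ℤ) := by
    rw [Nat.isCoprime_iff_coprime]
    exact Nat.Coprime.symm (Nat.coprime_of_lt_prime hb0.ne' hbp h.hp).symm
  have hc : IsCoprime (p : ℤ) ((b : ℤ) * ℓ) := hcb.mul_right h.cop
  obtain ⟨x, y, hxy⟩ := hc
  -- x * p + y * (b * ℓ) = 1
  let g : SL(2, ℤ) := ⟨!![x, (b : ℤ); -(ℓ * y), (p : ℤ)], by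
    rw [Matrix.det_fin_two_of]
    linear_combination hxy⟩
  have hW : c2_W ℓ p b = g * lowV ℓ * g⁻¹ := by
    rw [eq_mul_inv_iff_mul_eq]
    refine Subtype.ext ?_
    rw [Matrix.SpecialLinearGroup.coe_mul, Matrix.SpecialLinearGroup.coe_mul]
    change !![1 + (b : ℤ) * p * ℓ, -((b : ℤ) ^ 2 * ℓ); (p : ℤ) ^ 2 * ℓ, 1 - (b : ℤ) * p * ℓ] *
        !![x, (b : ℤ); -(ℓ * y), (p : ℤ)] = !![x, (b : ℤ); -(ℓ * y), (p : ℤ)] * !![1, 0; (ℓ : ℤ), 1]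
    rw [Matrix.mul_fin_two, Matrix.mul_fin_two]
    have e1 : (1 + (b : ℤ) * p * ℓ) * x + -((b : ℤ) ^ 2 * ℓ) * (-(ℓ * y)) = x * 1 + (b : ℤ) * ℓ := by
      linear_combination ((b : ℤ) * ℓ) * hxy
    have e2 : (1 + (b : ℤ) * p * ℓ) * b + -((b : ℤ) ^ 2 * ℓ) * p = x * 0 + (b : ℤ) * 1 := by ring
    have e3 : (p : ℤ) ^ 2 * ℓ * x + (1 - (b : ℤ) * p * ℓ) * (-(ℓ * y)) = -(ℓ * y) * 1 + (p : ℤ) * ℓ := by
      linear_combination ((p : ℤ) * ℓ) * hxy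
    have e4 : (p : ℤ) ^ 2 * ℓ * b + (1 - (b : ℤ) * p * ℓ) * p = -(ℓ * y) * 0 + (p : ℤ) * 1 := by ring
    rw [e1, e2, e3, e4]
  have hg : τ * g ∈ G1 ℓ := by
    obtain ⟨u, hu⟩ := h.h00
    obtain ⟨v, hv⟩ := h.h10
    refine ⟨?_, ?_⟩
    · rw [Matrix.SpecialLinearGroup.coe_mul, Matrix.mul_apply, Fin.sum_univ_two]
      refine ⟨u * x - (τ : Mat) 0 1 * y - y * b, ?_⟩
      simp only [g, Matrix.of_apply, Matrix.cons_val', Matrix.cons_val_zero, Matrix.cons_val_one,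
        Matrix.cons_val_fin_one]
      linear_combination x * hu + hxy
    · rw [Matrix.SpecialLinearGroup.coe_mul, Matrix.mul_apply, Fin.sum_univ_two]
      refine ⟨v * x - (τ : Mat) 1 1 * y, ?_⟩
      simp only [g, Matrix.of_apply, Matrix.cons_val', Matrix.cons_val_zero, Matrix.cons_val_one,
        Matrix.cons_val_fin_one]
      linear_combination x * hv
  have h2 : τ * c2_W ℓ p b * τ⁻¹ = (τ * g) * lowV ℓ * (τ * g)⁻¹ := by
    rw [hW]; group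
  rw [h2, hf.conj lowV_mem hg]

theorem hk_V {ℓ p : ℕ} {τ : SL(2, ℤ)} (h : Setup ℓ p τ) {V : Type} [AddCommGroup V]
    (hV : ∀ v : V, ℓ • v = 0) {f : SL(2, ℤ) → V} (hf : HomOn ℓ f) :
    hk τ p f (lowV ℓ) = f (lowV ℓ) + p • f (τ * lowV ℓ * τ⁻¹) := by
  have h1 : hk τ p f (lowV (p * ℓ)) = p • hk τ p f (lowV ℓ) := by
    rw [← c2_lowV_pow]
    exact (hk_hom h hf).pow lowV_mem p
  have h2 : hk τ p f (lowV (p * ℓ)) = f (lowV ℓ) + ((p * p) • f (τ * lowV ℓ * τ⁻¹) + (p - 1) • f (lowV ℓ)) := by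
    unfold hk
    rw [Fintype.sum_option, c2_none h]
    congr 1
    have hp : 0 < p := h.hp.pos
    let z : Fin p := ⟨0, hp⟩
    rw [← Finset.add_sum_erase Finset.univ _ (Finset.mem_univ z)]
    congr 1
    · rw [c2_term h z]
      exact c2_zero h hf
    · have h3 : ∀ b ∈ Finset.univ.erase z, f (comp (alpha τ p) (some b) (lowV (p * ℓ))) = f (lowV ℓ) := by
        intro b hb
        rw [Finset.mem_erase] at hb
        rw [c2_term h b]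
        refine c2_pos h hf ?_ b.2
        rcases Nat.eq_zero_or_pos (b : ℕ) with h4 | h4
        · exact absurd (Fin.ext h4) hb.1
        · exact h4
      rw [Finset.sum_congr rfl h3, Finset.sum_const, Finset.card_erase_of_mem (Finset.mem_univ z),
        Finset.card_univ, Fintype.card_fin]
  have h3 : p • (hk τ p f (lowV ℓ) - (f (lowV ℓ) + p • f (τ * lowV ℓ * τ⁻¹))) = 0 := by
    have h4 : p • f (lowV ℓ) = f (lowV ℓ) + (p - 1) • f (lowV ℓ) := by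
      conv_lhs => rw [show p = 1 + (p - 1) from by have := h.hp.pos; omega]
      rw [add_smul, one_smul]
    rw [smul_sub, ← h1, h2, smul_add, h4, smul_smul]
    abel
  obtain ⟨a, c, hac⟩ := h.cop
  have h4 : ∀ v : V, p • v = 0 → v = 0 := by
    intro v hv
    have h5 : ((a * p + c * ℓ : ℤ)) • v = 0 := by
      rw [add_smul, mul_smul, mul_smul, natCast_zsmul, natCast_zsmul, hv, hV, smul_zero, smul_zero, add_zero]
    rwa [hac, one_smul] at h5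
  exact sub_eq_zero.1 (h4 _ h3)

end KS44
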