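import Pool.Agent.LibKS44.C0

/-!
# [KS C3] `hk` is additive and commutes with conjugation by `Γ₀(ℓ)`
-/

set_option autoImplicit false

open Matrix
open scoped MatrixGroups

namespace KS44

variable {ℓ p : ℕ} {τ : SL(2, ℤ)} {V : Type} [AddCommGroup V] {f : SL(2, ℤ) → V}

theorem hk_hom (h : Setup ℓ p τ) (hf : HomOn ℓ f) : HomOn ℓ (hk τ p f) := by
  have hα := alpha_reps τ p h.hp
  intro γ hγ δ hδ
  unfold hk
  have h1 : ∀ i, f (comp (alpha τ p) i (γ * δ))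
      = f (comp (alpha τ p) i γ) + f (comp (alpha τ p) (perm (alpha τ p) i γ) δ) := by
    intro i
    rw [comp_mul hα, hf _ (comp_mem_G1 h i hγ) _ (comp_mem_G1 h _ hδ)]
  rw [Finset.sum_congr rfl fun i _ => h1 i, Finset.sum_add_distrib,
    (perm_bij hα γ).sum_comp (fun i => f (comp (alpha τ p) i δ))]

/-- the decomposition of `comp` of a conjugate -/
theorem c3_comp (h : Setup ℓ p τ) (σ γ : SL(2, ℤ)) (i : Option (Fin p)) :
    comp (alpha τ p) i (σ * γ * σ⁻¹)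
      = (σ * (σ⁻¹ * comp (alpha τ p) i σ) * σ⁻¹)
        * (σ * comp (alpha τ p) (perm (alpha τ p) i σ) γ * σ⁻¹)
        * (σ * (σ⁻¹ * comp (alpha τ p) (perm (alpha τ p) i (σ * γ * σ⁻¹)) σ) * σ⁻¹)⁻¹ := by
  have hα := alpha_reps τ p h.hp
  have h1 : comp (alpha τ p) (perm (alpha τ p) i (σ * γ)) σ⁻¹
      = (comp (alpha τ p) (perm (alpha τ p) i (σ * γ * σ⁻¹)) σ)⁻¹ := by
    have h2 := comp_mul hα (perm (alpha τ p) i (σ * γ)) σ⁻¹ σ
    rw [inv_mul_cancel, comp_one hα, ← perm_mul hα] at h2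
    exact eq_inv_of_mul_eq_one_left h2.symm
  rw [comp_mul hα, comp_mul hα, h1]
  group

theorem hk_conj (h : Setup ℓ p τ) (hf : HomOn ℓ f) {σ γ : SL(2, ℤ)} (hσ : σ ∈ G0 ℓ) (hγ : γ ∈ G1 ℓ) :
    hk τ p f (σ * γ * σ⁻¹) = hk τ p (fun g => f (σ * g * σ⁻¹)) γ := by
  have hα := alpha_reps τ p h.hp
  unfold hk
  have h1 : ∀ i, f (comp (alpha τ p) i (σ * γ * σ⁻¹))
      = f (σ * (σ⁻¹ * comp (alpha τ p) i σ) * σ⁻¹)
        + f (σ * comp (alpha τ p) (perm (alpha τ p) i σ) γ * σ⁻¹)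
        - f (σ * (σ⁻¹ * comp (alpha τ p) (perm (alpha τ p) i (σ * γ * σ⁻¹)) σ) * σ⁻¹) := by
    intro i
    have m1 := conj_mem hσ (comp_mem h i hσ)
    have m2 := conj_mem hσ (comp_mem_G1 h (perm (alpha τ p) i σ) hγ)
    have m3 := conj_mem hσ (comp_mem h (perm (alpha τ p) i (σ * γ * σ⁻¹)) hσ)
    conv_lhs => rw [c3_comp h σ γ i]
    rw [hf _ (mul_mem m1 m2) _ (inv_mem m3), hf _ m1 _ m2, hf.inv m3, sub_eq_add_neg]
  rw [Finset.sum_congr rfl fun i _ => h1 i, Finset.sum_sub_distrib, Finset.sum_add_distrib,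
    (perm_bij hα (σ * γ * σ⁻¹)).sum_comp
      (fun k => f (σ * (σ⁻¹ * comp (alpha τ p) k σ) * σ⁻¹)),
    (perm_bij hα σ).sum_comp (fun i => f (σ * comp (alpha τ p) i γ * σ⁻¹))]
  abel

end KS44
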