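import Mathlib

/-!
# [KS C4] a recurrence in characteristic `ℓ`

PROOF. Let `E = A 1 - q • A 0`. By induction (two steps) `q • A n = q ^ n • (q • A 0) + (n * q ^ n) • E`.
For `n = m ℓ`: the second term is `0` (`ℓ •` kills everything), `q ^ (m ℓ) = (q ^ m) ^ ℓ ≡ (-1) ^ ℓ = -1` modulo `ℓ`, so
`q • A 0 = q • A (m ℓ) = - q • A 0`, `2 q • A 0 = 0`. `q` is prime to `ℓ` (a divisor of `q ^ m + 1`... if `ℓ ∣ q` then
`m ≥ 1` gives `ℓ ∣ 1`; `m = 0` gives `ℓ ∣ 2`), `2` is prime to `ℓ` (odd prime): `A 0 = 0`. QED.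
(It may be convenient to use `AddCommGroup.zmodModule` and compute in the `ZMod ℓ`-module `V`.)
-/

set_option autoImplicit false

namespace KS44

theorem c4_formula {V : Type} [AddCommGroup V] (q : ℤ) (A : ℕ → V)
    (hA : ∀ n, A (n + 2) = (2 * q) • A (n + 1) - (q ^ 2) • A n) (n : ℕ) :
    q • A n = (q ^ (n + 1)) • A 0 + ((n : ℤ) * q ^ n) • (A 1 - q • A 0) ∧
    q • A (n + 1) = (q ^ (n + 2)) • A 0 + (((n : ℤ) + 1) * q ^ (n + 1)) • (A 1 - q • A 0) := by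
  induction n with
  | zero =>
    refine ⟨?_, ?_⟩
    · simp
    · simp only [Nat.cast_zero, zero_add, pow_one, one_mul, smul_sub, smul_smul]
      rw [pow_two]
      abel
  | succ n ih =>
    refine ⟨?_, ?_⟩
    · rw [ih.2]
      push_cast
      rfl
    · rw [hA n, smul_sub, smul_comm q (2 * q), smul_comm q (q ^ 2), ih.1, ih.2]
      push_cast
      module

theorem c4_kill {ℓ : ℕ} {V : Type} [AddCommGroup V] (hV : ∀ v : V, ℓ • v = 0) (k : ℤ)
    (hk : (ℓ : ℤ) ∣ k) (v : V) : k • v = 0 := by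
  obtain ⟨c, hc⟩ := hk
  rw [hc, mul_smul, natCast_zsmul, hV]

theorem recur {ℓ : ℕ} (hl : ℓ.Prime) (hl2 : ℓ ≠ 2) {V : Type} [AddCommGroup V] (hV : ∀ v : V, ℓ • v = 0)
    (q : ℤ) (m : ℕ) (hq : (ℓ : ℤ) ∣ q ^ m + 1) (A : ℕ → V)
    (hA : ∀ n, A (n + 2) = (2 * q) • A (n + 1) - (q ^ 2) • A n) (hper : A (m * ℓ) = A 0) : A 0 = 0 := by
  have hlp : Prime (ℓ : ℤ) := Nat.prime_iff_prime_int.1 hl
  have hodd : Odd ℓ := hl.odd_of_ne_two hl2
  have h2 : ¬ (ℓ : ℤ) ∣ 2 := by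
    intro h
    have h' : ℓ ∣ 2 := by exact_mod_cast h
    exact hl2 ((Nat.prime_dvd_prime_iff_eq hl Nat.prime_two).1 h')
  have h1 : ¬ (ℓ : ℤ) ∣ 1 := hlp.not_dvd_one
  have hqn : ¬ (ℓ : ℤ) ∣ q := by
    intro h
    rcases Nat.eq_zero_or_pos m with hm | hm
    · apply h2
      rw [hm, pow_zero] at hq
      exact hq
    · apply h1
      have h3 : (ℓ : ℤ) ∣ q ^ m := dvd_pow h (by omega)
      exact (dvd_add_right h3).1 hq
  have hf := (c4_formula q A hA (m * ℓ)).1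
  have hk1 : (((m * ℓ : ℕ) : ℤ) * q ^ (m * ℓ)) • (A 1 - q • A 0) = 0 := by
    apply c4_kill hV
    exact Dvd.dvd.mul_right (by push_cast; exact Dvd.intro_left _ rfl) _
  rw [hk1, add_zero, hper] at hf
  have hk2 : (q * (q ^ (m * ℓ) + 1)) • A 0 = 0 := by
    apply c4_kill hV
    apply Dvd.dvd.mul_left
    rw [pow_mul]
    have h4 := hodd.add_dvd_pow_add_pow (q ^ m) 1
    rw [one_pow] at h4
    exact hq.trans h4
  have h5 : (2 * q) • A 0 = 0 := by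
    have h6 : (q * (q ^ (m * ℓ) + 1)) • A 0 = (q ^ (m * ℓ + 1)) • A 0 + q • A 0 := by
      rw [← add_smul]
      congr 1
      ring
    rw [h6, ← hf, ← add_smul] at hk2
    rw [two_mul]
    exact hk2
  have hnd : ¬ (ℓ : ℤ) ∣ 2 * q := by
    intro h
    rcases hlp.dvd_or_dvd h with h | h
    · exact h2 h
    · exact hqn h
  obtain ⟨a, b, hab⟩ := (hlp.coprime_iff_not_dvd).2 hnd
  calc A 0 = (1 : ℤ) • A 0 := (one_smul _ _).symm
    _ = (a * ℓ + b * (2 * q)) • A 0 := by rw [hab]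
    _ = 0 := by
      rw [add_smul, mul_smul, mul_smul, h5, natCast_zsmul, hV, smul_zero, smul_zero, add_zero]

end KS44
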