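import Pool.Agent.LibKS44.C1
import Pool.Agent.LibKS44.C2
import Pool.Agent.LibKS44.C4

/-!
# [KS C5] `f` vanishes on the conjugates of `T` and `V`

Let `f` be additive on `Γ₁(ℓ)` with `hk (hk f) = 4 p f(τ · τ⁻¹)` on `Γ₁(ℓ)`.

PROOF. Let `x` be `T` or `V = lowV ℓ` (both in `Γ₁(ℓ)`, `T_mem`, `lowV_mem`), `A σ = f (σ x σ⁻¹)`, `σ ∈ Γ₀(ℓ)`, `F = hk τ p f`.
(1) `F (σ x σ⁻¹) = hk (f^σ) x` (`hk_conj`), `f^σ = f (σ · σ⁻¹)` additive on `Γ₁(ℓ)` by `conj_mem`; by `hk_T` / `hk_V`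
`F (σ T σ⁻¹) = p • A σ + A (σ τ)`, `F (σ V σ⁻¹) = A σ + p • A (σ τ)` (note `σ τ x τ⁻¹ σ⁻¹ = (σ τ) x (σ τ)⁻¹`).
The same for `F` in place of `f` (`hk_hom`): for `T`: `hk F (σ T σ⁻¹) = p • F (σ T σ⁻¹) + F (σ τ T (σ τ)⁻¹) =
p² • A σ + 2 p • A (σ τ) + A (σ τ²)`; for `V`: `A σ + 2 p • A (σ τ) + p² • A (σ τ²)`.
(2) `hE` at `γ = σ x σ⁻¹ ∈ Γ₁(ℓ)`: the right side is `(4 p) • f (τ σ x σ⁻¹ τ⁻¹) = (4 p) • A (τ σ)` and `A (τ σ) = A (σ τ)`,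
because `κ = (τ σ) (σ τ)⁻¹ ∈ Γ₁(ℓ)` (both are upper triangular modulo `ℓ`, with the same diagonal) and `HomOn.conj`.
So `A (σ τ²) = 2 p • A (σ τ) - p² • A σ` for `x = T`, and `p² • A (σ τ²) = 2 p • A (σ τ) - A σ` for `x = V`, hence with
`p p' ≡ 1` modulo `ℓ`: `A (σ τ²) = 2 p' • A (σ τ) - p'² • A σ`.
(3) Apply `recur` to `A_n = A (σ τ ^ n)` with `q = p` (`x = T`) and `q = p'` (`x = V`; `p'^m ≡ (-1)⁻¹ = -1`).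
Periodicity: `κ = - τ ^ (m ℓ) ∈ Γ₁(ℓ)` (`τ ^ n ≡ (p ^ n, *; 0, *)`, `p ^ (m ℓ) ≡ (-1) ^ ℓ = -1`), and
`σ τ ^ (m ℓ) x τ ^ (- m ℓ) σ⁻¹ = (σ κ σ⁻¹) (σ x σ⁻¹) (σ κ σ⁻¹)⁻¹` (the sign cancels), `σ κ σ⁻¹ ∈ Γ₁(ℓ)`, `HomOn.conj`. QED.
-/

set_option autoImplicit false

open Matrix
open scoped MatrixGroups

namespace KS44

theorem c5_zsmul_congr {ℓ : ℕ} {V : Type} [AddCommGroup V] (hV : ∀ v : V, ℓ • v = 0) {c d : ℤ}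
    (h : (ℓ : ℤ) ∣ c - d) (v : V) : c • v = d • v := by
  obtain ⟨e, he⟩ := h
  have h1 : c = d + ℓ * e := by linear_combination he
  rw [h1, add_smul, mul_smul, natCast_zsmul, hV, add_zero]

theorem c5_pow_mod {ℓ p : ℕ} {τ : SL(2, ℤ)} (h : Setup ℓ p τ) (n : ℕ) :
    (ℓ : ℤ) ∣ ((τ ^ n : SL(2, ℤ)) : Mat) 0 0 - (p : ℤ) ^ n ∧
      (ℓ : ℤ) ∣ ((τ ^ n : SL(2, ℤ)) : Mat) 1 0 := by
  induction n with
  | zero => simp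
  | succ n ih =>
    obtain ⟨⟨a, ha⟩, ⟨b, hb⟩⟩ := ih
    obtain ⟨c, hc⟩ := h.h00
    obtain ⟨d, hd⟩ := h.h10
    have ha' : ((τ ^ n : SL(2, ℤ)) : Mat) 0 0 = (p : ℤ) ^ n + ℓ * a := by linear_combination ha
    have hc' : (τ : Mat) 0 0 = (p : ℤ) + ℓ * c := by linear_combination hc
    refine ⟨?_, ?_⟩
    · rw [pow_succ, Matrix.SpecialLinearGroup.coe_mul, Matrix.mul_apply, Fin.sum_univ_two, ha', hc',
        hd]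
      exact ⟨(p : ℤ) ^ n * c + a * p + ℓ * a * c + ((τ ^ n : SL(2, ℤ)) : Mat) 0 1 * d, by ring⟩
    · rw [pow_succ, Matrix.SpecialLinearGroup.coe_mul, Matrix.mul_apply, Fin.sum_univ_two, hb, hc',
        hd]
      exact ⟨b * (p + ℓ * c) + ((τ ^ n : SL(2, ℤ)) : Mat) 1 1 * d, by ring⟩

theorem c5_neg_conj (g x : SL(2, ℤ)) : (-g) * x * (-g)⁻¹ = g * x * g⁻¹ := by
  rw [mul_inv_eq_iff_eq_mul, neg_mul, mul_neg, inv_mul_cancel_right]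

/-- `κ = (τ σ) (σ τ)⁻¹` is in `Γ₁(ℓ)` -/
theorem c5_comm_mem {ℓ : ℕ} {σ τ : SL(2, ℤ)} (hσ : σ ∈ G0 ℓ) (hτ : τ ∈ G0 ℓ) :
    (τ * σ) * (σ * τ)⁻¹ ∈ G1 ℓ := by
  obtain ⟨a, ha⟩ := hσ
  obtain ⟨b, hb⟩ := hτ
  have hdσ : (σ : Mat) 0 0 * (σ : Mat) 1 1 - (σ : Mat) 0 1 * (σ : Mat) 1 0 = 1 := by
    have := Matrix.SpecialLinearGroup.det_coe σ
    rwa [Matrix.det_fin_two] at this
  have hdτ : (τ : Mat) 0 0 * (τ : Mat) 1 1 - (τ : Mat) 0 1 * (τ : Mat) 1 0 = 1 := by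
    have := Matrix.SpecialLinearGroup.det_coe τ
    rwa [Matrix.det_fin_two] at this
  have hmul : ∀ (x y : SL(2, ℤ)) (i j : Fin 2), ((x * y : SL(2, ℤ)) : Mat) i j
      = (x : Mat) i 0 * (y : Mat) 0 j + (x : Mat) i 1 * (y : Mat) 1 j := by
    intro x y i j
    rw [Matrix.SpecialLinearGroup.coe_mul, Matrix.mul_apply, Fin.sum_univ_two]
  have hinv00 : ∀ x : SL(2, ℤ), ((x⁻¹ : SL(2, ℤ)) : Mat) 0 0 = (x : Mat) 1 1 := by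
    intro x
    rw [Matrix.SpecialLinearGroup.coe_inv, Matrix.adjugate_fin_two]
    simp
  have hinv10 : ∀ x : SL(2, ℤ), ((x⁻¹ : SL(2, ℤ)) : Mat) 1 0 = - (x : Mat) 1 0 := by
    intro x
    rw [Matrix.SpecialLinearGroup.coe_inv, Matrix.adjugate_fin_two]
    simp
  refine ⟨?_, ?_⟩
  · rw [hmul, hinv00, hinv10, hmul τ σ 0 0, hmul τ σ 0 1, hmul σ τ 1 1, hmul σ τ 1 0, ha, hb]
    rw [ha] at hdσ
    rw [hb] at hdτ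
    have h1 : (σ : Mat) 0 0 * (σ : Mat) 1 1 = 1 + (σ : Mat) 0 1 * (ℓ * a) := by
      linear_combination hdσ
    have h2 : (τ : Mat) 0 0 * (τ : Mat) 1 1 = 1 + (τ : Mat) 0 1 * (ℓ * b) := by
      linear_combination hdτ
    have h3 : ((τ : Mat) 0 0 * (σ : Mat) 0 0) * ((σ : Mat) 1 1 * (τ : Mat) 1 1)
        = (1 + (σ : Mat) 0 1 * (ℓ * a)) * (1 + (τ : Mat) 0 1 * (ℓ * b)) := by
      rw [← h1, ← h2]; ring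
    refine ⟨(σ : Mat) 0 1 * a + (τ : Mat) 0 1 * b + ℓ * ((σ : Mat) 0 1 * a) * ((τ : Mat) 0 1 * b)
      + (τ : Mat) 0 1 * a * ((σ : Mat) 1 1 * (τ : Mat) 1 1)
      + ((τ : Mat) 0 0 * (σ : Mat) 0 0 + (τ : Mat) 0 1 * (ℓ * a)) * (a * (τ : Mat) 0 1)
      - ((τ : Mat) 0 0 * (σ : Mat) 0 1 + (τ : Mat) 0 1 * (σ : Mat) 1 1)
        * (a * (τ : Mat) 0 0 + (σ : Mat) 1 1 * b), ?_⟩
    linear_combination h3
  · rw [hmul, hinv00, hinv10, hmul τ σ 1 0, hmul τ σ 1 1, hmul σ τ 1 1, hmul σ τ 1 0, ha, hb]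
    refine ⟨(b * (σ : Mat) 0 0 + (τ : Mat) 1 1 * a) * (ℓ * a * (τ : Mat) 0 1
      + (σ : Mat) 1 1 * (τ : Mat) 1 1)
      - (ℓ * b * (σ : Mat) 0 1 + (τ : Mat) 1 1 * (σ : Mat) 1 1)
        * (a * (τ : Mat) 0 0 + (σ : Mat) 1 1 * b), ?_⟩
    ring

section

variable {ℓ p : ℕ} {τ : SL(2, ℤ)} {V : Type} [AddCommGroup V] {f : SL(2, ℤ) → V}

theorem c5_conj_hom {f : SL(2, ℤ) → V} (hf : HomOn ℓ f) {σ : SL(2, ℤ)} (hσ : σ ∈ G0 ℓ) :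
    HomOn ℓ (fun g => f (σ * g * σ⁻¹)) := by
  intro γ hγ δ hδ
  have h1 : σ * (γ * δ) * σ⁻¹ = (σ * γ * σ⁻¹) * (σ * δ * σ⁻¹) := by group
  change f (σ * (γ * δ) * σ⁻¹) = _
  rw [h1]
  exact hf _ (conj_mem hσ hγ) _ (conj_mem hσ hδ)

/-- step (1) -/
theorem c5_step1 (h : Setup ℓ p τ) {x : SL(2, ℤ)} (hx : x ∈ G1 ℓ) (a b : ℕ)
    (hval : ∀ f : SL(2, ℤ) → V, HomOn ℓ f → hk τ p f x = a • f x + b • f (τ * x * τ⁻¹))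
    {f : SL(2, ℤ) → V} (hf : HomOn ℓ f) {σ : SL(2, ℤ)} (hσ : σ ∈ G0 ℓ) :
    hk τ p f (σ * x * σ⁻¹) = a • f (σ * x * σ⁻¹) + b • f ((σ * τ) * x * (σ * τ)⁻¹) := by
  rw [hk_conj h hf hσ hx, hval _ (c5_conj_hom hf hσ)]
  have h1 : σ * (τ * x * τ⁻¹) * σ⁻¹ = (σ * τ) * x * (σ * τ)⁻¹ := by group
  rw [h1]

/-- step (2) -/
theorem c5_step2 (h : Setup ℓ p τ) {x : SL(2, ℤ)} (hx : x ∈ G1 ℓ) (a b : ℕ) (hab : a * b = p)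
    (hval : ∀ f : SL(2, ℤ) → V, HomOn ℓ f → hk τ p f x = a • f x + b • f (τ * x * τ⁻¹))
    (hf : HomOn ℓ f) (hE : ∀ γ ∈ G1 ℓ, hk τ p (hk τ p f) γ = (4 * p) • f (τ * γ * τ⁻¹))
    {σ : SL(2, ℤ)} (hσ : σ ∈ G0 ℓ) :
    ((a : ℤ) ^ 2) • f (σ * x * σ⁻¹) + ((b : ℤ) ^ 2) • f ((σ * τ * τ) * x * (σ * τ * τ)⁻¹)
      = (2 * (p : ℤ)) • f ((σ * τ) * x * (σ * τ)⁻¹) := by
  have hτ := tau_mem h
  have hστ : σ * τ ∈ G0 ℓ := mul_mem hσ hτ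
  have h1 := hE _ (conj_mem hσ hx)
  rw [c5_step1 h hx a b hval (hk_hom h hf) hσ, c5_step1 h hx a b hval hf hσ,
    c5_step1 h hx a b hval hf hστ] at h1
  have h2 : τ * (σ * x * σ⁻¹) * τ⁻¹
      = ((τ * σ) * (σ * τ)⁻¹) * ((σ * τ) * x * (σ * τ)⁻¹) * ((τ * σ) * (σ * τ)⁻¹)⁻¹ := by group
  rw [h2, hf.conj (conj_mem hστ hx) (c5_comm_mem hσ hτ)] at h1
  set X := f (σ * x * σ⁻¹)
  set Y := f ((σ * τ) * x * (σ * τ)⁻¹)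
  set Z := f ((σ * τ * τ) * x * (σ * τ * τ)⁻¹)
  have h3 : a • (a • X + b • Y) + b • (a • Y + b • Z)
      = ((a : ℤ) ^ 2) • X + ((2 * (p : ℤ)) • Y + ((b : ℤ) ^ 2) • Z) := by
    have hp' : (p : ℤ) = a * b := by exact_mod_cast hab.symm
    rw [hp']
    simp only [← natCast_zsmul]
    module
  have h4 : (4 * p) • Y = (2 * (p : ℤ)) • Y + (2 * (p : ℤ)) • Y := by
    simp only [← natCast_zsmul]
    push_cast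
    module
  rw [h3, h4] at h1
  have h5 : ((a : ℤ) ^ 2) • X + ((b : ℤ) ^ 2) • Z + (2 * (p : ℤ)) • Y
      = (2 * (p : ℤ)) • Y + (2 * (p : ℤ)) • Y := by
    rw [← h1]; abel
  exact add_right_cancel h5

/-- periodicity -/
theorem c5_per (h : Setup ℓ p τ) (hl2 : ℓ ≠ 2) (m : ℕ) (hm : (ℓ : ℤ) ∣ (p : ℤ) ^ m + 1)
    {x : SL(2, ℤ)} (hx : x ∈ G1 ℓ) (hf : HomOn ℓ f) {σ : SL(2, ℤ)} (hσ : σ ∈ G0 ℓ) :
    f ((σ * τ ^ (m * ℓ)) * x * (σ * τ ^ (m * ℓ))⁻¹) = f (σ * x * σ⁻¹) := by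
  have hκ : -(τ ^ (m * ℓ)) ∈ G1 ℓ := by
    obtain ⟨h1, h2⟩ := c5_pow_mod h (m * ℓ)
    have h3 : (ℓ : ℤ) ∣ (p : ℤ) ^ (m * ℓ) + 1 := by
      have h4 : (p : ℤ) ^ m ≡ -1 [ZMOD ℓ] := by
        apply Int.ModEq.symm
        rw [Int.modEq_iff_dvd]
        have : (p : ℤ) ^ m - -1 = (p : ℤ) ^ m + 1 := by ring
        rw [this]; exact hm
      have h5 : ((p : ℤ) ^ m) ^ ℓ ≡ (-1) ^ ℓ [ZMOD ℓ] := h4.pow ℓ
      rw [(h.hl.odd_of_ne_two hl2).neg_one_pow, ← pow_mul] at h5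
      have h6 := (Int.modEq_iff_dvd.mp h5.symm)
      have : (p : ℤ) ^ (m * ℓ) - -1 = (p : ℤ) ^ (m * ℓ) + 1 := by ring
      rwa [this] at h6
    refine ⟨?_, ?_⟩
    · rw [Matrix.SpecialLinearGroup.coe_neg, Matrix.neg_apply]
      obtain ⟨a, ha⟩ := h1
      obtain ⟨b, hb⟩ := h3
      exact ⟨-a - b, by linear_combination -ha - hb⟩
    · rw [Matrix.SpecialLinearGroup.coe_neg, Matrix.neg_apply]
      exact (dvd_neg.mpr h2)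
  have h1 : (σ * τ ^ (m * ℓ)) * x * (σ * τ ^ (m * ℓ))⁻¹
      = (σ * (-(τ ^ (m * ℓ))) * σ⁻¹) * (σ * x * σ⁻¹) * (σ * (-(τ ^ (m * ℓ))) * σ⁻¹)⁻¹ := by
    have h2 : (σ * (-(τ ^ (m * ℓ))) * σ⁻¹) * (σ * x * σ⁻¹) * (σ * (-(τ ^ (m * ℓ))) * σ⁻¹)⁻¹
        = σ * ((-(τ ^ (m * ℓ))) * x * (-(τ ^ (m * ℓ)))⁻¹) * σ⁻¹ := by group
    rw [h2, c5_neg_conj]
    group
  rw [h1]
  exact hf.conj (conj_mem hσ hx) (conj_mem hσ hκ)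

end

theorem vanish {ℓ p : ℕ} {τ : SL(2, ℤ)} (h : Setup ℓ p τ) (hl2 : ℓ ≠ 2) (m : ℕ) (hm : (ℓ : ℤ) ∣ (p : ℤ) ^ m + 1)
    {V : Type} [AddCommGroup V] (hV : ∀ v : V, ℓ • v = 0) {f : SL(2, ℤ) → V} (hf : HomOn ℓ f)
    (hE : ∀ γ ∈ G1 ℓ, hk τ p (hk τ p f) γ = (4 * p) • f (τ * γ * τ⁻¹)) {σ : SL(2, ℤ)} (hσ : σ ∈ G0 ℓ) :
    f (σ * ModularGroup.T * σ⁻¹) = 0 ∧ f (σ * lowV ℓ * σ⁻¹) = 0 := by
  have hτ := tau_mem h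
  have hmem : ∀ n : ℕ, σ * τ ^ n ∈ G0 ℓ := fun n => mul_mem hσ (pow_mem hτ n)
  have hpow : ∀ n : ℕ, σ * τ ^ (n + 1) = σ * τ ^ n * τ := fun n => by
    rw [pow_succ, mul_assoc]
  have hpow2 : ∀ n : ℕ, σ * τ ^ (n + 2) = σ * τ ^ n * τ * τ := fun n => by
    rw [pow_succ, pow_succ]; group
  refine ⟨?_, ?_⟩
  · have hval : ∀ f : SL(2, ℤ) → V, HomOn ℓ f →
        hk τ p f ModularGroup.T = p • f ModularGroup.T + 1 • f (τ * ModularGroup.T * τ⁻¹) := by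
      intro f hf
      rw [hk_T h hf, one_smul]
    have key := recur h.hl hl2 hV (p : ℤ) m hm
      (fun n => f ((σ * τ ^ n) * ModularGroup.T * (σ * τ ^ n)⁻¹)) ?_ ?_
    · simpa using key
    · intro n
      have h1 := c5_step2 h T_mem p 1 (by ring) hval hf hE (hmem n)
      change f ((σ * τ ^ (n + 2)) * ModularGroup.T * (σ * τ ^ (n + 2))⁻¹)
        = (2 * (p : ℤ)) • f ((σ * τ ^ (n + 1)) * ModularGroup.T * (σ * τ ^ (n + 1))⁻¹)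
          - ((p : ℤ) ^ 2) • f ((σ * τ ^ n) * ModularGroup.T * (σ * τ ^ n)⁻¹)
      rw [hpow n, hpow2 n, ← h1, Nat.cast_one, one_pow, one_smul]
      abel
    · change f ((σ * τ ^ (m * ℓ)) * ModularGroup.T * (σ * τ ^ (m * ℓ))⁻¹)
        = f ((σ * τ ^ 0) * ModularGroup.T * (σ * τ ^ 0)⁻¹)
      rw [c5_per h hl2 m hm T_mem hf hσ, pow_zero, mul_one]
  · have hval : ∀ f : SL(2, ℤ) → V, HomOn ℓ f →
        hk τ p f (lowV ℓ) = 1 • f (lowV ℓ) + p • f (τ * lowV ℓ * τ⁻¹) := by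
      intro f hf
      rw [hk_V h hV hf, one_smul]
    obtain ⟨p', y, hp'⟩ := h.cop
    -- `p' * p + y * ℓ = 1`
    have hpp : (ℓ : ℤ) ∣ p' * p - 1 := ⟨-y, by linear_combination hp'⟩
    have hm' : (ℓ : ℤ) ∣ p' ^ m + 1 := by
      have h1 : p' * p ≡ 1 [ZMOD ℓ] := (Int.modEq_iff_dvd.mpr (by
        have : (1 : ℤ) - p' * p = -(p' * p - 1) := by ring
        rw [this]; exact dvd_neg.mpr hpp))
      have h2 : p' ^ m * (p : ℤ) ^ m ≡ 1 [ZMOD ℓ] := by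
        have := h1.pow m
        rwa [mul_pow, one_pow] at this
      obtain ⟨a, ha⟩ := hm
      obtain ⟨b, hb⟩ := Int.modEq_iff_dvd.mp h2
      -- `1 - p'^m p^m = ℓ b`, `p^m + 1 = ℓ a`
      exact ⟨p' ^ m * a + b, by linear_combination p' ^ m * ha + hb⟩
    have key := recur h.hl hl2 hV p' m hm'
      (fun n => f ((σ * τ ^ n) * lowV ℓ * (σ * τ ^ n)⁻¹)) ?_ ?_
    · simpa using key
    · intro n
      have h1 := c5_step2 h lowV_mem 1 p (by ring) hval hf hE (hmem n)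
      change f ((σ * τ ^ (n + 2)) * lowV ℓ * (σ * τ ^ (n + 2))⁻¹)
        = (2 * p') • f ((σ * τ ^ (n + 1)) * lowV ℓ * (σ * τ ^ (n + 1))⁻¹)
          - (p' ^ 2) • f ((σ * τ ^ n) * lowV ℓ * (σ * τ ^ n)⁻¹)
      rw [hpow n, hpow2 n]
      set X := f ((σ * τ ^ n) * lowV ℓ * (σ * τ ^ n)⁻¹)
      set Y := f ((σ * τ ^ n * τ) * lowV ℓ * (σ * τ ^ n * τ)⁻¹)
      set Z := f ((σ * τ ^ n * τ * τ) * lowV ℓ * (σ * τ ^ n * τ * τ)⁻¹)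
      rw [Nat.cast_one, one_pow, one_smul] at h1
      have h2 : (p' ^ 2) • X + (p' ^ 2 * (p : ℤ) ^ 2) • Z = (p' ^ 2 * (2 * (p : ℤ))) • Y := by
        rw [mul_smul (p' ^ 2) ((p : ℤ) ^ 2) Z, mul_smul (p' ^ 2) (2 * (p : ℤ)) Y, ← smul_add, h1]
      have h3 : (p' ^ 2 * (p : ℤ) ^ 2) • Z = Z := by
        have : (p' ^ 2 * (p : ℤ) ^ 2) • Z = (1 : ℤ) • Z := c5_zsmul_congr hV (by
          obtain ⟨a, ha⟩ := hpp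
          exact ⟨a * (p' * p + 1), by linear_combination (p' * p + 1) * ha⟩) Z
        rw [this, one_smul]
      have h4 : (p' ^ 2 * (2 * (p : ℤ))) • Y = (2 * p') • Y := c5_zsmul_congr hV (by
        obtain ⟨a, ha⟩ := hpp
        exact ⟨2 * p' * a, by linear_combination (2 * p') * ha⟩) Y
      rw [h3, h4] at h2
      rw [← h2]
      abel
    · change f ((σ * τ ^ (m * ℓ)) * lowV ℓ * (σ * τ ^ (m * ℓ))⁻¹)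
        = f ((σ * τ ^ 0) * lowV ℓ * (σ * τ ^ 0)⁻¹)
      rw [c5_per h hl2 m hm lowV_mem hf hσ, pow_zero, mul_one]

end KS44
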