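import Pool.Agent.LibKS44.B0

/-!
# [KS D1] matrix congruences in the monoid `D1 ℓ`

Let `ℓ` be a prime. `g, h ∈ D1 ℓ` means: integral matrix, determinant prime to `ℓ`, `≡ (1, *; 0, *)` modulo `ℓ`; then
`det g ≡ g₁₁` modulo `ℓ`.

(a) `pow_cong`: `h ∈ D1 ℓ`, `h₁₁ ≡ 1`: `h ^ (ℓ ^ r) ≡ 1` modulo `ℓ ^ r`. PROOF: show `h ^ (ℓ ^ k) ≡ 1` modulo `ℓ ^ k` for `k ≥ 1` by
induction. `k = 1`: in `Matrix (Fin 2) (Fin 2) (ZMod ℓ)`: `N = h̄ - 1` has `N ^ 2 = 0`, so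
`h̄ ^ ℓ - 1 = (h̄ - 1) ^ ℓ = 0` (`sub_pow_char_of_commute`, or `Commute.add_pow`), `ℓ ≥ 2`. Step: `X = h ^ (ℓ ^ k)`,
`X ^ ℓ - 1 = (∑ i in range ℓ, X ^ i) * (X - 1)` (`geom_sum_mul`), every entry of the sum is `≡ ℓ` or `0` modulo `ℓ ^ k` (`X ^ i ≡ 1`), hence divisible
by `ℓ`, and the entries of `X - 1` are divisible by `ℓ ^ k`. The case `r = 0` is trivial.
(b) `norm_cong`: for `g, h ∈ D1 ℓ`, `h₁₁ ≡ 1` there is `h' ∈ D1 ℓ`, `h'₁₁ ≡ 1`, with `h g ≡ g h'` modulo `ℓ ^ r`.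
PROOF: `d'` with `d' * det g ≡ 1` modulo `ℓ ^ (r + 1)` (`IsCoprime.pow_right`), `h' = d' • (adj g * h * g)`. Then `g h' = (d' det g) • (h g)`.
`det h' = d'² (det g)² det h` is prime to `ℓ`. Modulo `ℓ`: `g ≡ (1, x; 0, D)`, `adj g ≡ (D, -x; 0, 1)`, `h ≡ (1, y; 0, 1)`:
`adj g * h * g ≡ (D, *; 0, D)`, times `d' ≡ 1/D`: `h' ≡ (1, *; 0, 1)`.
(c) `quot_cong`: for `g, h ∈ D1 ℓ` with `g₁₁ ≡ h₁₁` modulo `ℓ` there is `k ∈ D1 ℓ`, `k₁₁ ≡ 1`, with `h k ≡ g` modulo `ℓ ^ r`.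
PROOF: `d' * det h ≡ 1` modulo `ℓ ^ (r + 1)`, `k = d' • (adj h * g)`, `h k = (d' det h) • g`; modulo `ℓ`
`adj h * g ≡ (D, -x; 0, 1) (1, y; 0, D) = (D, *; 0, D)`. QED.
-/

set_option autoImplicit false

open Matrix
open scoped MatrixGroups

namespace KS44

theorem d1_pow (N N2 : Mat) (q : ℤ) (hN : N * N = q • N2) (n : ℕ) :
    ∃ B : Mat, (1 + N) ^ n = 1 + (n : ℤ) • N + q • B := by
  induction n with
  | zero => exact ⟨0, by simp⟩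
  | succ n ih =>
    obtain ⟨B, hB⟩ := ih
    refine ⟨(n : ℤ) • N2 + B * (1 + N), ?_⟩
    rw [pow_succ, hB]
    have h1 : (1 + (n : ℤ) • N + q • B) * (1 + N) =
        1 + N + (n : ℤ) • N + (n : ℤ) • (N * N) + q • (B * (1 + N)) := by
      simp only [add_mul, mul_add, one_mul, mul_one, smul_mul_assoc, smul_add]
      abel
    rw [h1, hN, smul_comm (n : ℤ) q N2]
    push_cast
    module

theorem d1_pow2 {ℓ : ℕ} {h : Mat} (hh : h ∈ D1 ℓ) (h1 : (ℓ : ℤ) ∣ h 1 1 - 1) (k : ℕ) :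
    ∃ C : Mat, h ^ (ℓ ^ (k + 1)) = 1 + ((ℓ : ℤ) ^ (k + 1)) • C := by
  induction k with
  | zero =>
    obtain ⟨_, ⟨x, hx⟩, ⟨y, hy⟩⟩ := hh
    obtain ⟨w, hw⟩ := h1
    have hN : (h - 1) * (h - 1) = (ℓ : ℤ) •
        !![ℓ * x * x + h 0 1 * y, x * h 0 1 + h 0 1 * w; ℓ * y * x + ℓ * w * y,
          y * h 0 1 + ℓ * w * w] := by
      have hx' : h 0 0 = 1 + ℓ * x := by linear_combination hx
      have hw' : h 1 1 = 1 + ℓ * w := by linear_combination hw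
      ext i j
      fin_cases i <;> fin_cases j <;>
        simp [Matrix.mul_apply, Fin.sum_univ_two, hx', hw', hy] <;> ring
    obtain ⟨B, hB⟩ := d1_pow (h - 1) _ _ hN ℓ
    refine ⟨(h - 1) + B, ?_⟩
    rw [zero_add, pow_one, pow_one, smul_add, ← add_assoc, ← hB]
    congr 1
    abel
  | succ k ih =>
    obtain ⟨C, hC⟩ := ih
    have hN : (((ℓ : ℤ) ^ (k + 1)) • C) * (((ℓ : ℤ) ^ (k + 1)) • C) =
        ((ℓ : ℤ) ^ (k + 2)) • (((ℓ : ℤ) ^ k) • (C * C)) := by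
      rw [smul_mul_assoc, mul_smul_comm, smul_smul, smul_smul]
      congr 1
      ring
    obtain ⟨B, hB⟩ := d1_pow _ _ _ hN ℓ
    refine ⟨C + B, ?_⟩
    rw [pow_succ ℓ (k + 1), pow_mul, hC, hB, smul_smul, ← pow_succ', smul_add, ← add_assoc]

theorem d1_adj (g : Mat) : g.adjugate 0 0 = g 1 1 ∧ g.adjugate 0 1 = -g 0 1 ∧
    g.adjugate 1 0 = -g 1 0 ∧ g.adjugate 1 1 = g 0 0 := by
  rw [Matrix.adjugate_fin_two]
  exact ⟨rfl, rfl, rfl, rfl⟩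

theorem d1_det_adj (g : Mat) : g.adjugate.det = g.det := by
  rw [Matrix.det_adjugate, Fintype.card_fin]
  simp

theorem pow_cong {ℓ : ℕ} (hl : ℓ.Prime) (r : ℕ) {h : Mat} (hh : h ∈ D1 ℓ) (h1 : (ℓ : ℤ) ∣ h 1 1 - 1) (i j : Fin 2) :
    (ℓ : ℤ) ^ r ∣ (h ^ (ℓ ^ r)) i j - (1 : Mat) i j := by
  rcases Nat.eq_zero_or_pos r with hr | hr
  · rw [hr, pow_zero]
    exact one_dvd _
  · obtain ⟨k, rfl⟩ : ∃ k, r = k + 1 := ⟨r - 1, by omega⟩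
    obtain ⟨C, hC⟩ := d1_pow2 hh h1 k
    rw [hC]
    refine ⟨C i j, ?_⟩
    rw [Matrix.add_apply, Matrix.smul_apply, smul_eq_mul]
    ring

theorem norm_cong {ℓ : ℕ} (hl : ℓ.Prime) (r : ℕ) {g h : Mat} (hg : g ∈ D1 ℓ) (hh : h ∈ D1 ℓ)
    (h1 : (ℓ : ℤ) ∣ h 1 1 - 1) :
    ∃ h' ∈ D1 ℓ, (ℓ : ℤ) ∣ h' 1 1 - 1 ∧ ∀ i j, (ℓ : ℤ) ^ r ∣ (h * g) i j - (g * h') i j := by
  obtain ⟨hgc, ⟨x, hx⟩, ⟨y, hy⟩⟩ := hg
  obtain ⟨hhc, ⟨z, hz⟩, ⟨w, hw⟩⟩ := hh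
  obtain ⟨v, hv⟩ := h1
  obtain ⟨a, b, hab⟩ := (IsCoprime.pow_right (n := r + 1) hgc)
  have hx' : g 0 0 = 1 + ℓ * x := by linear_combination hx
  have hz' : h 0 0 = 1 + ℓ * z := by linear_combination hz
  have hv' : h 1 1 = 1 + ℓ * v := by linear_combination hv
  have hac : IsCoprime a (ℓ : ℤ) := ⟨g.det, b * ℓ ^ r, by rw [← hab]; ring⟩
  have hab' : a * (g 0 0 * g 1 1 - g 0 1 * g 1 0) + b * ℓ ^ (r + 1) = 1 := by
    rw [← Matrix.det_fin_two]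
    exact hab
  have hA := d1_adj g
  obtain ⟨P, hP⟩ : ∃ P : Mat, P = g.adjugate * h * g := ⟨_, rfl⟩
  have hP00 : P 0 0 = (g 1 1 * h 0 0 - g 0 1 * h 1 0) * g 0 0 +
      (g 1 1 * h 0 1 - g 0 1 * h 1 1) * g 1 0 := by
    rw [hP, Matrix.mul_apply, Fin.sum_univ_two, Matrix.mul_apply, Matrix.mul_apply,
      Fin.sum_univ_two, Fin.sum_univ_two, hA.1, hA.2.1]
    ring
  have hP10 : P 1 0 = (-g 1 0 * h 0 0 + g 0 0 * h 1 0) * g 0 0 +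
      (-g 1 0 * h 0 1 + g 0 0 * h 1 1) * g 1 0 := by
    rw [hP, Matrix.mul_apply, Fin.sum_univ_two, Matrix.mul_apply, Matrix.mul_apply,
      Fin.sum_univ_two, Fin.sum_univ_two, hA.2.2.1, hA.2.2.2]
  have hP11 : P 1 1 = (-g 1 0 * h 0 0 + g 0 0 * h 1 0) * g 0 1 +
      (-g 1 0 * h 0 1 + g 0 0 * h 1 1) * g 1 1 := by
    rw [hP, Matrix.mul_apply, Fin.sum_univ_two, Matrix.mul_apply, Matrix.mul_apply,
      Fin.sum_univ_two, Fin.sum_univ_two, hA.2.2.1, hA.2.2.2]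
  refine ⟨a • P, ⟨?_, ?_, ?_⟩, ?_, ?_⟩
  · rw [Matrix.det_smul, hP, Matrix.det_mul, Matrix.det_mul, d1_det_adj]
    exact (hac.pow_left).mul_left ((hgc.mul_left hhc).mul_left hgc)
  · rw [Matrix.smul_apply, smul_eq_mul, hP00]
    refine ⟨a * (g 1 1 * z * g 0 0 - g 0 1 * w * g 0 0 +
      (g 1 1 * h 0 1 - g 0 1 * h 1 1) * y + g 0 1 * y) - b * ℓ ^ r, ?_⟩
    have e1 : (1 : ℤ) = a * (g 0 0 * g 1 1 - g 0 1 * g 1 0) + b * ℓ ^ (r + 1) := hab'.symm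
    calc a * ((g 1 1 * h 0 0 - g 0 1 * h 1 0) * g 0 0 +
          (g 1 1 * h 0 1 - g 0 1 * h 1 1) * g 1 0) - 1
        = a * ((g 1 1 * h 0 0 - g 0 1 * h 1 0) * g 0 0 +
          (g 1 1 * h 0 1 - g 0 1 * h 1 1) * g 1 0) -
          (a * (g 0 0 * g 1 1 - g 0 1 * g 1 0) + b * ℓ ^ (r + 1)) := by rw [hab']
      _ = _ := by
        rw [hz', hw, hy, pow_succ]
        ring
  · rw [Matrix.smul_apply, smul_eq_mul, hP10]
    refine ⟨a * ((-y * h 0 0 + g 0 0 * w) * g 0 0 + (-g 1 0 * h 0 1 + g 0 0 * h 1 1) * y), ?_⟩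
    rw [hw, hy]
    ring
  · rw [Matrix.smul_apply, smul_eq_mul, hP11]
    refine ⟨a * ((-y * h 0 0 + g 0 0 * w) * g 0 1 - y * h 0 1 * g 1 1 +
      g 0 0 * g 1 1 * v + g 0 1 * y) - b * ℓ ^ r, ?_⟩
    calc a * ((-g 1 0 * h 0 0 + g 0 0 * h 1 0) * g 0 1 +
          (-g 1 0 * h 0 1 + g 0 0 * h 1 1) * g 1 1) - 1
        = a * ((-g 1 0 * h 0 0 + g 0 0 * h 1 0) * g 0 1 +
          (-g 1 0 * h 0 1 + g 0 0 * h 1 1) * g 1 1) -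
          (a * (g 0 0 * g 1 1 - g 0 1 * g 1 0) + b * ℓ ^ (r + 1)) := by rw [hab']
      _ = _ := by
        rw [hv', hw, hy, pow_succ]
        ring
  · intro i j
    have e2 : g * (a • P) = (a * g.det) • (h * g) := by
      rw [hP, mul_smul_comm, mul_assoc g.adjugate h g, ← mul_assoc g g.adjugate,
        Matrix.mul_adjugate, smul_mul_assoc, one_mul, smul_smul]
    rw [e2, Matrix.smul_apply, smul_eq_mul]
    refine ⟨b * ℓ * (h * g) i j, ?_⟩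
    have e3 : a * g.det = 1 - b * ℓ ^ (r + 1) := by linear_combination hab
    rw [e3, pow_succ]
    ring

theorem quot_cong {ℓ : ℕ} (hl : ℓ.Prime) (r : ℕ) {g h : Mat} (hg : g ∈ D1 ℓ) (hh : h ∈ D1 ℓ)
    (h1 : (ℓ : ℤ) ∣ g 1 1 - h 1 1) :
    ∃ k ∈ D1 ℓ, (ℓ : ℤ) ∣ k 1 1 - 1 ∧ ∀ i j, (ℓ : ℤ) ^ r ∣ (h * k) i j - g i j := by
  obtain ⟨hgc, ⟨x, hx⟩, ⟨y, hy⟩⟩ := hg
  obtain ⟨hhc, ⟨z, hz⟩, ⟨w, hw⟩⟩ := hh
  obtain ⟨u, hu⟩ := h1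
  obtain ⟨a, b, hab⟩ := (IsCoprime.pow_right (n := r + 1) hhc)
  have hx' : g 0 0 = 1 + ℓ * x := by linear_combination hx
  have hz' : h 0 0 = 1 + ℓ * z := by linear_combination hz
  have hu' : g 1 1 = h 1 1 + ℓ * u := by linear_combination hu
  have hac : IsCoprime a (ℓ : ℤ) := ⟨h.det, b * ℓ ^ r, by rw [← hab]; ring⟩
  have hab' : a * (h 0 0 * h 1 1 - h 0 1 * h 1 0) + b * ℓ ^ (r + 1) = 1 := by
    rw [← Matrix.det_fin_two]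
    exact hab
  have hA := d1_adj h
  obtain ⟨P, hP⟩ : ∃ P : Mat, P = h.adjugate * g := ⟨_, rfl⟩
  have hP00 : P 0 0 = h 1 1 * g 0 0 - h 0 1 * g 1 0 := by
    rw [hP, Matrix.mul_apply, Fin.sum_univ_two, hA.1, hA.2.1]
    ring
  have hP10 : P 1 0 = -h 1 0 * g 0 0 + h 0 0 * g 1 0 := by
    rw [hP, Matrix.mul_apply, Fin.sum_univ_two, hA.2.2.1, hA.2.2.2]
  have hP11 : P 1 1 = -h 1 0 * g 0 1 + h 0 0 * g 1 1 := by
    rw [hP, Matrix.mul_apply, Fin.sum_univ_two, hA.2.2.1, hA.2.2.2]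
  refine ⟨a • P, ⟨?_, ?_, ?_⟩, ?_, ?_⟩
  · rw [Matrix.det_smul, hP, Matrix.det_mul, d1_det_adj]
    exact (hac.pow_left).mul_left (hhc.mul_left hgc)
  · rw [Matrix.smul_apply, smul_eq_mul, hP00]
    refine ⟨a * (h 1 1 * (x - z) - h 0 1 * y + h 0 1 * w) - b * ℓ ^ r, ?_⟩
    calc a * (h 1 1 * g 0 0 - h 0 1 * g 1 0) - 1
        = a * (h 1 1 * g 0 0 - h 0 1 * g 1 0) -
          (a * (h 0 0 * h 1 1 - h 0 1 * h 1 0) + b * ℓ ^ (r + 1)) := by rw [hab']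
      _ = _ := by
        rw [hx', hz', hw, hy, pow_succ]
        ring
  · rw [Matrix.smul_apply, smul_eq_mul, hP10]
    refine ⟨a * (-w * g 0 0 + h 0 0 * y), ?_⟩
    rw [hw, hy]
    ring
  · rw [Matrix.smul_apply, smul_eq_mul, hP11]
    refine ⟨a * (-w * g 0 1 + (1 + ℓ * z) * u + h 0 1 * w) - b * ℓ ^ r, ?_⟩
    calc a * (-h 1 0 * g 0 1 + h 0 0 * g 1 1) - 1
        = a * (-h 1 0 * g 0 1 + h 0 0 * g 1 1) -
          (a * (h 0 0 * h 1 1 - h 0 1 * h 1 0) + b * ℓ ^ (r + 1)) := by rw [hab']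
      _ = _ := by
        rw [hu', hz', hw, pow_succ]
        ring
  · intro i j
    have e2 : h * (a • P) = (a * h.det) • g := by
      rw [hP, mul_smul_comm, ← mul_assoc h h.adjugate, Matrix.mul_adjugate, smul_mul_assoc,
        one_mul, smul_smul]
    rw [e2, Matrix.smul_apply, smul_eq_mul]
    refine ⟨-(b * ℓ * g i j), ?_⟩
    have e3 : a * h.det = 1 - b * ℓ ^ (r + 1) := by linear_combination hab
    rw [e3, pow_succ]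
    ring

end KS44
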