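import Pool.Agent.LibKS44.D1

/-!
# [KS D2] a nonzero submodule on which the determinant acts

`M` finite nonzero `R1 ℓ`-module (`R1 ℓ = MonoidAlgebra (ZMod ℓ) (D1 ℓ)`, so `ℓ • m = 0`), `CongMod ℓ r M`. Put
`V = {v : ∀ h ∈ D1 ℓ, h₁₁ ≡ 1 → el h • v = v}`.
(1) `V ≠ 0`. Let `U` be the subgroup of `(Module.End ℤ M)ˣ` of the `x` with `∃ h ∈ D1 ℓ, ℓ ∣ h₁₁ - 1 ∧ ∀ m, x m = el h • m`
(closed under products: `el` is multiplicative, the entry `(1,1)` of a product is `≡ 1`; closed under inverses: `el h ^ (ℓ ^ r)`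
acts as `el 1 = 1` by `pow_cong` and `CongMod`, so `x⁻¹ = x ^ (ℓ ^ r - 1)` comes from `h ^ (ℓ ^ r - 1)`; every such `el h` is a unit
of `Module.End ℤ M` for the same reason). Every `x ∈ U` has `x ^ (ℓ ^ r) = 1`: `IsPGroup ℓ U`. `ℓ ∣ Nat.card M` (`M` is a nonzero
finite `ZMod ℓ`-vector space, or: a nonzero element has additive order `ℓ`). By
`IsPGroup.exists_fixed_point_of_prime_dvd_card_of_fixed_point` (fixed point `0`) there is a nonzero fixed vector; it is in `V`.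
(2) `V` is a submodule: for `g ∈ D1 ℓ`, `h₁₁ ≡ 1`, `v ∈ V`: `el h • el g • v = el (h g) • v = el (g h') • v = el g • el h' • v = el g • v`
(`norm_cong`, `CongMod`). For a general element of the monoid ring: `MonoidAlgebra.induction_on` (scalars in `ZMod ℓ` are
natural numbers).
(3) `DetMod ℓ V`: `g₁₁ ≡ h₁₁`: `el g • v = el (h k) • v = el h • el k • v = el h • v` (`quot_cong`, `CongMod`). QED.
-/

set_option autoImplicit false

open Matrix
open scoped MatrixGroups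

namespace KS44

theorem d2_mul {ℓ : ℕ} {g h : D1 ℓ} (hg : (ℓ : ℤ) ∣ g.1 1 1 - 1) (hh : (ℓ : ℤ) ∣ h.1 1 1 - 1) :
    (ℓ : ℤ) ∣ (g * h).1 1 1 - 1 := by
  obtain ⟨x, hx⟩ := hg
  obtain ⟨y, hy⟩ := hh
  obtain ⟨z, hz⟩ := g.2.2.2
  have e1 : g.1 1 1 = 1 + ℓ * x := by linear_combination hx
  have e2 : h.1 1 1 = 1 + ℓ * y := by linear_combination hy
  change (ℓ : ℤ) ∣ (g.1 * h.1) 1 1 - 1
  rw [Matrix.mul_apply, Fin.sum_univ_two, hz, e1, e2]
  exact ⟨z * h.1 0 1 + x + y + ℓ * x * y, by ring⟩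

theorem d2_pow {ℓ : ℕ} {h : D1 ℓ} (hh : (ℓ : ℤ) ∣ h.1 1 1 - 1) (n : ℕ) :
    (ℓ : ℤ) ∣ (h ^ n).1 1 1 - 1 := by
  induction n with
  | zero => simp
  | succ n ih =>
    rw [pow_succ]
    exact d2_mul ih hh

theorem fix {ℓ : ℕ} (hl : ℓ.Prime) (r : ℕ) (M : Type) [AddCommGroup M] [Module (R1 ℓ) M] [Finite M]
    [Nontrivial M] (hC : CongMod ℓ r M) : ∃ V : Submodule (R1 ℓ) M, V ≠ ⊥ ∧ DetMod ℓ V := by
  classical
  have := Fact.mk hl
  have : NeZero ℓ := ⟨hl.ne_zero⟩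
  have hpos : 0 < ℓ ^ r := pow_pos hl.pos r
  -- `ℓ` kills `M`
  have hkill : ∀ m : M, ℓ • m = 0 := by
    intro m
    rw [← Nat.cast_smul_eq_nsmul (R1 ℓ) ℓ m]
    have h0 : ((ℓ : ℕ) : R1 ℓ) = 0 := by
      rw [← map_natCast (algebraMap (ZMod ℓ) (R1 ℓ)) ℓ, ZMod.natCast_self, map_zero]
    rw [h0, zero_smul]
  have hone : ∀ m : M, el ℓ 1 • m = m := fun m => by rw [map_one, one_smul]
  have hpow : ∀ h : D1 ℓ, (ℓ : ℤ) ∣ h.1 1 1 - 1 → ∀ m : M, el ℓ (h ^ ℓ ^ r) • m = m := by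
    intro h hh m
    rw [hC (h ^ ℓ ^ r) 1 (fun i j => ?_) m, hone]
    exact pow_cong hl r h.2 hh i j
  -- the group
  let U : Subgroup (Equiv.Perm M) :=
    { carrier := {x | ∃ h : D1 ℓ, (ℓ : ℤ) ∣ h.1 1 1 - 1 ∧ ∀ m, x m = el ℓ h • m}
      one_mem' := ⟨1, by simp, fun m => by rw [hone]; rfl⟩
      mul_mem' := by
        rintro x y ⟨g, hg, hx⟩ ⟨h, hh, hy⟩
        refine ⟨g * h, d2_mul hg hh, fun m => ?_⟩
        rw [Equiv.Perm.mul_apply, hx, hy, map_mul, mul_smul]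
      inv_mem' := by
        rintro x ⟨h, hh, hx⟩
        refine ⟨h ^ (ℓ ^ r - 1), d2_pow hh _, fun m => ?_⟩
        rw [Equiv.Perm.inv_eq_iff_eq, hx, ← mul_smul, ← map_mul, ← pow_succ',
          Nat.sub_add_cancel hpos, hpow h hh] }
  have hUpow : ∀ (x : Equiv.Perm M) (h : D1 ℓ), (∀ m, x m = el ℓ h • m) →
      ∀ (n : ℕ) (m : M), (x ^ n) m = el ℓ (h ^ n) • m := by
    intro x h hx n
    induction n with
    | zero => intro m; rw [pow_zero, pow_zero, hone]; rfl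
    | succ n ih =>
      intro m
      rw [pow_succ', pow_succ', Equiv.Perm.mul_apply, hx, ih, map_mul, mul_smul]
  have hP : IsPGroup ℓ U := by
    rintro ⟨x, h, hh, hx⟩
    refine ⟨r, Subtype.ext (Equiv.ext fun m => ?_)⟩
    change (x ^ ℓ ^ r) m = m
    rw [hUpow x h hx, hpow h hh]
  have hcard : ℓ ∣ Nat.card M := by
    obtain ⟨m, hm⟩ := exists_ne (0 : M)
    have h1 : addOrderOf m = ℓ := addOrderOf_eq_prime (hkill m) hm
    rw [← h1]
    exact addOrderOf_dvd_natCard m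
  have h0 : (0 : M) ∈ MulAction.fixedPoints U M := by
    rintro ⟨x, h, hh, hx⟩
    change x 0 = 0
    rw [hx, smul_zero]
  obtain ⟨b, hb, hb0⟩ := hP.exists_fixed_point_of_prime_dvd_card_of_fixed_point M hcard h0
  have hfix : ∀ h : D1 ℓ, (ℓ : ℤ) ∣ h.1 1 1 - 1 → el ℓ h • b = b := by
    intro h hh
    let x : Equiv.Perm M :=
      { toFun := fun m => el ℓ h • m
        invFun := fun m => el ℓ (h ^ (ℓ ^ r - 1)) • m
        left_inv := fun m => by
          change el ℓ (h ^ (ℓ ^ r - 1)) • el ℓ h • m = m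
          rw [← mul_smul, ← map_mul, ← pow_succ, Nat.sub_add_cancel hpos, hpow h hh]
        right_inv := fun m => by
          change el ℓ h • el ℓ (h ^ (ℓ ^ r - 1)) • m = m
          rw [← mul_smul, ← map_mul, ← pow_succ', Nat.sub_add_cancel hpos, hpow h hh] }
    exact hb ⟨x, h, hh, fun m => rfl⟩
  -- the submodule
  let V₀ : AddSubgroup M :=
    { carrier := {v | ∀ h : D1 ℓ, (ℓ : ℤ) ∣ h.1 1 1 - 1 → el ℓ h • v = v}
      zero_mem' := fun h _ => smul_zero _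
      add_mem' := fun {x y} hx hy h hh => by rw [smul_add, hx h hh, hy h hh]
      neg_mem' := fun {x} hx h hh => by rw [smul_neg, hx h hh] }
  have hVel : ∀ (g : D1 ℓ), ∀ v ∈ V₀, el ℓ g • v ∈ V₀ := by
    intro g v hv h hh
    obtain ⟨h', hh', h1', hcong⟩ := norm_cong hl r g.2 h.2 hh
    rw [← mul_smul, ← map_mul, hC (h * g) (g * ⟨h', hh'⟩) hcong v, map_mul, mul_smul,
      hv ⟨h', hh'⟩ h1']
  let V : Submodule (R1 ℓ) M :=
    { carrier := V₀
      zero_mem' := V₀.zero_mem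
      add_mem' := fun {x y} hx hy => V₀.add_mem hx hy
      smul_mem' := by
        intro c v hv
        induction c using MonoidAlgebra.induction_on with
        | of g => exact hVel g v hv
        | add x y hx hy =>
          rw [add_smul]
          exact V₀.add_mem hx hy
        | smul a x hx =>
          have e : a • x = a.val • x := by
            conv_lhs => rw [← ZMod.natCast_zmod_val a]
            rw [Nat.cast_smul_eq_nsmul]
          rw [e, smul_assoc]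
          exact V₀.nsmul_mem hx _ }
  refine ⟨V, ?_, ?_⟩
  · intro hbot
    have : b ∈ V := fun h hh => hfix h hh
    rw [hbot, Submodule.mem_bot] at this
    exact hb0 this.symm
  · rintro g h hgh ⟨v, hv⟩
    apply Subtype.ext
    change el ℓ g • v = el ℓ h • v
    obtain ⟨k, hk, hk1, hcong⟩ := quot_cong hl r g.2 h.2 hgh
    rw [← hC (h * ⟨k, hk⟩) g hcong v, map_mul, mul_smul]
    congr 1
    exact hv ⟨k, hk⟩ hk1

end KS44
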