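import Pool.Agent.LibKS44.E0

/-!
# [KS E5] `Γ₀(5) = ⋃ Nrm 5 * e ^ k`, `e = (2, -1; 5, -2)`, `e² = -1`

PROOF. Strong induction on `|c|`, `γ = (a, b; 5 c, d)`. `c = 0`: `a d = 1`, `γ = ± T ^ k`, and `-1 = e ^ 2`
(`- T ^ k = T ^ k e²`). `c ≠ 0`: multiply on the left by a power of `T` so that `|a| ≤ 5 |c| / 2` (`a ↦ a + 5 j c`); `a ≠ 0`.
If `|a| < 2 |c|`: multiply on the left by `lowV (5 j)`: `c ↦ c + j a`, `|c'| ≤ |a| / 2 < |c|`: induction.
If `2 |c| ≤ |a| ≤ 5 |c| / 2`: when `a c > 0`: `γ' = e γ` has `c' = a - 2 c`, `|c'| = |a| - 2 |c| ≤ |c| / 2 < |c|`;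
when `a c < 0`: `γ' = e'' γ` with `e'' = (2, 1; -5, -2)` has `c' = -(a + 2 c)`, `|c'| = |a| - 2 |c| < |c|`; and
`e'' = (lowV 5)⁻¹ * e * T` (check). By induction `γ' = n' e ^ k`. Then `γ = e⁻¹ γ' = (e⁻¹ n' e) e⁻¹ e ^ k`,
resp. `γ = T⁻¹ e⁻¹ (lowV 5) n' e ^ k = T⁻¹ (e⁻¹ (lowV 5 * n') e) e⁻¹ e ^ k`, use `Nrm_conj` (`e ∈ Γ₀(5)`) and `e⁻¹ = e ^ 3`
(`e ^ 4 = 1`; reduce the exponent modulo `4`). QED. (For `x`, `y ≠ 0` there is `j` with `2 |x + j y| ≤ |y|`.)
-/

set_option autoImplicit false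

open Matrix
open scoped MatrixGroups

namespace KS44

/-- `(2, -1; 5, -2)` -/
def e5 : SL(2, ℤ) := ⟨!![2, -1; 5, -2], by simp [Matrix.det_fin_two_of]⟩

theorem e5_bal (x y : ℤ) (hy : y ≠ 0) : ∃ j : ℤ, 2 * |x + j * y| ≤ |y| := by
  have hpos : 0 < |y| := abs_pos.mpr hy
  have h1 := Int.emod_add_mul_ediv x |y|
  have h2 := Int.emod_nonneg x hpos.ne'
  have h3 := Int.emod_lt_of_pos x hpos
  obtain ⟨s, hs⟩ : ∃ s : ℤ, |y| = s * y := by
    rcases abs_choice y with h | h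
    · exact ⟨1, by rw [one_mul]; exact h⟩
    · exact ⟨-1, by rw [neg_one_mul]; exact h⟩
  by_cases h : 2 * (x % |y|) ≤ |y|
  · refine ⟨-(x / |y|) * s, ?_⟩
    have e : x + -(x / |y|) * s * y = x % |y| := by
      have : -(x / |y|) * s * y = -(x / |y|) * |y| := by rw [hs]; ring
      rw [this]
      linarith
    rw [e, abs_of_nonneg h2]
    exact h
  · refine ⟨-(x / |y|) * s - s, ?_⟩
    have e : x + (-(x / |y|) * s - s) * y = x % |y| - |y| := by
      have : (-(x / |y|) * s - s) * y = -(x / |y|) * |y| - |y| := by rw [hs]; ring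
      rw [this]
      linarith
    rw [e, abs_sub_comm, abs_of_nonneg (by linarith)]
    linarith

theorem e5_coe : (e5 : Mat) = !![2, -1; 5, -2] := rfl

theorem e5_sq : e5 ^ 2 = -1 := by
  apply Subtype.ext
  rw [Matrix.SpecialLinearGroup.coe_pow, Matrix.SpecialLinearGroup.coe_neg, e5_coe, pow_two]
  ext i j
  fin_cases i <;> fin_cases j <;> simp [Matrix.mul_apply, Fin.sum_univ_two]

theorem e5_mem : e5 ∈ G0 5 := ⟨1, rfl⟩

/-- the set of the products -/
def e5H (γ : SL(2, ℤ)) : Prop := ∃ n ∈ Nrm 5, ∃ k : ℤ, γ = n * e5 ^ k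

theorem e5H_left {x γ : SL(2, ℤ)} (hx : x ∈ Nrm 5) (h : e5H (x * γ)) : e5H γ := by
  obtain ⟨n, hn, k, hk⟩ := h
  refine ⟨x⁻¹ * n, mul_mem (inv_mem hx) hn, k, ?_⟩
  rw [mul_assoc, ← hk]
  group

theorem e5H_e {γ : SL(2, ℤ)} (h : e5H (e5 * γ)) : e5H γ := by
  obtain ⟨n, hn, k, hk⟩ := h
  refine ⟨e5⁻¹ * n * e5⁻¹⁻¹, Nrm_conj (inv_mem e5_mem) hn, k - 1, ?_⟩
  have : γ = e5⁻¹ * (n * e5 ^ k) := by rw [← hk]; group
  rw [this, _root_.zpow_sub_one]
  group

theorem e5_entry (x γ : SL(2, ℤ)) (i : Fin 2) :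
    ((x * γ : SL(2, ℤ)) : Mat) i 0 = (x : Mat) i 0 * (γ : Mat) 0 0 + (x : Mat) i 1 * (γ : Mat) 1 0 := by
  rw [Matrix.SpecialLinearGroup.coe_mul, Matrix.mul_apply, Fin.sum_univ_two]

theorem e5_main (N : ℕ) : ∀ γ : SL(2, ℤ), (∃ c : ℤ, (γ : Mat) 1 0 = 5 * c ∧ c.natAbs ≤ N) →
    e5H γ := by
  induction N using Nat.strong_induction_on with
  | _ N ih =>
  rintro γ ⟨c, hc, hN⟩
  have hdet : (γ : Mat) 0 0 * (γ : Mat) 1 1 - (γ : Mat) 0 1 * (γ : Mat) 1 0 = 1 := by
    have := Matrix.SpecialLinearGroup.det_coe γ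
    rwa [Matrix.det_fin_two] at this
  by_cases hc0 : c = 0
  · -- `γ = ± T ^ k`
    rw [hc0, mul_zero] at hc
    rw [hc, mul_zero, sub_zero] at hdet
    rcases Int.mul_eq_one_iff_eq_one_or_neg_one.mp hdet with ⟨h1, h2⟩ | ⟨h1, h2⟩
    · refine ⟨ModularGroup.T ^ ((γ : Mat) 0 1), T_zpow_mem 5 _, 0, ?_⟩
      rw [zpow_zero, mul_one]
      apply Subtype.ext
      rw [ModularGroup.coe_T_zpow]
      ext i j
      fin_cases i <;> fin_cases j <;> simp [h1, h2, hc]
    · refine ⟨ModularGroup.T ^ (-(γ : Mat) 0 1), T_zpow_mem 5 _, 2, ?_⟩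
      have e : e5 ^ (2 : ℤ) = -1 := by
        rw [← e5_sq]
        norm_cast
      rw [e, mul_neg, mul_one]
      apply Subtype.ext
      rw [Matrix.SpecialLinearGroup.coe_neg, ModularGroup.coe_T_zpow]
      ext i j
      fin_cases i <;> fin_cases j <;> simp [h1, h2, hc]
  · have hpos : 0 < |c| := abs_pos.mpr hc0
    obtain ⟨j, hj⟩ := e5_bal ((γ : Mat) 0 0) (5 * c) (by omega)
    -- multiply by `T ^ j`
    apply e5H_left (T_zpow_mem 5 j)
    set δ := ModularGroup.T ^ j * γ with hδ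
    have d0 : (δ : Mat) 0 0 = (γ : Mat) 0 0 + j * (5 * c) := by
      rw [hδ, e5_entry, ModularGroup.coe_T_zpow, hc]
      simp
    have d1 : (δ : Mat) 1 0 = 5 * c := by
      rw [hδ, e5_entry, ModularGroup.coe_T_zpow, hc]
      simp
    rw [← d0] at hj
    clear_value δ
    obtain ⟨a, ha⟩ : ∃ a, (δ : Mat) 0 0 = a := ⟨_, rfl⟩
    rw [ha] at hj
    have habs : |5 * c| = 5 * |c| := by rw [abs_mul]; norm_num
    rw [habs] at hj
    have ha0 : a ≠ 0 := by
      intro h0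
      have := Matrix.SpecialLinearGroup.det_coe δ
      rw [Matrix.det_fin_two, ha, h0, d1] at this
      have h5 : (5 : ℤ) ∣ 1 := ⟨-((δ : Mat) 0 1 * c), by linarith⟩
      omega
    have hfin : ∀ (x : SL(2, ℤ)) (c' : ℤ), ((x : Mat) 1 0 = 5 * c' ∨ (x : Mat) 1 0 = -(5 * c')) →
        |c'| < |c| → e5H x := by
      rintro x c' hx hlt
      rw [Int.abs_eq_natAbs, Int.abs_eq_natAbs] at hlt
      have hlt' : c'.natAbs < c.natAbs := by exact_mod_cast hlt
      rcases hx with hx | hx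
      · exact ih c'.natAbs (hlt'.trans_le hN) x ⟨c', hx, le_rfl⟩
      · exact ih c'.natAbs (hlt'.trans_le hN) x ⟨-c', by rw [hx]; ring, by rw [Int.natAbs_neg]⟩
    rcases lt_or_ge |a| (2 * |c|) with h | h
    · obtain ⟨i, hi⟩ := e5_bal c a ha0
      apply e5H_left (lowV_mul_mem 5 i)
      apply hfin _ (c + i * a) (Or.inl _) (by linarith)
      rw [e5_entry, d1, ha]
      simp [lowV]
      ring
    · rcases lt_or_gt_of_ne (mul_ne_zero ha0 hc0) with hac | hac
      · -- opposite signs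
        apply e5H_left (T_zpow_mem 5 1)
        apply e5H_e
        apply e5H_left (lowV_mul_mem 5 (-1))
        apply hfin _ (a + 2 * c) (Or.inr _) ?_
        · simp only [e5_entry, ModularGroup.coe_T_zpow, d1, ha, e5_coe]
          simp [lowV]
          ring
        · have e1 : |a + 2 * c| = |a| - 2 * |c| := by
            rcases lt_or_gt_of_ne ha0 with h1 | h1
            · have h2 : 0 < c := by nlinarith
              rw [abs_of_neg h1, abs_of_pos h2] at h ⊢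
              rw [abs_of_nonpos (by linarith)]
              ring
            · have h2 : c < 0 := by nlinarith
              rw [abs_of_pos h1, abs_of_neg h2] at h ⊢
              rw [abs_of_nonneg (by linarith)]
              ring
          rw [e1]
          linarith
      · apply e5H_e
        apply hfin _ (a - 2 * c) (Or.inl _) ?_
        · rw [e5_entry, d1, ha, e5_coe]
          simp
          ring
        · have e1 : |a - 2 * c| = |a| - 2 * |c| := by
            rcases lt_or_gt_of_ne ha0 with h1 | h1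
            · have h2 : c < 0 := by nlinarith
              rw [abs_of_neg h1, abs_of_neg h2] at h ⊢
              rw [abs_of_nonpos (by linarith)]
              ring
            · have h2 : 0 < c := by nlinarith
              rw [abs_of_pos h1, abs_of_pos h2] at h ⊢
              rw [abs_of_nonneg (by linarith)]
          rw [e1]
          linarith

theorem gen5 {γ : SL(2, ℤ)} (hγ : γ ∈ G0 5) : ∃ n ∈ Nrm 5, ∃ k : ℕ, k < 4 ∧ γ = n * e5 ^ k := by
  obtain ⟨c, hc⟩ := hγ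
  obtain ⟨n, hn, k, hk⟩ := e5_main c.natAbs γ ⟨c, by simpa using hc, le_rfl⟩
  refine ⟨n, hn, (k % 4).toNat, by omega, ?_⟩
  rw [hk]
  congr 1
  have h4 : e5 ^ (4 : ℤ) = 1 := by
    have : e5 ^ (4 : ℤ) = (e5 ^ 2) ^ 2 := by rw [← pow_mul]; norm_cast
    rw [this, e5_sq, neg_one_sq]
  rw [← zpow_natCast, Int.toNat_of_nonneg (by omega)]
  conv_lhs => rw [← Int.emod_add_mul_ediv k 4, _root_.zpow_add, _root_.zpow_mul, h4, _root_.one_zpow, mul_one]

end KS44
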