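import Pool.Agent.LibKS44.E0

/-!
# [KS E7] `Γ₀(7) = ⋃ ± Nrm 7 * e ^ k`, `e = (2, -1; 7, -3)`, `e³ = 1`

PROOF. Strong induction on `|c|`, `γ = (a, b; 7 c, d)`. `c = 0`: `a d = 1`, `γ = ± T ^ k`. `c ≠ 0`: multiply on the left
by a power of `T` so that `|a| ≤ 7 |c| / 2` (`a ↦ a + 7 j c`); `a ≠ 0`.
If `|a| < 2 |c|`: multiply on the left by `lowV (7 j)`: `c ↦ c + j a`, `|c'| ≤ |a| / 2 < |c|`: induction.
If `2 |c| ≤ |a| < 3 |c|`: when `a c > 0` use `g = - e⁻¹ = (3, -1; 7, -2)`: `γ' = g γ` has `c' = a - 2 c`, `|c'| < |c|`;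
when `a c < 0` use `g = - e''⁻¹ = (3, 1; -7, -2)`: `c' = -(a + 2 c)`.
If `3 |c| ≤ |a| ≤ 7 |c| / 2`: when `a c > 0` use `g = e`: `c' = a - 3 c`, `|c'| ≤ |c| / 2 < |c|`; when `a c < 0` use
`g = e'' = (2, 1; -7, -3)`: `c' = -(a + 3 c)`.
Here `e'' = (lowV 7)⁻¹ * e * T` (check). By induction `γ' = ± n' e ^ k`, and `γ = g⁻¹ γ'`: move `g⁻¹` through `n'` with
`Nrm_conj` (`e ∈ Γ₀(7)`), as in row E5; `e⁻¹ = e ^ 2`, reduce the exponent modulo `3`. QED.
(For `x`, `y ≠ 0` there is `j` with `2 |x + j y| ≤ |y|`.)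
-/

set_option autoImplicit false

open Matrix
open scoped MatrixGroups

namespace KS44

/-- `(2, -1; 7, -3)` -/
def e7 : SL(2, ℤ) := ⟨!![2, -1; 7, -3], by simp [Matrix.det_fin_two_of]⟩

theorem e7_bal (x y : ℤ) (hy : y ≠ 0) : ∃ j : ℤ, 2 * |x + j * y| ≤ |y| := by
  have hpos : 0 < |y| := abs_pos.mpr hy
  have h1 := Int.emod_add_mul_ediv x |y|
  have h2 := Int.emod_nonneg x hpos.ne'
  have h3 := Int.emod_lt_of_pos x hpos
  obtain ⟨s, hs⟩ : ∃ s : ℤ, |y| = s * y := by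
    rcases abs_choice y with h | h
    · exact ⟨1, by rw [one_mul]; exact h⟩
    · exact ⟨-1, by rw [neg_one_mul]; exact h⟩
  by_cases h : 2 * (x % |y|) ≤ |y|
  · refine ⟨-(x / |y|) * s, ?_⟩
    have e : x + -(x / |y|) * s * y = x % |y| := by
      have : -(x / |y|) * s * y = -(x / |y|) * |y| := by rw [hs]; ring
      rw [this]
      linarith
    rw [e, abs_of_nonneg h2]
    exact h
  · refine ⟨-(x / |y|) * s - s, ?_⟩
    have e : x + (-(x / |y|) * s - s) * y = x % |y| - |y| := by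
      have : (-(x / |y|) * s - s) * y = -(x / |y|) * |y| - |y| := by rw [hs]; ring
      rw [this]
      linarith
    rw [e, abs_sub_comm, abs_of_nonneg (by linarith)]
    linarith

theorem e7_coe : (e7 : Mat) = !![2, -1; 7, -3] := rfl

theorem e7_inv_coe : ((e7⁻¹ : SL(2, ℤ)) : Mat) = !![-3, 1; -7, 2] := by
  rw [Matrix.SpecialLinearGroup.coe_inv, Matrix.adjugate_fin_two, e7_coe]
  ext i j
  fin_cases i <;> fin_cases j <;> simp

theorem e7_cube : e7 ^ 3 = 1 := by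
  apply Subtype.ext
  rw [Matrix.SpecialLinearGroup.coe_pow, Matrix.SpecialLinearGroup.coe_one, e7_coe, pow_succ,
    pow_two]
  ext i j
  fin_cases i <;> fin_cases j <;> simp [Matrix.mul_apply, Fin.sum_univ_two]

theorem e7_mem : e7 ∈ G0 7 := ⟨1, rfl⟩

/-- the set of the products -/
def e7H (γ : SL(2, ℤ)) : Prop := ∃ n ∈ Nrm 7, ∃ k : ℤ, γ = n * e7 ^ k ∨ γ = -(n * e7 ^ k)

theorem e7H_left {x γ : SL(2, ℤ)} (hx : x ∈ Nrm 7) (h : e7H (x * γ)) : e7H γ := by
  obtain ⟨n, hn, k, hk⟩ := h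
  refine ⟨x⁻¹ * n, mul_mem (inv_mem hx) hn, k, ?_⟩
  have e : γ = x⁻¹ * (x * γ) := by group
  rcases hk with hk | hk
  · left
    rw [e, hk, mul_assoc]
  · right
    rw [e, hk, mul_neg, mul_assoc]

theorem e7H_e {γ : SL(2, ℤ)} (i : ℤ) (h : e7H (e7 ^ i * γ)) : e7H γ := by
  obtain ⟨n, hn, k, hk⟩ := h
  have hi : (e7 ^ i)⁻¹ ∈ G0 7 := inv_mem (Subgroup.zpow_mem _ e7_mem i)
  refine ⟨(e7 ^ i)⁻¹ * n * (e7 ^ i)⁻¹⁻¹, Nrm_conj hi hn, -i + k, ?_⟩
  have e : γ = (e7 ^ i)⁻¹ * (e7 ^ i * γ) := by group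
  have e2 : (e7 ^ i)⁻¹ * n * (e7 ^ i)⁻¹⁻¹ * e7 ^ (-i + k) = (e7 ^ i)⁻¹ * (n * e7 ^ k) := by
    rw [_root_.zpow_add]
    group
  rw [e2]
  rcases hk with hk | hk
  · left
    rw [← hk, ← e]
  · right
    rw [← mul_neg, ← hk, ← e]

theorem e7_entry (x γ : SL(2, ℤ)) (i : Fin 2) :
    ((x * γ : SL(2, ℤ)) : Mat) i 0 = (x : Mat) i 0 * (γ : Mat) 0 0 + (x : Mat) i 1 * (γ : Mat) 1 0 := by
  rw [Matrix.SpecialLinearGroup.coe_mul, Matrix.mul_apply, Fin.sum_univ_two]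

/-- opposite signs -/
theorem e7_abs_add {a c : ℤ} (m : ℤ) (hm : 0 < m) (ha : a ≠ 0) (hac : a * c < 0)
    (h : m * |c| ≤ |a|) : |a + m * c| = |a| - m * |c| := by
  rcases lt_or_gt_of_ne ha with h1 | h1
  · have h2 : 0 < c := by nlinarith
    rw [abs_of_neg h1, abs_of_pos h2] at h ⊢
    rw [abs_of_nonpos (by linarith)]
    ring
  · have h2 : c < 0 := by nlinarith
    rw [abs_of_pos h1, abs_of_neg h2] at h ⊢
    rw [abs_of_nonneg (by linarith)]
    ring

/-- equal signs -/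
theorem e7_abs_sub {a c : ℤ} (m : ℤ) (hm : 0 < m) (ha : a ≠ 0) (hac : 0 < a * c)
    (h : m * |c| ≤ |a|) : |a - m * c| = |a| - m * |c| := by
  have := e7_abs_add (c := -c) m hm ha (by linarith) (by rw [abs_neg]; exact h)
  rw [abs_neg] at this
  rw [← this]
  congr 1
  ring

theorem e7_main (N : ℕ) : ∀ γ : SL(2, ℤ), (∃ c : ℤ, (γ : Mat) 1 0 = 7 * c ∧ c.natAbs ≤ N) →
    e7H γ := by
  induction N using Nat.strong_induction_on with
  | _ N ih =>
  rintro γ ⟨c, hc, hN⟩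
  have hdet : (γ : Mat) 0 0 * (γ : Mat) 1 1 - (γ : Mat) 0 1 * (γ : Mat) 1 0 = 1 := by
    have := Matrix.SpecialLinearGroup.det_coe γ
    rwa [Matrix.det_fin_two] at this
  by_cases hc0 : c = 0
  · -- `γ = ± T ^ k`
    rw [hc0, mul_zero] at hc
    rw [hc, mul_zero, sub_zero] at hdet
    rcases Int.mul_eq_one_iff_eq_one_or_neg_one.mp hdet with ⟨h1, h2⟩ | ⟨h1, h2⟩
    · refine ⟨ModularGroup.T ^ ((γ : Mat) 0 1), T_zpow_mem 7 _, 0, Or.inl ?_⟩
      rw [zpow_zero, mul_one]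
      apply Subtype.ext
      rw [ModularGroup.coe_T_zpow]
      ext i j
      fin_cases i <;> fin_cases j <;> simp [h1, h2, hc]
    · refine ⟨ModularGroup.T ^ (-(γ : Mat) 0 1), T_zpow_mem 7 _, 0, Or.inr ?_⟩
      rw [zpow_zero, mul_one]
      apply Subtype.ext
      rw [Matrix.SpecialLinearGroup.coe_neg, ModularGroup.coe_T_zpow]
      ext i j
      fin_cases i <;> fin_cases j <;> simp [h1, h2, hc]
  · have hpos : 0 < |c| := abs_pos.mpr hc0
    obtain ⟨j, hj⟩ := e7_bal ((γ : Mat) 0 0) (7 * c) (by omega)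
    -- multiply by `T ^ j`
    apply e7H_left (T_zpow_mem 7 j)
    set δ := ModularGroup.T ^ j * γ with hδ
    have d0 : (δ : Mat) 0 0 = (γ : Mat) 0 0 + j * (7 * c) := by
      rw [hδ, e7_entry, ModularGroup.coe_T_zpow, hc]
      simp
    have d1 : (δ : Mat) 1 0 = 7 * c := by
      rw [hδ, e7_entry, ModularGroup.coe_T_zpow, hc]
      simp
    rw [← d0] at hj
    clear_value δ
    obtain ⟨a, ha⟩ : ∃ a, (δ : Mat) 0 0 = a := ⟨_, rfl⟩
    rw [ha] at hj
    have habs : |7 * c| = 7 * |c| := by rw [abs_mul]; norm_num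
    rw [habs] at hj
    have ha0 : a ≠ 0 := by
      intro h0
      have := Matrix.SpecialLinearGroup.det_coe δ
      rw [Matrix.det_fin_two, ha, h0, d1] at this
      have h5 : (7 : ℤ) ∣ 1 := ⟨-((δ : Mat) 0 1 * c), by linarith⟩
      omega
    have hfin : ∀ (x : SL(2, ℤ)) (c' : ℤ), ((x : Mat) 1 0 = 7 * c' ∨ (x : Mat) 1 0 = -(7 * c')) →
        |c'| < |c| → e7H x := by
      rintro x c' hx hlt
      rw [Int.abs_eq_natAbs, Int.abs_eq_natAbs] at hlt
      have hlt' : c'.natAbs < c.natAbs := by exact_mod_cast hlt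
      rcases hx with hx | hx
      · exact ih c'.natAbs (hlt'.trans_le hN) x ⟨c', hx, le_rfl⟩
      · exact ih c'.natAbs (hlt'.trans_le hN) x ⟨-c', by rw [hx]; ring, by rw [Int.natAbs_neg]⟩
    have hE : ((e7 ^ (1 : ℤ) : SL(2, ℤ)) : Mat) = !![2, -1; 7, -3] := by rw [zpow_one]; rfl
    have hEi : ((e7 ^ (-1 : ℤ) : SL(2, ℤ)) : Mat) = !![-3, 1; -7, 2] := by
      rw [_root_.zpow_neg_one, e7_inv_coe]
    rcases lt_or_ge |a| (2 * |c|) with h | h
    · obtain ⟨i, hi⟩ := e7_bal c a ha0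
      apply e7H_left (lowV_mul_mem 7 i)
      apply hfin _ (c + i * a) (Or.inl _) (by linarith)
      rw [e7_entry, d1, ha]
      simp [lowV]
      ring
    · rcases lt_or_gt_of_ne (mul_ne_zero ha0 hc0) with hac | hac
      · -- opposite signs
        rcases lt_or_ge |a| (3 * |c|) with h3 | h3
        · -- `T⁻¹ e⁻¹ V`
          apply e7H_left (lowV_mul_mem 7 1)
          apply e7H_e (-1)
          apply e7H_left (T_zpow_mem 7 (-1))
          apply hfin _ (a + 2 * c) (Or.inl _) ?_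
          · simp only [e7_entry, ModularGroup.coe_T_zpow, d1, ha, hEi]
            simp [lowV]
            ring
          · rw [e7_abs_add 2 (by norm_num) ha0 hac h]
            linarith
        · -- `V⁻¹ e T`
          apply e7H_left (T_zpow_mem 7 1)
          apply e7H_e 1
          apply e7H_left (lowV_mul_mem 7 (-1))
          apply hfin _ (a + 3 * c) (Or.inr _) ?_
          · simp only [e7_entry, ModularGroup.coe_T_zpow, d1, ha, hE]
            simp [lowV]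
            ring
          · rw [e7_abs_add 3 (by norm_num) ha0 hac h3]
            linarith
      · rcases lt_or_ge |a| (3 * |c|) with h3 | h3
        · apply e7H_e (-1)
          apply hfin _ (a - 2 * c) (Or.inr _) ?_
          · rw [e7_entry, d1, ha, hEi]
            simp
            ring
          · rw [e7_abs_sub 2 (by norm_num) ha0 hac h]
            linarith
        · apply e7H_e 1
          apply hfin _ (a - 3 * c) (Or.inl _) ?_
          · rw [e7_entry, d1, ha, hE]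
            simp
            ring
          · rw [e7_abs_sub 3 (by norm_num) ha0 hac h3]
            linarith

theorem gen7 {γ : SL(2, ℤ)} (hγ : γ ∈ G0 7) :
    ∃ n ∈ Nrm 7, ∃ k : ℕ, k < 3 ∧ (γ = n * e7 ^ k ∨ γ = -(n * e7 ^ k)) := by
  obtain ⟨c, hc⟩ := hγ
  obtain ⟨n, hn, k, hk⟩ := e7_main c.natAbs γ ⟨c, by simpa using hc, le_rfl⟩
  refine ⟨n, hn, (k % 3).toNat, by omega, ?_⟩
  have h4 : e7 ^ (3 : ℤ) = 1 := by
    rw [← e7_cube]
    norm_cast
  have e : e7 ^ (k % 3).toNat = e7 ^ k := by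
    rw [← zpow_natCast, Int.toNat_of_nonneg (by omega)]
    conv_rhs => rw [← Int.emod_add_mul_ediv k 3, _root_.zpow_add, _root_.zpow_mul, h4,
      _root_.one_zpow, mul_one]
  rw [e]
  exact hk

end KS44
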