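import Pool.Agent.LibKS44.E3
import Pool.Agent.LibKS44.E5
import Pool.Agent.LibKS44.E7

/-!
# [KS E8] a homomorphism on `Γ₁(ℓ)`, `ℓ = 3, 5, 7`, which vanishes on the conjugates of `T`, `V` is zero
-/

set_option autoImplicit false

open Matrix
open scoped MatrixGroups

namespace KS44

theorem e8_neg (g : SL(2, ℤ)) : ((-g : SL(2, ℤ)) : Mat) 0 0 = -(g : Mat) 0 0 := by
  rw [Matrix.SpecialLinearGroup.coe_neg, Matrix.neg_apply]

theorem e8_e5 : ((e5 : SL(2, ℤ)) : Mat) 0 0 = 2 ∧ ((e5 ^ 2 : SL(2, ℤ)) : Mat) 0 0 = -1 ∧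
    ((e5 ^ 3 : SL(2, ℤ)) : Mat) 0 0 = -2 := by
  have h1 : ((e5 : SL(2, ℤ)) : Mat) = !![2, -1; 5, -2] := rfl
  have h2 : ((e5 ^ 2 : SL(2, ℤ)) : Mat) = !![-1, 0; 0, -1] := by
    rw [pow_two, Matrix.SpecialLinearGroup.coe_mul, h1, Matrix.mul_fin_two]
    norm_num
  have h3 : ((e5 ^ 3 : SL(2, ℤ)) : Mat) = !![-2, 1; -5, 2] := by
    rw [pow_succ, Matrix.SpecialLinearGroup.coe_mul, h1, h2, Matrix.mul_fin_two]
    norm_num
  rw [h1, h2, h3]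
  exact ⟨rfl, rfl, rfl⟩

theorem e8_e7 : ((e7 : SL(2, ℤ)) : Mat) 0 0 = 2 ∧ ((e7 ^ 2 : SL(2, ℤ)) : Mat) 0 0 = -3 := by
  have h1 : ((e7 : SL(2, ℤ)) : Mat) = !![2, -1; 7, -3] := rfl
  have h2 : ((e7 ^ 2 : SL(2, ℤ)) : Mat) = !![-3, 1; -7, 2] := by
    rw [pow_two, Matrix.SpecialLinearGroup.coe_mul, h1, Matrix.mul_fin_two]
    norm_num
  rw [h1, h2]
  exact ⟨rfl, rfl⟩

theorem gen {ℓ : ℕ} (hl : ℓ = 3 ∨ ℓ = 5 ∨ ℓ = 7) {V : Type} [AddCommGroup V] {f : SL(2, ℤ) → V}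
    (hf : HomOn ℓ f)
    (h1 : ∀ σ ∈ G0 ℓ, f (σ * ModularGroup.T * σ⁻¹) = 0 ∧ f (σ * lowV ℓ * σ⁻¹) = 0) :
    ∀ γ ∈ G1 ℓ, f γ = 0 := by
  intro γ hγ
  suffices hN : γ ∈ Nrm ℓ from Nrm_zero hf h1 hN
  rcases hl with rfl | rfl | rfl
  · obtain ⟨n, hn, h | h⟩ := gen3 (G1_le_G0 hγ)
    · rw [h]
      exact hn
    · exfalso
      have a1 : ((3 : ℕ) : ℤ) ∣ (n : Mat) 0 0 - 1 := (Nrm_le 3 hn).1
      have a2 : ((3 : ℕ) : ℤ) ∣ (γ : Mat) 0 0 - 1 := hγ.1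
      rw [h, e8_neg] at a2
      push_cast at a1 a2
      omega
  · obtain ⟨n, hn, k, hk, h⟩ := gen5 (G1_le_G0 hγ)
    have hm : e5 ^ k ∈ G1 5 := by
      have h2 : e5 ^ k = n⁻¹ * γ := by rw [h, inv_mul_cancel_left]
      rw [h2]
      exact mul_mem (inv_mem (Nrm_le 5 hn)) hγ
    have a1 : ((5 : ℕ) : ℤ) ∣ ((e5 ^ k : SL(2, ℤ)) : Mat) 0 0 - 1 := hm.1
    obtain ⟨b1, b2, b3⟩ := e8_e5
    interval_cases k
    · rw [pow_zero, mul_one] at h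
      rw [h]
      exact hn
    · exfalso
      rw [pow_one, b1] at a1
      norm_num at a1
    · exfalso
      rw [b2] at a1
      norm_num at a1
    · exfalso
      rw [b3] at a1
      norm_num at a1
  · obtain ⟨n, hn, k, hk, h⟩ := gen7 (G1_le_G0 hγ)
    obtain ⟨b1, b2⟩ := e8_e7
    rcases h with h | h
    · have hm : e7 ^ k ∈ G1 7 := by
        have h2 : e7 ^ k = n⁻¹ * γ := by rw [h, inv_mul_cancel_left]
        rw [h2]
        exact mul_mem (inv_mem (Nrm_le 7 hn)) hγ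
      have a1 : ((7 : ℕ) : ℤ) ∣ ((e7 ^ k : SL(2, ℤ)) : Mat) 0 0 - 1 := hm.1
      interval_cases k
      · rw [pow_zero, mul_one] at h
        rw [h]
        exact hn
      · exfalso
        rw [pow_one, b1] at a1
        norm_num at a1
      · exfalso
        rw [b2] at a1
        norm_num at a1
    · exfalso
      have hm : -(e7 ^ k) ∈ G1 7 := by
        have h2 : -(e7 ^ k) = n⁻¹ * γ := by rw [h, mul_neg, inv_mul_cancel_left]
        rw [h2]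
        exact mul_mem (inv_mem (Nrm_le 7 hn)) hγ
      have a1 : ((7 : ℕ) : ℤ) ∣ ((-(e7 ^ k) : SL(2, ℤ)) : Mat) 0 0 - 1 := hm.1
      rw [e8_neg] at a1
      interval_cases k
      · rw [pow_zero, Matrix.SpecialLinearGroup.coe_one, Matrix.one_apply_eq] at a1
        norm_num at a1
      · rw [pow_one, b1] at a1
        norm_num at a1
      · rw [b2] at a1
        norm_num at a1

end KS44
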