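import Pool.Agent.LibKS44.B6
import Pool.Agent.LibKS44.C5
import Pool.Agent.LibKS44.E8

/-!
# [KS D3] modules on which the determinant acts

`DetMod ℓ V`. Let `u : Γ₁(ℓ) → V` be a cocycle, `dsc u` a coboundary.
(1) For `γ ∈ Γ₁(ℓ)` the entry `(1,1)` is `≡ 1` modulo `ℓ` (determinant), so `jj γ • v = el 1 • v = v`: `u` is additive, and coboundaries are
`0`: `dsc u = 0`.
(2) `dsc u γ = ∑ k, ∑ i, a_k • a_i • u (c_i (c_k γ)) - 4 p z • u (τ γ τ⁻¹)` where `a_k a_i = el (adj α_k * adj α_i)` and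
`z = el (p τ⁻¹)`; the entries `(1,1)` are `≡ p²` in both cases (`adj α_i ≡ (1, *; 0, p)` by `alpha_cong`, `p τ⁻¹ ≡ (1, *; 0, p²)`), so by
`DetMod` `a_k • a_i • v = z • v`. `z •` is injective on `V`: there is `w` with `w p² ≡ 1` modulo `ℓ`, `g = (1, 0; 0, w) ∈ D1 ℓ`,
`el g • z • v = el (g * p τ⁻¹) • v = v`. So `∑ k, ∑ i, u (c_i (c_k γ)) = 4 p u (τ γ τ⁻¹)` for all `γ ∈ Γ₁(ℓ)`.
(3) Let `f : SL(2, ℤ) → V`, `f γ = u γ` for `γ ∈ Γ₁(ℓ)`, `0` otherwise (`dite`). `HomOn ℓ f`, `hk τ p (hk τ p f) γ = (4 p) • f (τ γ τ⁻¹)` on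
`Γ₁(ℓ)` (`comp_mem_G1`, `conj_mem`). `ℓ • v = 0` because `(ℓ : R1 ℓ) = 0`. By `vanish` and `gen`, `f = 0` on `Γ₁(ℓ)`: `u = 0`. QED.
-/

set_option autoImplicit false

open Matrix
open scoped MatrixGroups

namespace KS44

theorem d3_adj (g : Mat) : g.adjugate 0 0 = g 1 1 ∧ g.adjugate 0 1 = -g 0 1 ∧
    g.adjugate 1 0 = -g 1 0 ∧ g.adjugate 1 1 = g 0 0 := by
  rw [Matrix.adjugate_fin_two]
  exact ⟨rfl, rfl, rfl, rfl⟩

theorem d3_jj {ℓ : ℕ} {V : Type} [AddCommGroup V] [Module (R1 ℓ) V] (hV : DetMod ℓ V)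
    (γ : G1 ℓ) (v : V) : jj ℓ γ • v = v := by
  have h1 : (ℓ : ℤ) ∣ (incl ℓ γ).1 1 1 - (1 : D1 ℓ).1 1 1 := by
    obtain ⟨⟨x, hx⟩, ⟨y, hy⟩⟩ := γ.2
    have hx' : ((γ : SL(2, ℤ)) : Mat) 0 0 = 1 + ℓ * x := by linear_combination hx
    have hd : ((γ : SL(2, ℤ)) : Mat) 0 0 * ((γ : SL(2, ℤ)) : Mat) 1 1 -
        ((γ : SL(2, ℤ)) : Mat) 0 1 * ((γ : SL(2, ℤ)) : Mat) 1 0 = 1 := by
      have := Matrix.SpecialLinearGroup.det_coe (γ : SL(2, ℤ))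
      rwa [Matrix.det_fin_two] at this
    change (ℓ : ℤ) ∣ ((γ : SL(2, ℤ)) : Mat) 1 1 - (1 : Mat) 1 1
    rw [Matrix.one_apply_eq]
    refine ⟨((γ : SL(2, ℤ)) : Mat) 0 1 * y - x * ((γ : SL(2, ℤ)) : Mat) 1 1, ?_⟩
    rw [hx', hy] at hd
    linear_combination hd
  have h2 := hV (incl ℓ γ) 1 h1 v
  rw [map_one, one_smul] at h2
  exact h2

theorem d3_z {ℓ p : ℕ} {τ : SL(2, ℤ)} (h : Setup ℓ p τ) {V : Type} [AddCommGroup V]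
    [Module (R1 ℓ) V] (hV : DetMod ℓ V) (k i : Option (Fin p)) (v : V) :
    el ℓ ⟨(alpha τ p k).adjugate, adj_mem h k⟩ • el ℓ ⟨(alpha τ p i).adjugate, adj_mem h i⟩ • v =
      el ℓ ⟨_, z_mem h⟩ • v := by
  rw [← mul_smul, ← map_mul]
  apply hV
  change (ℓ : ℤ) ∣ ((alpha τ p k).adjugate * (alpha τ p i).adjugate) 1 1 -
    ((p : ℤ) • ((τ⁻¹ : SL(2, ℤ)) : Mat)) 1 1
  rw [Matrix.mul_apply, Fin.sum_univ_two, (d3_adj _).2.2.1, (d3_adj _).2.1, (d3_adj _).2.2.2,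
    (d3_adj _).2.2.2, Matrix.smul_apply, smul_eq_mul, Matrix.SpecialLinearGroup.coe_inv,
    (d3_adj _).2.2.2]
  obtain ⟨⟨a, ha⟩, ⟨b, hb⟩, _⟩ := alpha_cong h k
  obtain ⟨⟨c, hc⟩, _, _⟩ := alpha_cong h i
  obtain ⟨t, ht⟩ := h.h00
  have ha' : alpha τ p k 0 0 = p + ℓ * a := by linear_combination ha
  have hc' : alpha τ p i 0 0 = p + ℓ * c := by linear_combination hc
  have ht' : (τ : Mat) 0 0 = p + ℓ * t := by linear_combination ht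
  rw [ha', hc', ht', hb]
  exact ⟨b * alpha τ p i 0 1 + p * c + a * p + ℓ * a * c - p * t, by ring⟩

theorem d3_inj {ℓ p : ℕ} {τ : SL(2, ℤ)} (h : Setup ℓ p τ) {V : Type} [AddCommGroup V]
    [Module (R1 ℓ) V] (hV : DetMod ℓ V) (v : V) (hv : el ℓ ⟨_, z_mem h⟩ • v = 0) : v = 0 := by
  obtain ⟨a, b, hab⟩ := (IsCoprime.pow_left (m := 2) h.cop)
  have hg : (!![1, 0; 0, a] : Mat) ∈ D1 ℓ := by
    refine ⟨?_, ?_, ?_⟩
    · rw [Matrix.det_fin_two_of]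
      exact ⟨p ^ 2, b, by linear_combination hab⟩
    · simp
    · simp
  have h1 : el ℓ ⟨_, hg⟩ • el ℓ ⟨_, z_mem h⟩ • v = el ℓ 1 • v := by
    rw [← mul_smul, ← map_mul]
    apply hV
    change (ℓ : ℤ) ∣ ((!![1, 0; 0, a] : Mat) * ((p : ℤ) • ((τ⁻¹ : SL(2, ℤ)) : Mat))) 1 1 -
      (1 : Mat) 1 1
    rw [Matrix.mul_apply, Fin.sum_univ_two, Matrix.smul_apply, Matrix.smul_apply, smul_eq_mul,
      smul_eq_mul, Matrix.SpecialLinearGroup.coe_inv, (d3_adj _).2.2.2, Matrix.one_apply_eq]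
    obtain ⟨t, ht⟩ := h.h00
    have ht' : (τ : Mat) 0 0 = p + ℓ * t := by linear_combination ht
    rw [ht']
    have e1 : (!![1, 0; 0, a] : Mat) 1 0 = 0 := rfl
    have e2 : (!![1, 0; 0, a] : Mat) 1 1 = a := rfl
    rw [e1, e2]
    refine ⟨a * p * t - b, ?_⟩
    linear_combination hab
  rw [hv, smul_zero, map_one, one_smul] at h1
  exact h1.symm

theorem base {ℓ p : ℕ} {τ : SL(2, ℤ)} (h : Setup ℓ p τ) (hl : ℓ = 3 ∨ ℓ = 5 ∨ ℓ = 7) (m : ℕ)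
    (hm : (ℓ : ℤ) ∣ (p : ℤ) ^ m + 1) (V : Type) [AddCommGroup V] [Module (R1 ℓ) V] (hV : DetMod ℓ V) :
    Inj V (T1 h) (S1 h) (4 * p) := by
  classical
  intro u hu hcob
  have hℓV : ∀ v : V, ℓ • v = 0 := by
    intro v
    have h1 : ((ℓ : ℕ) : R1 ℓ) = 0 := by
      rw [← map_natCast (algebraMap (ZMod ℓ) (R1 ℓ)) ℓ, CharP.cast_eq_zero, map_zero]
    rw [← Nat.cast_smul_eq_nsmul (R1 ℓ), h1, zero_smul]
  have hadd : ∀ γ δ : G1 ℓ, u (γ * δ) = u γ + u δ := by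
    intro γ δ
    rw [hu, d3_jj hV]
  have hdsc : ∀ γ : G1 ℓ, dsc (T1 h) (S1 h) (4 * p) u γ = 0 := by
    intro γ
    obtain ⟨m, hm⟩ := hcob
    rw [hm γ, d3_jj hV, sub_self]
  obtain ⟨f, hf⟩ : ∃ f : SL(2, ℤ) → V, f = fun γ => if hγ : γ ∈ G1 ℓ then u ⟨γ, hγ⟩ else 0 :=
    ⟨_, rfl⟩
  have hfu : ∀ γ (hγ : γ ∈ G1 ℓ), f γ = u ⟨γ, hγ⟩ := by
    intro γ hγ
    rw [hf]
    simp only
    rw [dif_pos hγ]
  have hfh : HomOn ℓ f := by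
    intro γ hγ δ hδ
    rw [hfu γ hγ, hfu δ hδ, hfu (γ * δ) (mul_mem hγ hδ), ← hadd]
    rfl
  have hE : ∀ γ ∈ G1 ℓ, hk τ p (hk τ p f) γ = (4 * p) • f (τ * γ * τ⁻¹) := by
    intro γ hγ
    have h1 := hdsc ⟨γ, hγ⟩
    have h2 : (T1 h).op ((T1 h).op u) ⟨γ, hγ⟩ = el ℓ ⟨_, z_mem h⟩ • hk τ p (hk τ p f) γ := by
      change ∑ k : Option (Fin p), el ℓ ⟨(alpha τ p k).adjugate, adj_mem h k⟩ •
        (∑ i : Option (Fin p), el ℓ ⟨(alpha τ p i).adjugate, adj_mem h i⟩ •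
          u ⟨comp (alpha τ p) i (comp (alpha τ p) k γ),
            comp_mem_G1 h i (comp_mem_G1 h k hγ)⟩) = _
      unfold hk
      rw [Finset.smul_sum]
      apply Finset.sum_congr rfl
      intro k _
      rw [Finset.smul_sum, Finset.smul_sum]
      apply Finset.sum_congr rfl
      intro i _
      rw [d3_z h hV, hfu _ (comp_mem_G1 h i (comp_mem_G1 h k hγ))]
    have h3 : (S1 h).op u ⟨γ, hγ⟩ = el ℓ ⟨_, z_mem h⟩ • f (τ * γ * τ⁻¹) := by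
      change ∑ _i : Unit, el ℓ ⟨_, z_mem h⟩ • u ⟨τ * γ * τ⁻¹, conj_mem (tau_mem h) hγ⟩ = _
      rw [Finset.sum_const, Finset.card_univ, Fintype.card_unit, one_smul,
        hfu _ (conj_mem (tau_mem h) hγ)]
    have h4 : el ℓ ⟨_, z_mem h⟩ • (hk τ p (hk τ p f) γ - ((4 : ℤ) * p) • f (τ * γ * τ⁻¹)) = 0 := by
      rw [smul_sub, ← h2, smul_comm, ← h3]
      exact h1
    have h5 := d3_inj h hV _ h4
    rw [sub_eq_zero] at h5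
    rw [h5, ← natCast_zsmul]
    push_cast
    rfl
  have hl2 : ℓ ≠ 2 := by rcases hl with h | h | h <;> omega
  have hz := gen hl hfh (fun σ hσ => vanish h hl2 m hm hℓV hfh hE hσ)
  refine ⟨0, fun γ => ?_⟩
  rw [smul_zero, sub_zero]
  have := hz γ γ.2
  rw [hfu _ γ.2] at this
  exact this

end KS44
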