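import Pool.Agent.LibKS44.A2
import Pool.Agent.LibKS44.D2
import Pool.Agent.LibKS44.D3

/-!
# [KS D4] all finite modules

PROOF. Strong induction on `Nat.card M`. If `M` is trivial: every function is `0 = ∂ 0`. Otherwise take `V` from `fix`,
`Inj V` by `base`, `Inj (M ⧸ V)` by induction (`CongMod` passes to the quotient; its cardinality is smaller because `V ≠ ⊥`),
and use `devissage`. QED.
-/

set_option autoImplicit false

open Matrix
open scoped MatrixGroups

namespace KS44

theorem d4_card {ℓ : ℕ} (M : Type) [AddCommGroup M] [Module (R1 ℓ) M] [Finite M] (V : Submodule (R1 ℓ) M)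
    (hV : V ≠ ⊥) : Nat.card (M ⧸ V) < Nat.card M := by
  have : Finite (M ⧸ V) := Finite.of_surjective _ (Submodule.mkQ_surjective V)
  have h1 : Nat.card M = Nat.card V * Nat.card (M ⧸ V) := Submodule.card_eq_card_quotient_mul_card V
  have h2 : Nontrivial V := (Submodule.nontrivial_iff_ne_bot).2 hV
  have h3 : 1 < Nat.card V := Finite.one_lt_card
  have h4 : 0 < Nat.card (M ⧸ V) := Nat.card_pos
  rw [h1]
  nlinarith

theorem inj_all {ℓ p : ℕ} {τ : SL(2, ℤ)} (h : Setup ℓ p τ) (hl : ℓ = 3 ∨ ℓ = 5 ∨ ℓ = 7) (m : ℕ)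
    (hm : (ℓ : ℤ) ∣ (p : ℤ) ^ m + 1) (r : ℕ) (M : Type) [AddCommGroup M] [Module (R1 ℓ) M] [Finite M]
    (hC : CongMod ℓ r M) : Inj M (T1 h) (S1 h) (4 * p) := by
  have key : ∀ n : ℕ, ∀ (M : Type) [AddCommGroup M] [Module (R1 ℓ) M] [Finite M], Nat.card M = n →
      CongMod ℓ r M → Inj M (T1 h) (S1 h) (4 * p) := by
    intro n
    induction n using Nat.strong_induction_on with
    | _ n ih =>
      intro M _ _ _ hn hC
      rcases subsingleton_or_nontrivial M with hM | hM
      · intro u _ _
        exact ⟨0, fun g => Subsingleton.elim _ _⟩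
      · obtain ⟨V, hV0, hVD⟩ := fix h.hl r M hC
        refine devissage (T1 h) (S1 h) (4 * p) V (base h hl m hm V hVD) ?_
        have : Finite (M ⧸ V) := Finite.of_surjective _ (Submodule.mkQ_surjective V)
        refine ih _ (by rw [← hn]; exact d4_card M V hV0) (M ⧸ V) rfl ?_
        intro g k hgk x
        obtain ⟨y, rfl⟩ := Submodule.mkQ_surjective V x
        rw [← map_smul, ← map_smul, hC g k hgk y]
  exact key _ M rfl hC

end KS44
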