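import Pool.Agent.LibKS44.C0

/-!
# [KS E0] the normal closure of `T` and `V` in `Γ₀(ℓ)`
`Nrm ℓ` is the subgroup generated by the `σ T σ⁻¹`, `σ (lowV ℓ) σ⁻¹`, `σ ∈ Γ₀(ℓ)`. All statements are immediate
(`Subgroup.closure_le`, `Subgroup.closure_induction`, `Subgroup.subset_closure`; for `Nrm_conj` use
`Subgroup.closure_induction` or `MulAut.conj`; `lowV (ℓ * k) = lowV ℓ ^ k`).
-/

set_option autoImplicit false

open Matrix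
open scoped MatrixGroups

namespace KS44

/-- the normal closure of `T` and `V` in `Γ₀(ℓ)` -/
def Nrm (ℓ : ℕ) : Subgroup SL(2, ℤ) :=
  Subgroup.closure {x | ∃ σ ∈ G0 ℓ, x = σ * ModularGroup.T * σ⁻¹ ∨ x = σ * lowV ℓ * σ⁻¹}

/-- `Γ₀(ℓ)` normalises `Γ₁(ℓ)` -/
theorem e0_conj {ℓ : ℕ} {σ x : SL(2, ℤ)} (hσ : σ ∈ G0 ℓ) (hx : x ∈ G1 ℓ) :
    σ * x * σ⁻¹ ∈ G1 ℓ := by
  obtain ⟨c, hc⟩ := (show (ℓ : ℤ) ∣ (σ : Mat) 1 0 from hσ)
  obtain ⟨⟨u, hu⟩, ⟨w, hw⟩⟩ := hx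
  have hu' : (x : Mat) 0 0 = 1 + ℓ * u := by linear_combination hu
  have hd : (σ : Mat) 0 0 * (σ : Mat) 1 1 - (σ : Mat) 0 1 * (σ : Mat) 1 0 = 1 := by
    have := Matrix.SpecialLinearGroup.det_coe σ
    rwa [Matrix.det_fin_two] at this
  have e : ((σ * x * σ⁻¹ : SL(2, ℤ)) : Mat) = (σ : Mat) * (x : Mat) * (σ : Mat).adjugate := by
    rw [Matrix.SpecialLinearGroup.coe_mul, Matrix.SpecialLinearGroup.coe_mul,
      Matrix.SpecialLinearGroup.coe_inv]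
  have e0 : ((σ * x * σ⁻¹ : SL(2, ℤ)) : Mat) 0 0 =
      ((σ : Mat) 0 0 * (x : Mat) 0 0 + (σ : Mat) 0 1 * (x : Mat) 1 0) * (σ : Mat) 1 1 +
      ((σ : Mat) 0 0 * (x : Mat) 0 1 + (σ : Mat) 0 1 * (x : Mat) 1 1) * (-(σ : Mat) 1 0) := by
    rw [e, Matrix.adjugate_fin_two, Matrix.mul_apply, Fin.sum_univ_two, Matrix.mul_apply,
      Matrix.mul_apply, Fin.sum_univ_two, Fin.sum_univ_two]
    rfl
  have e1 : ((σ * x * σ⁻¹ : SL(2, ℤ)) : Mat) 1 0 =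
      ((σ : Mat) 1 0 * (x : Mat) 0 0 + (σ : Mat) 1 1 * (x : Mat) 1 0) * (σ : Mat) 1 1 +
      ((σ : Mat) 1 0 * (x : Mat) 0 1 + (σ : Mat) 1 1 * (x : Mat) 1 1) * (-(σ : Mat) 1 0) := by
    rw [e, Matrix.adjugate_fin_two, Matrix.mul_apply, Fin.sum_univ_two, Matrix.mul_apply,
      Matrix.mul_apply, Fin.sum_univ_two, Fin.sum_univ_two]
    rfl
  refine ⟨?_, ?_⟩
  · rw [e0, hu', hw]
    refine ⟨(σ : Mat) 0 0 * (σ : Mat) 1 1 * u + (σ : Mat) 0 1 * (σ : Mat) 1 1 * w -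
      (σ : Mat) 0 0 * (x : Mat) 0 1 * c - (σ : Mat) 0 1 * (x : Mat) 1 1 * c +
      (σ : Mat) 0 1 * c, ?_⟩
    rw [hc] at hd ⊢
    linear_combination hd
  · rw [e1, hu', hw, hc]
    exact ⟨c * (1 + ℓ * u) * (σ : Mat) 1 1 + (σ : Mat) 1 1 * w * (σ : Mat) 1 1 -
      (ℓ * c * (x : Mat) 0 1 + (σ : Mat) 1 1 * (x : Mat) 1 1) * c, by ring⟩

theorem Nrm_le (ℓ : ℕ) : Nrm ℓ ≤ G1 ℓ := by
  unfold Nrm
  rw [Subgroup.closure_le]
  rintro x ⟨σ, hσ, h | h⟩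
  · rw [h]
    exact e0_conj hσ T_mem
  · rw [h]
    exact e0_conj hσ lowV_mem

theorem Nrm_zero {ℓ : ℕ} {V : Type} [AddCommGroup V] {f : SL(2, ℤ) → V} (hf : HomOn ℓ f)
    (h1 : ∀ σ ∈ G0 ℓ, f (σ * ModularGroup.T * σ⁻¹) = 0 ∧ f (σ * lowV ℓ * σ⁻¹) = 0) {x : SL(2, ℤ)}
    (hx : x ∈ Nrm ℓ) : f x = 0 := by
  unfold Nrm at hx
  refine Subgroup.closure_induction (p := fun y _ => f y = 0) ?_ ?_ ?_ ?_ hx
  · rintro y ⟨σ, hσ, h | h⟩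
    · rw [h]
      exact (h1 σ hσ).1
    · rw [h]
      exact (h1 σ hσ).2
  · exact hf.one
  · intro y z hy hz h2 h3
    rw [hf y (Nrm_le ℓ hy) z (Nrm_le ℓ hz), h2, h3, add_zero]
  · intro y hy h2
    rw [hf.inv (Nrm_le ℓ hy), h2, neg_zero]

theorem Nrm_conj {ℓ : ℕ} {σ x : SL(2, ℤ)} (hσ : σ ∈ G0 ℓ) (hx : x ∈ Nrm ℓ) : σ * x * σ⁻¹ ∈ Nrm ℓ := by
  refine Subgroup.closure_induction (p := fun y _ => σ * y * σ⁻¹ ∈ Nrm ℓ) ?_ ?_ ?_ ?_ hx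
  · rintro y ⟨ρ, hρ, h | h⟩
    · refine Subgroup.subset_closure ⟨σ * ρ, mul_mem hσ hρ, Or.inl ?_⟩
      rw [h]
      group
    · refine Subgroup.subset_closure ⟨σ * ρ, mul_mem hσ hρ, Or.inr ?_⟩
      rw [h]
      group
  · rw [mul_one, mul_inv_cancel]
    exact one_mem _
  · intro y z _ _ h2 h3
    have h4 : σ * (y * z) * σ⁻¹ = (σ * y * σ⁻¹) * (σ * z * σ⁻¹) := by group
    rw [h4]
    exact mul_mem h2 h3
  · intro y _ h2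
    have h4 : σ * y⁻¹ * σ⁻¹ = (σ * y * σ⁻¹)⁻¹ := by group
    rw [h4]
    exact inv_mem h2

theorem T_zpow_mem (ℓ : ℕ) (k : ℤ) : ModularGroup.T ^ k ∈ Nrm ℓ := by
  have h : ModularGroup.T ∈ Nrm ℓ := by
    refine Subgroup.subset_closure ⟨1, one_mem _, Or.inl ?_⟩
    rw [one_mul, inv_one, mul_one]
  exact zpow_mem h k

theorem e0_lowV_add (m n : ℤ) : lowV (m + n) = lowV m * lowV n := by
  apply Subtype.ext
  rw [Matrix.SpecialLinearGroup.coe_mul]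
  show (!![1, 0; m + n, 1] : Mat) = !![1, 0; m, 1] * !![1, 0; n, 1]
  ext i j
  fin_cases i <;> fin_cases j <;> simp

/-- the homomorphism `n ↦ lowV n` -/
def e0_hom : Multiplicative ℤ →* SL(2, ℤ) where
  toFun n := lowV n.toAdd
  map_one' := by
    apply Subtype.ext
    show (!![1, 0; 0, 1] : Mat) = 1
    exact Matrix.one_fin_two.symm
  map_mul' := fun a b => e0_lowV_add a.toAdd b.toAdd

theorem e0_zpow (n k : ℤ) : lowV (n * k) = lowV n ^ k := by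
  have h := map_zpow e0_hom (Multiplicative.ofAdd n) k
  rw [← ofAdd_zsmul] at h
  have h2 : e0_hom (Multiplicative.ofAdd (k • n)) = lowV (k • n) := rfl
  have h3 : e0_hom (Multiplicative.ofAdd n) = lowV n := rfl
  rw [h2, h3, smul_eq_mul, mul_comm] at h
  exact h

theorem lowV_mul_mem (ℓ : ℕ) (k : ℤ) : lowV (ℓ * k) ∈ Nrm ℓ := by
  have h : lowV (ℓ : ℤ) ∈ Nrm ℓ := by
    refine Subgroup.subset_closure ⟨1, one_mem _, Or.inr ?_⟩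
    rw [one_mul, inv_one, mul_one]
  rw [e0_zpow]
  exact zpow_mem h k

end KS44
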