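import Pool.Agent.LibKS44.E0

/-!
# [KS E3] `Γ₀(3) = ± Nrm 3`

Euclidean descent on the lower left entry.
-/

set_option autoImplicit false

open Matrix
open scoped MatrixGroups

namespace KS44

/-- nearest multiple -/
theorem e3_near (x y : ℤ) (hy : y ≠ 0) : ∃ j : ℤ, 2 * |x + j * y| ≤ |y| := by
  have h1 := Int.emod_add_mul_ediv x y
  have h2 := Int.emod_nonneg x hy
  have h3 := Int.emod_lt_abs x hy
  rcases le_or_gt (2 * (x % y)) |y| with h | h
  · refine ⟨-(x / y), ?_⟩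
    have h4 : x + -(x / y) * y = x % y := by linarith [mul_comm y (x / y)]
    rw [h4, abs_of_nonneg h2]
    exact h
  · rcases lt_or_gt_of_ne hy with hy' | hy'
    · refine ⟨-(x / y) + 1, ?_⟩
      rw [abs_of_neg hy'] at h h3 ⊢
      have h4 : x + (-(x / y) + 1) * y = x % y + y := by linarith [mul_comm y (x / y)]
      rw [h4, abs_of_nonpos (by linarith)]
      linarith
    · refine ⟨-(x / y) - 1, ?_⟩
      rw [abs_of_pos hy'] at h h3 ⊢
      have h4 : x + (-(x / y) - 1) * y = x % y - y := by linarith [mul_comm y (x / y)]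
      rw [h4, abs_of_nonpos (by linarith)]
      linarith

theorem e3_det (γ : SL(2, ℤ)) :
    (γ : Mat) 0 0 * (γ : Mat) 1 1 - (γ : Mat) 0 1 * (γ : Mat) 1 0 = 1 := by
  have := Matrix.SpecialLinearGroup.det_coe γ
  rwa [Matrix.det_fin_two] at this

theorem e3_T_mul (j : ℤ) (γ : SL(2, ℤ)) :
    ((ModularGroup.T ^ j * γ : SL(2, ℤ)) : Mat) 0 0 = (γ : Mat) 0 0 + j * (γ : Mat) 1 0 ∧
    ((ModularGroup.T ^ j * γ : SL(2, ℤ)) : Mat) 1 0 = (γ : Mat) 1 0 := by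
  have h : ((ModularGroup.T ^ j : SL(2, ℤ)) : Mat) = !![1, j; 0, 1] := ModularGroup.coe_T_zpow j
  constructor
  · rw [Matrix.SpecialLinearGroup.coe_mul, h, Matrix.mul_apply, Fin.sum_univ_two]
    simp
  · rw [Matrix.SpecialLinearGroup.coe_mul, h, Matrix.mul_apply, Fin.sum_univ_two]
    simp

theorem e3_V_mul (n : ℤ) (γ : SL(2, ℤ)) :
    ((lowV n * γ : SL(2, ℤ)) : Mat) 1 0 = n * (γ : Mat) 0 0 + (γ : Mat) 1 0 := by
  have h : ((lowV n : SL(2, ℤ)) : Mat) = !![1, 0; n, 1] := rfl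
  rw [Matrix.SpecialLinearGroup.coe_mul, h, Matrix.mul_apply, Fin.sum_univ_two]
  simp

theorem e3_zero {ℓ : ℕ} {γ : SL(2, ℤ)} (h0 : (γ : Mat) 1 0 = 0) :
    ∃ n ∈ Nrm ℓ, γ = n ∨ γ = -n := by
  have hd := e3_det γ
  rw [h0, mul_zero, sub_zero] at hd
  rcases Int.eq_one_or_neg_one_of_mul_eq_one' hd with ⟨ha, hd'⟩ | ⟨ha, hd'⟩
  · refine ⟨ModularGroup.T ^ (γ : Mat) 0 1, T_zpow_mem ℓ _, Or.inl ?_⟩
    apply Subtype.ext
    have h : ((ModularGroup.T ^ (γ : Mat) 0 1 : SL(2, ℤ)) : Mat) = !![1, (γ : Mat) 0 1; 0, 1] :=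
      ModularGroup.coe_T_zpow _
    rw [h]
    ext i j
    fin_cases i <;> fin_cases j <;> simp [ha, hd', h0]
  · refine ⟨ModularGroup.T ^ (-(γ : Mat) 0 1), T_zpow_mem ℓ _, Or.inr ?_⟩
    apply Subtype.ext
    have h : ((ModularGroup.T ^ (-(γ : Mat) 0 1) : SL(2, ℤ)) : Mat)
        = !![1, -(γ : Mat) 0 1; 0, 1] := ModularGroup.coe_T_zpow _
    rw [Matrix.SpecialLinearGroup.coe_neg, h]
    ext i j
    fin_cases i <;> fin_cases j <;> simp [ha, hd', h0]

theorem e3_step (N : ℕ) : ∀ γ : SL(2, ℤ), ∀ c : ℤ, (γ : Mat) 1 0 = 3 * c → c.natAbs ≤ N →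
    ∃ n ∈ Nrm 3, γ = n ∨ γ = -n := by
  induction N with
  | zero =>
    intro γ c hc hN
    have h0 : c = 0 := by omega
    exact e3_zero (by rw [hc, h0, mul_zero])
  | succ N ih =>
    intro γ c hc hN
    by_cases h0 : c = 0
    · exact e3_zero (by rw [hc, h0, mul_zero])
    obtain ⟨j, hj⟩ := e3_near ((γ : Mat) 0 0) (3 * c) (by omega)
    obtain ⟨t1, t2⟩ := e3_T_mul j γ
    rw [hc] at t1 t2
    set a : ℤ := (γ : Mat) 0 0 + j * (3 * c) with ha
    have ha0 : a ≠ 0 := by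
      intro h
      have hd := e3_det (ModularGroup.T ^ j * γ)
      rw [t1, h, t2, zero_mul, zero_sub] at hd
      have h3 : 3 * (-(((ModularGroup.T ^ j * γ : SL(2, ℤ)) : Mat) 0 1 * c)) = 1 := by
        linarith [mul_left_comm (((ModularGroup.T ^ j * γ : SL(2, ℤ)) : Mat) 0 1) 3 c]
      omega
    obtain ⟨i, hi⟩ := e3_near c a ha0
    have hV := e3_V_mul (((3 : ℕ) : ℤ) * i) (ModularGroup.T ^ j * γ)
    rw [t1, t2] at hV
    have hV' : ((lowV (((3 : ℕ) : ℤ) * i) * (ModularGroup.T ^ j * γ) : SL(2, ℤ)) : Mat) 1 0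
        = 3 * (c + i * a) := by
      rw [hV]
      push_cast
      ring
    have hlt : (c + i * a).natAbs ≤ N := by
      have h5 : 4 * |c + i * a| ≤ 3 * |c| := by
        rw [abs_mul] at hj
        have h6 : |(3 : ℤ)| = 3 := by norm_num
        rw [h6] at hj
        linarith
      have h7 : 0 < |c| := abs_pos.2 h0
      have h8 : |c + i * a| < |c| := by linarith [abs_nonneg (c + i * a)]
      have h9 : (c + i * a).natAbs < c.natAbs := by
        zify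
        exact h8
      omega
    obtain ⟨n, hn, hγ⟩ := ih _ _ hV' hlt
    have hM : lowV (((3 : ℕ) : ℤ) * i) * ModularGroup.T ^ j ∈ Nrm 3 :=
      mul_mem (lowV_mul_mem 3 i) (T_zpow_mem 3 j)
    refine ⟨(lowV (((3 : ℕ) : ℤ) * i) * ModularGroup.T ^ j)⁻¹ * n, mul_mem (inv_mem hM) hn, ?_⟩
    rw [← mul_assoc] at hγ
    rcases hγ with hγ | hγ
    · left
      rw [← hγ, inv_mul_cancel_left]
    · right
      rw [← mul_neg, ← hγ, inv_mul_cancel_left]

theorem gen3 {γ : SL(2, ℤ)} (hγ : γ ∈ G0 3) : ∃ n ∈ Nrm 3, γ = n ∨ γ = -n := by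
  obtain ⟨c, hc⟩ := hγ
  exact e3_step c.natAbs γ c (by rw [hc]; norm_num) le_rfl

end KS44
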