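import Pool.Agent.LibKS44.F0
import Pool.Agent.LibKS44.B6

/-!
# [KS F1] restriction to `Γ₁(ℓ)`

`M = (rep hρ).asModule` is `ι → ZMod ℓ` as a module over `R1 ℓ = MonoidAlgebra (ZMod ℓ) (D1 ℓ)`.
`rs u : Γ₁(ℓ) → M` is the restriction of `u : SL(2, ℤ) → ι → ZMod ℓ`. Note `el ℓ g • (asModuleEquiv.symm v) =
asModuleEquiv.symm (act ρ (ZMod ℓ) g v)` (`Representation.asModuleEquiv_symm_map_rho`; `n • x = (n : ZMod ℓ) * x`).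
(a) `rs_T`: `(T1 h).op (rs u) = rs ((TG ..).op u)` for `α = alpha τ p`: literally the same formula.
(b) `rs_S`: for a cocycle `u`: `(S1 h).op (rs u) γ = rs ((SG ..).op u) γ + (γ • m - m)`, `m = ρ(p) u(τ⁻¹)`:
`(p τ⁻¹) u(τ γ τ⁻¹) = ρ(p) τ⁻¹ (u τ + τ u γ + τ γ u(τ⁻¹)) = ρ(p) (τ⁻¹ u τ + u γ + γ u(τ⁻¹))` and `τ⁻¹ u τ = - u(τ⁻¹)`; `ρ(p)` commutes with `γ`
(`act_mul`, `p • 1` is central).
(c) `rs_dsc`: hence, if `u` is a cocycle and `dsc (TG) (SG) n u` is a coboundary, then `dsc (T1 h) (S1 h) n (rs u)` is a coboundary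
(note that `T1.op (T1.op (rs u)) = rs (TG.op (TG.op u))`). QED.
-/

set_option autoImplicit false

open Matrix
open scoped MatrixGroups

namespace KS44

variable {ι : Type} [Fintype ι] [DecidableEq ι]

/-- the representation of the monoid `D1 ℓ` modulo `ℓ` -/
noncomputable def rep {ℓ : ℕ} {ρ : Mat → Matrix ι ι ℤ} (hρ : IsRep ℓ ρ) :
    Representation (ZMod ℓ) (D1 ℓ) (ι → ZMod ℓ) where
  toFun g := Matrix.mulVecLin ((ρ g.1).map (Int.castRingHom (ZMod ℓ)))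
  map_one' := by
    change Matrix.mulVecLin ((ρ 1).map (Int.castRingHom (ZMod ℓ))) = 1
    rw [hρ.one, Matrix.map_one _ (map_zero _) (map_one _)]
    exact Matrix.mulVecLin_one
  map_mul' g h := by
    change Matrix.mulVecLin ((ρ (g.1 * h.1)).map (Int.castRingHom (ZMod ℓ))) = _
    rw [hρ.mul g.1 h.1 g.2.1 h.2.1, Matrix.map_mul]
    exact Matrix.mulVecLin_mul _ _

/-- restriction of functions to `Γ₁(ℓ)` -/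
noncomputable def rs {ℓ : ℕ} {ρ : Mat → Matrix ι ι ℤ} (hρ : IsRep ℓ ρ) (u : SL(2, ℤ) → ι → ZMod ℓ) :
    G1 ℓ → (rep hρ).asModule := fun γ => (rep hρ).asModuleEquiv.symm (u γ)

theorem f1_rep_apply {ℓ : ℕ} {ρ : Mat → Matrix ι ι ℤ} (hρ : IsRep ℓ ρ) (g : D1 ℓ) (v : ι → ZMod ℓ) :
    rep hρ g v = act ρ (ZMod ℓ) g.1 v := by
  funext i
  change ∑ j, ((ρ g.1).map (Int.castRingHom (ZMod ℓ))) i j * v j = ∑ j, ρ g.1 i j • v j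
  refine Finset.sum_congr rfl fun j _ => ?_
  rw [zsmul_eq_mul]
  rfl

theorem f1_el {ℓ : ℕ} {ρ : Mat → Matrix ι ι ℤ} (hρ : IsRep ℓ ρ) (g : D1 ℓ) (v : ι → ZMod ℓ) :
    el ℓ g • (rep hρ).asModuleEquiv.symm v = (rep hρ).asModuleEquiv.symm (act ρ (ZMod ℓ) g.1 v) := by
  rw [← f1_rep_apply hρ g v, Representation.asModuleEquiv_symm_map_rho]
  rfl

theorem f1_jj {ℓ : ℕ} {ρ : Mat → Matrix ι ι ℤ} (hρ : IsRep ℓ ρ) (γ : G1 ℓ) (v : ι → ZMod ℓ) :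
    jj ℓ γ • (rep hρ).asModuleEquiv.symm v =
      (rep hρ).asModuleEquiv.symm (jG hρ (ZMod ℓ) (γ : SL(2, ℤ)) • v) :=
  f1_el hρ (incl ℓ γ) v

theorem rs_coc {ℓ : ℕ} {ρ : Mat → Matrix ι ι ℤ} (hρ : IsRep ℓ ρ) (u : SL(2, ℤ) → ι → ZMod ℓ)
    (hu : Coc (jG hρ (ZMod ℓ)) (ι → ZMod ℓ) u) : Coc (jj ℓ) (rep hρ).asModule (rs hρ u) := by
  intro g h
  have h1 : u ((g * h : G1 ℓ) : SL(2, ℤ)) = u g + jG hρ (ZMod ℓ) (g : SL(2, ℤ)) • u h := hu g h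
  have h2 : rs hρ u (g * h) = (rep hρ).asModuleEquiv.symm (u ((g * h : G1 ℓ) : SL(2, ℤ))) := rfl
  have h3 : rs hρ u h = (rep hρ).asModuleEquiv.symm (u h) := rfl
  have h4 : rs hρ u g = (rep hρ).asModuleEquiv.symm (u g) := rfl
  rw [h2, h1, map_add, h3, h4, f1_jj]

theorem f1_T {ℓ p : ℕ} {τ : SL(2, ℤ)} (h : Setup ℓ p τ) {ρ : Mat → Matrix ι ι ℤ} (hρ : IsRep ℓ ρ)
    (u : SL(2, ℤ) → ι → ZMod ℓ) :
    (T1 h).op (rs hρ u) =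
      rs hρ ((TG hρ h.cop (alpha_reps τ p h.hp) (ZMod ℓ)).op u) := by
  funext γ
  have h1 : (T1 h).op (rs hρ u) γ = ∑ i : Option (Fin p),
      el ℓ ⟨(alpha τ p i).adjugate, adj_mem h i⟩ •
        (rep hρ).asModuleEquiv.symm (u (comp (alpha τ p) i γ)) := rfl
  have h2 : rs hρ ((TG hρ h.cop (alpha_reps τ p h.hp) (ZMod ℓ)).op u) γ =
      (rep hρ).asModuleEquiv.symm (∑ i : Option (Fin p),
        act ρ (ZMod ℓ) (alpha τ p i).adjugate (u (comp (alpha τ p) i γ))) := rfl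
  rw [h1, h2, map_sum]
  exact Finset.sum_congr rfl fun i _ => f1_el hρ _ _

theorem f1_conj {ℓ p : ℕ} {τ : SL(2, ℤ)} (h : Setup ℓ p τ) {ρ : Mat → Matrix ι ι ℤ} (hρ : IsRep ℓ ρ)
    (u : SL(2, ℤ) → ι → ZMod ℓ) (hu : Coc (jG hρ (ZMod ℓ)) (ι → ZMod ℓ) u) (γ : SL(2, ℤ)) :
    act ρ (ZMod ℓ) ((p : ℤ) • ((τ⁻¹ : SL(2, ℤ)) : Mat)) (u (τ * γ * τ⁻¹)) =
      act ρ (ZMod ℓ) ((p : ℤ) • 1) (u γ) +
        (jG hρ (ZMod ℓ) γ • act ρ (ZMod ℓ) ((p : ℤ) • 1) (u τ⁻¹) -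
          act ρ (ZMod ℓ) ((p : ℤ) • 1) (u τ⁻¹)) := by
  have hcp : IsCoprime ((p : ℤ) • (1 : Mat)).det (ℓ : ℤ) := by
    rw [Matrix.det_smul, Matrix.det_one, mul_one]
    exact h.cop.pow_left
  have hone : u 1 = 0 := by
    have h1 := hu 1 1
    rw [mul_one, map_one, one_smul] at h1
    exact left_eq_add.mp h1
  have hinv : jG hρ (ZMod ℓ) τ⁻¹ • u τ = - u τ⁻¹ := by
    have h1 := hu τ⁻¹ τ
    rw [inv_mul_cancel, hone] at h1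
    exact (neg_eq_of_add_eq_zero_right h1.symm).symm
  have hP : ∀ g : SL(2, ℤ), ∀ v : ι → ZMod ℓ,
      act ρ (ZMod ℓ) ((p : ℤ) • (1 : Mat)) (jG hρ (ZMod ℓ) g • v) =
        jG hρ (ZMod ℓ) g • act ρ (ZMod ℓ) ((p : ℤ) • (1 : Mat)) v := by
    intro g v
    have h1 : act ρ (ZMod ℓ) ((p : ℤ) • (1 : Mat)) * act ρ (ZMod ℓ) (g : Mat) =
        act ρ (ZMod ℓ) (g : Mat) * act ρ (ZMod ℓ) ((p : ℤ) • (1 : Mat)) := by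
      rw [← act_mul hρ _ hcp (cop_SL ℓ g), ← act_mul hρ _ (cop_SL ℓ g) hcp, Matrix.smul_mul,
        Matrix.mul_smul, one_mul, mul_one]
    exact LinearMap.congr_fun h1 v
  have hsplit : act ρ (ZMod ℓ) ((p : ℤ) • ((τ⁻¹ : SL(2, ℤ)) : Mat)) =
      act ρ (ZMod ℓ) ((p : ℤ) • (1 : Mat)) * act ρ (ZMod ℓ) ((τ⁻¹ : SL(2, ℤ)) : Mat) := by
    rw [← act_mul hρ _ hcp (cop_SL ℓ _), Matrix.smul_mul, one_mul]
  have hx : u (τ * γ * τ⁻¹) = u τ + jG hρ (ZMod ℓ) τ • (u γ + jG hρ (ZMod ℓ) γ • u τ⁻¹) := by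
    rw [mul_assoc, hu, hu]
  have hy : jG hρ (ZMod ℓ) τ⁻¹ • u (τ * γ * τ⁻¹) =
      u γ + (jG hρ (ZMod ℓ) γ • u τ⁻¹ - u τ⁻¹) := by
    rw [hx, smul_add, hinv, smul_smul, ← map_mul, inv_mul_cancel, map_one, one_smul]
    abel
  have hz : act ρ (ZMod ℓ) ((p : ℤ) • ((τ⁻¹ : SL(2, ℤ)) : Mat)) (u (τ * γ * τ⁻¹)) =
      act ρ (ZMod ℓ) ((p : ℤ) • (1 : Mat)) (jG hρ (ZMod ℓ) τ⁻¹ • u (τ * γ * τ⁻¹)) := by
    rw [hsplit]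
    rfl
  rw [hz, hy, map_add, map_sub, hP]

theorem f1_S {ℓ p : ℕ} {τ : SL(2, ℤ)} (h : Setup ℓ p τ) {ρ : Mat → Matrix ι ι ℤ} (hρ : IsRep ℓ ρ)
    (u : SL(2, ℤ) → ι → ZMod ℓ) (hu : Coc (jG hρ (ZMod ℓ)) (ι → ZMod ℓ) u) (γ : G1 ℓ) :
    (S1 h).op (rs hρ u) γ = (rep hρ).asModuleEquiv.symm
      ((SG hρ h.cop (ZMod ℓ)).op u γ +
        (jG hρ (ZMod ℓ) (γ : SL(2, ℤ)) • act ρ (ZMod ℓ) ((p : ℤ) • 1) (u τ⁻¹) -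
          act ρ (ZMod ℓ) ((p : ℤ) • 1) (u τ⁻¹))) := by
  have h1 : (S1 h).op (rs hρ u) γ = ∑ _i : Unit,
      el ℓ ⟨_, z_mem h⟩ • (rep hρ).asModuleEquiv.symm (u (τ * (γ : SL(2, ℤ)) * τ⁻¹)) := rfl
  have h2 : (SG hρ h.cop (ZMod ℓ)).op u (γ : SL(2, ℤ)) = ∑ _i : Unit,
      act ρ (ZMod ℓ) ((p : ℤ) • 1) (u γ) := rfl
  rw [h1, h2, Fintype.sum_unique, Fintype.sum_unique, f1_el]
  congr 1
  exact f1_conj h hρ u hu γ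

theorem rs_dsc {ℓ p : ℕ} {τ : SL(2, ℤ)} (h : Setup ℓ p τ) {ρ : Mat → Matrix ι ι ℤ} (hρ : IsRep ℓ ρ) (n : ℤ)
    (u : SL(2, ℤ) → ι → ZMod ℓ) (hu : Coc (jG hρ (ZMod ℓ)) (ι → ZMod ℓ) u)
    (hd : Cob (jG hρ (ZMod ℓ)) (ι → ZMod ℓ)
      (dsc (TG hρ h.cop (alpha_reps τ p h.hp) (ZMod ℓ)) (SG hρ h.cop (ZMod ℓ)) n u)) :
    Cob (jj ℓ) (rep hρ).asModule (dsc (T1 h) (S1 h) n (rs hρ u)) := by
  obtain ⟨m, hm⟩ := hd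
  refine ⟨(rep hρ).asModuleEquiv.symm (m - n • act ρ (ZMod ℓ) ((p : ℤ) • 1) (u τ⁻¹)), fun γ => ?_⟩
  have hmγ := hm (γ : SL(2, ℤ))
  unfold dsc at hmγ ⊢
  rw [f1_T h hρ, f1_T h hρ, f1_S h hρ u hu γ, f1_jj]
  change (rep hρ).asModuleEquiv.symm _ - _ = _
  rw [← map_zsmul, ← map_sub, ← map_sub]
  congr 1
  rw [smul_sub (jG hρ (ZMod ℓ) (γ : SL(2, ℤ))), smul_add, smul_sub n]
  have hc : jG hρ (ZMod ℓ) (γ : SL(2, ℤ)) • n • act ρ (ZMod ℓ) ((p : ℤ) • 1) (u τ⁻¹) =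
      n • jG hρ (ZMod ℓ) (γ : SL(2, ℤ)) • act ρ (ZMod ℓ) ((p : ℤ) • 1) (u τ⁻¹) :=
    smul_comm _ _ _
  rw [hc, ← sub_sub, hmγ]
  abel

theorem rep_cong {ℓ : ℕ} {ρ : Mat → Matrix ι ι ℤ} (hρ : IsRep ℓ ρ) : ∃ r, CongMod ℓ r (rep hρ).asModule := by
  obtain ⟨r, hr⟩ := hρ.cong
  refine ⟨r, fun g h hgh m => ?_⟩
  obtain ⟨v, rfl⟩ := (rep hρ).asModuleEquiv.symm.surjective m
  rw [f1_el, f1_el]
  congr 1
  funext i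
  change ∑ j, ρ g.1 i j • v j = ∑ j, ρ h.1 i j • v j
  refine Finset.sum_congr rfl fun j _ => ?_
  rw [zsmul_eq_mul, zsmul_eq_mul]
  congr 1
  have h1 := hr h.1 g.1 h.2.1 g.2.1 (fun i j => by
    have h2 := hgh i j
    rw [← neg_sub, dvd_neg]
    exact h2) i j
  exact (ZMod.intCast_eq_intCast_iff_dvd_sub _ _ _).2 h1

end KS44
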