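import Pool.Agent.LibKS44.F1
import Pool.Agent.LibKS44.B1

/-!
# [KS F2] the restriction `H¹(SL₂(ℤ), M) → H¹(Γ₁(ℓ), M)` is injective, `M = (ZMod ℓ)^ι`

PROOF. `rs u γ = γ • m - m` on `Γ₁(ℓ)`; put `v g = u g - (act g m - m)`, a cocycle of `SL(2, ℤ)` with `v = 0` on `Γ₁(ℓ)`. So
`v (g γ) = v g` for `γ ∈ Γ₁(ℓ)`, and `v g` depends only on the first column `x` of `g` modulo `ℓ`: if `g`, `g'` have the same first
column modulo `ℓ`, then `g⁻¹ g' ∈ Γ₁(ℓ)`. Let `P` be the (finite) set of the nonzero vectors `x` of `(ZMod ℓ)²`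
(`{x : Fin 2 → ZMod ℓ // x ≠ 0}`), `ℓ² - 1` elements; choose `g_x ∈ SL(2, ℤ)` with first column `≡ x` (`lift_col`), `w = ∑ x, v (g_x)`. For
`g ∈ SL(2, ℤ)` the map `x ↦ g x` is a permutation of `P` and `v (g g_x) = v (g_{g x})`, so
`w = ∑ x, v (g g_x) = ∑ x, (v g + act g (v g_x)) = (ℓ² - 1) v g + act g w = - v g + act g w`. So `v g = act g w - w`, and
`u g = act g (m + w) - (m + w)`. QED.
-/

set_option autoImplicit false

open Matrix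
open scoped MatrixGroups

namespace KS44

variable {ι : Type} [Fintype ι] [DecidableEq ι]

/-- the action on the vectors modulo `ℓ` -/
noncomputable def f2_A (ℓ : ℕ) (g : SL(2, ℤ)) (x : Fin 2 → ZMod ℓ) : Fin 2 → ZMod ℓ :=
  Matrix.mulVec ((Matrix.SpecialLinearGroup.map (Int.castRingHom (ZMod ℓ)) g :
    SL(2, ZMod ℓ)) : Matrix (Fin 2) (Fin 2) (ZMod ℓ)) x

theorem f2_A_mul (ℓ : ℕ) (g h : SL(2, ℤ)) (x : Fin 2 → ZMod ℓ) :
    f2_A ℓ (g * h) x = f2_A ℓ g (f2_A ℓ h x) := by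
  unfold f2_A
  rw [map_mul, Matrix.SpecialLinearGroup.coe_mul, Matrix.mulVec_mulVec]

theorem f2_A_one (ℓ : ℕ) (x : Fin 2 → ZMod ℓ) : f2_A ℓ 1 x = x := by
  unfold f2_A
  rw [map_one, Matrix.SpecialLinearGroup.coe_one, Matrix.one_mulVec]

theorem f2_A_zero (ℓ : ℕ) (g : SL(2, ℤ)) : f2_A ℓ g 0 = 0 := by
  unfold f2_A
  exact Matrix.mulVec_zero _

theorem f2_A_e0 (ℓ : ℕ) (g : SL(2, ℤ)) (i : Fin 2) :
    f2_A ℓ g ![1, 0] i = (((g : Mat) i 0 : ℤ) : ZMod ℓ) := by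
  unfold f2_A
  rw [Matrix.mulVec, dotProduct, Fin.sum_univ_two]
  simp

theorem f2_mem (ℓ : ℕ) (g : SL(2, ℤ)) (h : f2_A ℓ g ![1, 0] = ![1, 0]) : g ∈ G1 ℓ := by
  have h0 := congrFun h 0
  have h1 := congrFun h 1
  rw [f2_A_e0] at h0 h1
  refine ⟨?_, ?_⟩
  · rw [← ZMod.intCast_zmod_eq_zero_iff_dvd, Int.cast_sub, h0]
    simp
  · rw [← ZMod.intCast_zmod_eq_zero_iff_dvd, h1]
    rfl

theorem f2_bij (ℓ : ℕ) (g : SL(2, ℤ)) : Function.Bijective (f2_A ℓ g) := by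
  constructor
  · intro x y hxy
    have h1 := congrArg (f2_A ℓ g⁻¹) hxy
    rwa [← f2_A_mul, ← f2_A_mul, inv_mul_cancel, f2_A_one, f2_A_one] at h1
  · intro y
    refine ⟨f2_A ℓ g⁻¹ y, ?_⟩
    rw [← f2_A_mul, mul_inv_cancel, f2_A_one]

theorem f2_lift {ℓ : ℕ} (hl : ℓ.Prime) (x : Fin 2 → ZMod ℓ) (hx : x ≠ 0) :
    ∃ g : SL(2, ℤ), f2_A ℓ g ![1, 0] = x := by
  have : NeZero ℓ := ⟨hl.ne_zero⟩
  have hc : ∀ i, (((x i).val : ℤ) : ZMod ℓ) = x i := by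
    intro i
    rw [Int.cast_natCast, ZMod.natCast_zmod_val]
  obtain ⟨g, h0, h1⟩ := lift_col ℓ hl (x 0).val (x 1).val (by
    rintro ⟨h0, h1⟩
    apply hx
    rw [← ZMod.intCast_zmod_eq_zero_iff_dvd, hc] at h0 h1
    funext i
    fin_cases i
    · exact h0
    · exact h1)
  refine ⟨g, ?_⟩
  rw [← ZMod.intCast_zmod_eq_zero_iff_dvd, Int.cast_sub, hc, sub_eq_zero] at h0 h1
  funext i
  rw [f2_A_e0]
  fin_cases i
  · exact h0
  · exact h1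

open Classical in
theorem f2_core {ℓ : ℕ} (hl : ℓ.Prime) {R : Type} [Ring R] {M : Type} [AddCommGroup M] [Module R M]
    (j : SL(2, ℤ) →* R) (v : SL(2, ℤ) → M) (hv : Coc j M v) (h0 : ∀ γ ∈ G1 ℓ, v γ = 0)
    (hM : ∀ m : M, ℓ • m = 0) : Cob j M v := by
  have : NeZero ℓ := ⟨hl.ne_zero⟩
  have : Fact ℓ.Prime := ⟨hl⟩
  have he0 : (![1, 0] : Fin 2 → ZMod ℓ) ≠ 0 := by
    intro h
    have h1 : (1 : ZMod ℓ) = 0 := congrFun h 0
    exact one_ne_zero h1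
  have hcol : ∀ g g' : SL(2, ℤ), f2_A ℓ g ![1, 0] = f2_A ℓ g' ![1, 0] → v g = v g' := by
    intro g g' h
    have h1 : g⁻¹ * g' ∈ G1 ℓ := by
      apply f2_mem
      rw [f2_A_mul, ← h, ← f2_A_mul, inv_mul_cancel, f2_A_one]
    have h2 := hv g (g⁻¹ * g')
    rw [mul_inv_cancel_left, h0 _ h1, smul_zero, add_zero] at h2
    exact h2.symm
  obtain ⟨W, hW0, hW⟩ : ∃ W : (Fin 2 → ZMod ℓ) → M, W 0 = 0 ∧
      ∀ g, W (f2_A ℓ g ![1, 0]) = v g := by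
    refine ⟨fun x => if h : ∃ g, f2_A ℓ g ![1, 0] = x then v h.choose else 0, ?_, ?_⟩
    · simp only
      rw [dif_neg]
      rintro ⟨g, hg⟩
      exact he0 ((f2_bij ℓ g).1 (hg.trans (f2_A_zero ℓ g).symm))
    · intro g
      simp only
      have hex : ∃ g', f2_A ℓ g' ![1, 0] = f2_A ℓ g ![1, 0] := ⟨g, rfl⟩
      rw [dif_pos hex]
      exact hcol _ _ hex.choose_spec
  have hstep : ∀ (g : SL(2, ℤ)) (x : Fin 2 → ZMod ℓ),
      W (f2_A ℓ g x) + (if x = 0 then v g else 0) = v g + j g • W x := by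
    intro g x
    by_cases hx : x = 0
    · rw [if_pos hx, hx, f2_A_zero, hW0, smul_zero, zero_add, add_zero]
    · rw [if_neg hx, add_zero]
      obtain ⟨h, rfl⟩ := f2_lift hl x hx
      rw [← f2_A_mul, hW, hW, hv]
  refine ⟨∑ x, W x, fun g => ?_⟩
  have h1 : ∑ x, (W (f2_A ℓ g x) + (if x = 0 then v g else 0)) =
      ∑ x : Fin 2 → ZMod ℓ, (v g + j g • W x) := Finset.sum_congr rfl fun x _ => hstep g x
  rw [Finset.sum_add_distrib, Finset.sum_add_distrib, (f2_bij ℓ g).sum_comp W,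
    Finset.sum_ite_eq', if_pos (Finset.mem_univ _), Finset.sum_const, Finset.card_univ,
    Fintype.card_fun, ZMod.card, Fintype.card_fin, sq, mul_smul, hM, zero_add,
    ← Finset.smul_sum] at h1
  rw [← h1]
  abel

theorem f2_act {ℓ : ℕ} {ρ : Mat → Matrix ι ι ℤ} (hρ : IsRep ℓ ρ) (γ : G1 ℓ)
    (m : (rep hρ).asModule) : (rep hρ).asModuleEquiv (jj ℓ γ • m) =
      jG hρ (ZMod ℓ) (γ : SL(2, ℤ)) • ((rep hρ).asModuleEquiv m) := by
  have h1 : (rep hρ).asModuleEquiv (jj ℓ γ • m) =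
      (rep hρ) (incl ℓ γ) ((rep hρ).asModuleEquiv m) := by
    have := (rep hρ).asModuleEquiv_map_smul (MonoidAlgebra.of (ZMod ℓ) (D1 ℓ) (incl ℓ γ)) m
    rw [Representation.asAlgebraHom_of] at this
    exact this
  rw [h1]
  funext i
  change Matrix.mulVec ((ρ _).map (Int.castRingHom (ZMod ℓ))) _ i = ∑ j, ρ _ i j • _
  rw [Matrix.mulVec, dotProduct]
  apply Finset.sum_congr rfl
  intro k _
  rw [Matrix.map_apply, zsmul_eq_mul]
  rfl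

theorem res_inj {ℓ : ℕ} (hl : ℓ.Prime) {ρ : Mat → Matrix ι ι ℤ} (hρ : IsRep ℓ ρ)
    (u : SL(2, ℤ) → ι → ZMod ℓ) (hu : Coc (jG hρ (ZMod ℓ)) (ι → ZMod ℓ) u)
    (hr : Cob (jj ℓ) (rep hρ).asModule (rs hρ u)) : Cob (jG hρ (ZMod ℓ)) (ι → ZMod ℓ) u := by
  obtain ⟨m, hm⟩ := hr
  obtain ⟨m0, hm0⟩ : ∃ m0, m0 = (rep hρ).asModuleEquiv m := ⟨_, rfl⟩
  have h1 : ∀ γ : G1 ℓ, u γ = jG hρ (ZMod ℓ) (γ : SL(2, ℤ)) • m0 - m0 := by
    intro γ
    have h2 := congrArg (rep hρ).asModuleEquiv (hm γ)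
    rw [map_sub, f2_act] at h2
    rw [hm0, ← h2]
    unfold rs
    rw [LinearEquiv.apply_symm_apply]
  have hM : ∀ x : ι → ZMod ℓ, ℓ • x = 0 := by
    intro x
    funext i
    rw [Pi.smul_apply, nsmul_eq_mul, CharP.cast_eq_zero, zero_mul]
    rfl
  obtain ⟨w, hw⟩ := f2_core hl (jG hρ (ZMod ℓ)) (fun g => u g - (jG hρ (ZMod ℓ) g • m0 - m0))
    (by
      intro g h
      beta_reduce
      rw [hu g h, map_mul, mul_smul, smul_sub, smul_sub]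
      abel) (by
      intro γ hγ
      rw [h1 ⟨γ, hγ⟩, sub_self]) hM
  refine ⟨m0 + w, fun g => ?_⟩
  have h3 := hw g
  rw [smul_add]
  rw [sub_eq_iff_eq_add] at h3
  rw [h3]
  abel

end KS44
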