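import Pool.Agent.LibKS44.F2
import Pool.Agent.LibKS44.D4

/-!
# LibKS44.F3 : injectivity modulo `ℓ`, for the representatives `alpha τ p`
-/

set_option autoImplicit false

open Matrix
open scoped MatrixGroups

namespace KS44

variable {ι : Type} [Fintype ι] [DecidableEq ι]

theorem inj_mod {ℓ p : ℕ} {τ : SL(2, ℤ)} (h : Setup ℓ p τ) (hl : ℓ = 3 ∨ ℓ = 5 ∨ ℓ = 7) (m : ℕ)
    (hm : (ℓ : ℤ) ∣ (p : ℤ) ^ m + 1) {ρ : Mat → Matrix ι ι ℤ} (hρ : IsRep ℓ ρ) :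
    Inj (ι → ZMod ℓ) (TG hρ h.cop (alpha_reps τ p h.hp) (ZMod ℓ)) (SG hρ h.cop (ZMod ℓ)) (4 * p) := by
  intro u hu hd
  obtain ⟨r, hr⟩ := rep_cong hρ
  have hfin : Finite (rep hρ).asModule := by
    have : NeZero ℓ := ⟨h.hl.ne_zero⟩
    exact Finite.of_equiv (ι → ZMod ℓ) (rep hρ).asModuleEquiv.symm.toEquiv
  exact res_inj h.hl hρ u hu
    (inj_all h hl m hm r (rep hρ).asModule hr (rs hρ u) (rs_coc hρ u hu) (rs_dsc h hρ _ u hu hd))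

end KS44
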