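import Mathlib

/-!
# [KS G1] descent of injectivity from `Z / ℓ` to `Z` (pure algebra)

`Z` is a finitely generated abelian group, `B ≤ Z` a subgroup, `D : Z → Z` additive, `D B ⊆ B`, and `D` is injective on
`Z / (B + ℓ Z)` (`h1`). Then `D` is injective on `(Z / B) / torsion`.

PROOF. `W = {u : ∃ N ≠ 0, N • u ∈ B}`, a subgroup with `B ≤ W`, `D W ⊆ W`, and `k • x ∈ W`, `k ≠ 0` implies `x ∈ W`.
(1) `Y = Z / (B + ℓ Z)` is finite (`Z` finitely generated, killed by `ℓ`: `Module.finite_of_fg_torsion` or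
`AddCommGroup.finite_of_fg_torsion`), `D` induces an injective, hence bijective map of `Y`, which maps the
image `Q` of `W` to itself, hence `Q` onto itself. So if `D u ∈ W`, the class of `D u` is that of `D w` for some `w ∈ W`, so
`D (u - w) ∈ B + ℓ Z` and `u - w ∈ B + ℓ Z`, that is: `D u ∈ W` implies `u = w' + ℓ v` with `w' ∈ W`.
(2) If `D u ∈ W`: `u = w + ℓ u₁`, `ℓ D u₁ = D u - D w ∈ W`, so `D u₁ ∈ W`; iterating, for every `k` there is `v` with
`u - ℓ ^ k • v ∈ W`.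
(3) `X = Z / W` is finitely generated and torsion free, hence free (`Module.free_of_finite_type_torsion_free'`, or
`Module.Free.of_...`), with a finite basis; the coordinates of the class of `u` are divisible by all `ℓ ^ k`, hence `0`. So `u ∈ W`. QED.
(Variant of (3): the subgroup of the `x ∈ X` divisible by all `ℓ ^ k` is finitely generated and equal to `ℓ` times itself; Krull or Nakayama.)
-/

set_option autoImplicit false

namespace KS44

theorem alg_level {ℓ : ℕ} (hl : ℓ.Prime) (Z : Type) [AddCommGroup Z] [Module.Finite ℤ Z] (B : AddSubgroup Z)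
    (D : Z →+ Z) (hD : ∀ b ∈ B, D b ∈ B)
    (h1 : ∀ u : Z, (∃ b ∈ B, ∃ z, D u = b + ℓ • z) → ∃ b ∈ B, ∃ z, u = b + ℓ • z)
    (u : Z) (hu : ∃ N : ℤ, N ≠ 0 ∧ N • D u ∈ B) : ∃ N : ℤ, N ≠ 0 ∧ N • u ∈ B := by
  classical
  let W : Submodule ℤ Z :=
    { carrier := {u | ∃ N : ℤ, N ≠ 0 ∧ N • u ∈ B}
      zero_mem' := ⟨1, one_ne_zero, by rw [smul_zero]; exact B.zero_mem⟩
      add_mem' := by
        rintro x y ⟨a, ha, hx⟩ ⟨b, hb, hy⟩
        refine ⟨a * b, mul_ne_zero ha hb, ?_⟩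
        have e : (a * b) • (x + y) = b • (a • x) + a • (b • y) := by
          rw [smul_add, smul_smul, smul_smul, mul_comm b a]
        rw [e]
        exact B.add_mem (B.zsmul_mem hx b) (B.zsmul_mem hy a)
      smul_mem' := by
        rintro c x ⟨a, ha, hx⟩
        refine ⟨a, ha, ?_⟩
        rw [smul_comm]
        exact B.zsmul_mem hx c }
  have hWmem : ∀ x : Z, x ∈ W ↔ ∃ N : ℤ, N ≠ 0 ∧ N • x ∈ B := fun x => Iff.rfl
  have hBW : ∀ b ∈ B, b ∈ W := fun b hb => ⟨1, one_ne_zero, by rw [one_smul]; exact hb⟩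
  have hsat : ∀ (r : ℤ) (x : Z), r ≠ 0 → r • x ∈ W → x ∈ W := by
    rintro r x hr ⟨N, hN, hx⟩
    exact ⟨N * r, mul_ne_zero hN hr, by rw [mul_smul]; exact hx⟩
  let C : Submodule ℤ Z :=
    { carrier := {u | ∃ b ∈ B, ∃ z, u = b + ℓ • z}
      zero_mem' := ⟨0, B.zero_mem, 0, by rw [smul_zero, add_zero]⟩
      add_mem' := by
        rintro x y ⟨b, hb, z, rfl⟩ ⟨b', hb', z', rfl⟩
        refine ⟨b + b', B.add_mem hb hb', z + z', ?_⟩
        rw [smul_add]
        abel
      smul_mem' := by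
        rintro c x ⟨b, hb, z, rfl⟩
        refine ⟨c • b, B.zsmul_mem hb c, c • z, ?_⟩
        rw [smul_add, smul_comm] }
  have hCmem : ∀ x : Z, x ∈ C ↔ ∃ b ∈ B, ∃ z, x = b + ℓ • z := fun x => Iff.rfl
  let Dl : Z →ₗ[ℤ] Z := D.toIntLinearMap
  have hDl : ∀ x, Dl x = D x := fun _ => rfl
  have hle : C ≤ C.comap Dl := by
    rintro x ⟨b, hb, z, rfl⟩
    rw [Submodule.mem_comap]
    refine ⟨D b, hD b hb, D z, ?_⟩
    rw [hDl, map_add, map_nsmul]
  let D' : (Z ⧸ C) →ₗ[ℤ] (Z ⧸ C) := C.mapQ C Dl hle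
  have hD' : ∀ x, D' (C.mkQ x) = C.mkQ (D x) := fun x => rfl
  have hinj : Function.Injective D' := by
    rw [injective_iff_map_eq_zero]
    intro y hy
    obtain ⟨x, rfl⟩ := C.mkQ_surjective y
    rw [hD', Submodule.mkQ_apply, Submodule.Quotient.mk_eq_zero] at hy
    rw [Submodule.mkQ_apply, Submodule.Quotient.mk_eq_zero]
    exact h1 x hy
  have hfin : Finite (Z ⧸ C) := by
    apply Module.finite_of_fg_torsion
    intro y
    obtain ⟨x, rfl⟩ := C.mkQ_surjective y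
    have hl0 : (ℓ : ℤ) ≠ 0 := by exact_mod_cast hl.ne_zero
    refine ⟨⟨(ℓ : ℤ), mem_nonZeroDivisors_of_ne_zero hl0⟩, ?_⟩
    change (ℓ : ℤ) • C.mkQ x = 0
    rw [← map_smul, Submodule.mkQ_apply, Submodule.Quotient.mk_eq_zero]
    exact ⟨0, B.zero_mem, x, by rw [zero_add, natCast_zsmul]⟩
  have hDW : ∀ x ∈ W, D x ∈ W := by
    rintro x ⟨N, hN, hx⟩
    refine ⟨N, hN, ?_⟩
    rw [← map_zsmul]
    exact hD _ hx
  -- step (1)
  have step : ∀ x, D x ∈ W → ∃ w ∈ W, ∃ v, x = w + ℓ • v := by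
    intro x hx
    let Q : Submodule ℤ (Z ⧸ C) := W.map C.mkQ
    have hQ : ∀ y ∈ Q, D' y ∈ Q := by
      rintro y ⟨w, hw, rfl⟩
      exact ⟨D w, hDW w hw, rfl⟩
    have hs : Function.Surjective (fun y : Q => (⟨D' y.1, hQ y.1 y.2⟩ : Q)) := by
      apply Finite.surjective_of_injective
      intro y y' h
      apply Subtype.ext
      exact hinj (congrArg Subtype.val h)
    obtain ⟨⟨y, w, hw, rfl⟩, h2⟩ := hs ⟨C.mkQ (D x), ⟨D x, hx, rfl⟩⟩
    have h3 : D' (C.mkQ w) = D' (C.mkQ x) := congrArg Subtype.val h2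
    have h4 := hinj h3
    have h5 : x - w ∈ C := by
      have := (Submodule.Quotient.eq C).mp h4.symm
      exact this
    obtain ⟨b, hb, z, hz⟩ := h5
    refine ⟨w + b, W.add_mem hw (hBW b hb), z, ?_⟩
    rw [add_assoc, ← hz]
    abel
  -- Nakayama
  have hN := Submodule.exists_sub_one_mem_and_smul_eq_zero_of_fg_of_le_smul
    (Ideal.span {(ℓ : ℤ)}) ((W.comap Dl).map W.mkQ) (IsNoetherian.noetherian _) (by
      rintro y ⟨x, hx, rfl⟩
      have hx' : D x ∈ W := hx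
      obtain ⟨w, hw, v, hv⟩ := step x hx'
      have hv' : D v ∈ W := by
        apply hsat (ℓ : ℤ) _ (by exact_mod_cast hl.ne_zero)
        have e : (ℓ : ℤ) • D v = D x - D w := by
          rw [hv, map_add, map_nsmul, natCast_zsmul]
          abel
        rw [e]
        exact W.sub_mem hx' (hDW w hw)
      have e : W.mkQ x = (ℓ : ℤ) • W.mkQ v := by
        rw [hv, map_add, (Submodule.Quotient.mk_eq_zero W).mpr hw |> fun h => (show W.mkQ w = 0
          from h), zero_add, natCast_zsmul, map_nsmul]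
      rw [e]
      exact Submodule.smul_mem_smul (Ideal.mem_span_singleton_self _) ⟨v, hv', rfl⟩)
  obtain ⟨r, hr1, hr⟩ := hN
  have hr0 : r ≠ 0 := by
    rintro rfl
    rw [Ideal.mem_span_singleton, zero_sub, dvd_neg, Int.natCast_dvd] at hr1
    have := Nat.dvd_one.mp hr1
    exact hl.one_lt.ne' this
  have h2 := hr (W.mkQ u) ⟨u, hu, rfl⟩
  rw [← map_smul, Submodule.mkQ_apply, Submodule.Quotient.mk_eq_zero] at h2
  exact hsat r u hr0 h2

end KS44
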