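import Mathlib

/-!
# [KS H1] semisimplicity from the Eichler-Shimura relation

`F² - T F + p S = 0`, everything commutes, `T`, `S` semisimple, `T² - 4 p S` injective, characteristic `0`. Then `F` is semisimple.

PROOF. `y = 2 F - T`. `y² = 4 F² - 4 T F + T² = T² - 4 p S =: d` is semisimple (`IsSemisimple.mul_of_commute`,
`IsSemisimple.sub_of_commute`, `IsSemisimple_smul`; a field of characteristic `0` is perfect) and injective. Let `m = minpoly K d`: squarefree
(`IsSemisimple.minpoly_squarefree`), hence separable (`PerfectField.separable_iff_squarefree`), and `m(0) ≠ 0` because `d` is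
injective (`Module.End.hasEigenvalue_iff_isRoot` / `hasEigenvalue_of_isRoot`). `q = m.comp (X ^ 2)`: `aeval y q = aeval (y²) m = 0` (`Polynomial.aeval_comp`).
`q` is separable: `q' = 2 X m'(X²)`; `m(X²)` is coprime to `m'(X²)` (compose the Bezout relation with `X²`), to `X` (`m(0) ≠ 0`) and to `2`. So `q` is squarefree and `y` is semisimple
(`Module.End.isSemisimple_of_squarefree_aeval_eq_zero`). `F = (1/2) • (y + T)`, `y` and `T` commute: semisimple
(`IsSemisimple.add_of_commute`, `IsSemisimple_smul`). QED.
-/

set_option autoImplicit false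

open Module.End

namespace KS44

open Polynomial in
theorem h1_sep {K : Type} [Field K] [CharZero K] (m : K[X]) (hm : m.Separable)
    (h0 : ¬ m.IsRoot 0) : (m.comp (X ^ 2)).Separable := by
  rw [separable_def, derivative_comp]
  have h1 : IsCoprime (m.comp (X ^ 2)) (m.derivative.comp (X ^ 2)) := by
    obtain ⟨a, b, hab⟩ := hm
    exact ⟨a.comp (X ^ 2), b.comp (X ^ 2), by
      rw [← mul_comp, ← mul_comp, ← add_comp, hab, one_comp]⟩
  have h2 : IsCoprime (m.comp (X ^ 2)) X := by
    apply IsCoprime.symm
    rw [Polynomial.prime_X.coprime_iff_not_dvd, X_dvd_iff, coeff_zero_eq_eval_zero, eval_comp]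
    intro h
    apply h0
    rw [IsRoot]
    simpa using h
  have h3 : derivative (X ^ 2 : K[X]) = C 2 * X := by
    rw [derivative_X_pow]
    norm_num
  have h4 : IsUnit (C 2 : K[X]) := isUnit_C.2 (isUnit_iff_ne_zero.2 two_ne_zero)
  rw [h3]
  refine IsCoprime.mul_right (IsCoprime.mul_right ?_ h2) h1
  exact ⟨0, (↑(h4.unit⁻¹) : K[X]), by rw [zero_mul, zero_add]; exact h4.val_inv_mul⟩

theorem semisimple_of_relation {K : Type} [Field K] [CharZero K] {H : Type} [AddCommGroup H] [Module K H]
    [FiniteDimensional K H] (T S F : Module.End K H) (p : K) (hp : p ≠ 0) (hT : T.IsSemisimple)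
    (hS : S.IsSemisimple) (hFT : Commute F T) (hrel : F * F - T * F + p • S = 0)
    (hinj : Function.Injective (T * T - (4 * p) • S : Module.End K H)) : F.IsSemisimple := by
  obtain ⟨d, hd⟩ : ∃ d : Module.End K H, d = T * T - (4 * p) • S := ⟨_, rfl⟩
  obtain ⟨y, hy⟩ : ∃ y : Module.End K H, y = (2 : K) • F - T := ⟨_, rfl⟩
  have hFF : F * F = T * F - p • S := by
    rw [← sub_eq_zero, ← hrel]
    abel
  have hTS : Commute T S := by
    have h1 : S = p⁻¹ • (T * F - F * F) := by
      rw [hFF, sub_sub_cancel, smul_smul, inv_mul_cancel₀ hp, one_smul]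
    rw [h1]
    exact (((Commute.refl T).mul_right hFT.symm).sub_right (hFT.symm.mul_right hFT.symm)).smul_right _
  have hyy : y ^ 2 = d := by
    rw [sq, hy, hd]
    simp only [sub_mul, mul_sub, smul_mul_assoc, mul_smul_comm]
    rw [hFT.eq, hFF]
    module
  have hdss : d.IsSemisimple := by
    rw [hd]
    refine IsSemisimple.sub_of_commute ?_ ?_ (IsSemisimple_smul _ hS)
    · exact (hTS.mul_left hTS).smul_right _
    · rw [← sq]
      exact hT.pow 2
  rw [← hd] at hinj
  have hroot : ¬ (minpoly K d).IsRoot 0 := by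
    intro h
    obtain ⟨v, hv⟩ := (hasEigenvalue_of_isRoot h).exists_hasEigenvector
    have h1 : d v = (0 : K) • v := hv.apply_eq_smul
    rw [zero_smul] at h1
    exact hv.2 (hinj (h1.trans (map_zero d).symm))
  have hsep := h1_sep (minpoly K d)
    (PerfectField.separable_iff_squarefree.2 hdss.minpoly_squarefree) hroot
  have hyss : y.IsSemisimple := by
    refine isSemisimple_of_squarefree_aeval_eq_zero hsep.squarefree ?_
    rw [Polynomial.aeval_comp, map_pow, Polynomial.aeval_X, hyy, minpoly.aeval]
  have hyT : Commute y T := by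
    rw [hy]
    exact (hFT.smul_left 2).sub_left (Commute.refl T)
  have hF : F = (2⁻¹ : K) • (y + T) := by
    rw [hy]
    module
  rw [hF]
  exact IsSemisimple_smul _ (IsSemisimple.add_of_commute hyT hyss hT)

end KS44
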