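import Pool.Agent.LibKS44.F0
import Pool.Agent.LibKS44.A3

/-!
# [KS K1] independence of the representatives

PROOF. For `i ∈ I` write `α i = δ i * α' (e i)` (`hα'.2` applied to `α i`, of determinant `p`). `e` is a bijection: the inverse map
comes from `hα.2` applied to `α' k`; `α' k = ε α i = ε δ_i α' (e i)`, so `e i = k` by uniqueness, and `i` is determined by `e i`:
`α i = δ_i α' (e i) = δ_i ε α i'`, uniqueness in `hα.2`. Then `α i γ = δ_i α'_{e i} γ = δ_i c'_{e i}(γ) α'_{k'}`, `k' = perm α' (e i) γ`, and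
`α'_{k'} = δ_k⁻¹ α_k` with `e k = k'`: by `comp_unique` `comp α i γ = δ_i * comp α' (e i) γ * δ_k⁻¹`, `perm α i γ = k`. And
`adj (α i) = adj (α' (e i)) * adj δ_i = adj (α' (e i)) * δ_i⁻¹` (`Matrix.adjugate_mul_distrib`). So `op_change` (row A3) applies:
`op_reps`. For `op_op_reps`: `T T u - T' T' u = T (T u - T' u) + (T - T') (T' u)`; the first is `T ∂ = ∂` (`op_cob`), and `T' u` is a cocycle
(`op_coc`), so the second is a coboundary by `op_reps`. QED.
-/

set_option autoImplicit false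

open Matrix
open scoped MatrixGroups

namespace KS44

variable {ι : Type} [Fintype ι] [DecidableEq ι] {ℓ p : ℕ} {ρ : Mat → Matrix ι ι ℤ}

/-- comparison of two systems of representatives -/
theorem k1_data {I I' : Type} {α : I → Mat} (hα : IsReps p α) {α' : I' → Mat} (hα' : IsReps p α') :
    ∃ (e : I ≃ I') (δ : I → SL(2, ℤ)), (∀ i, α i = (δ i : Mat) * α' (e i)) ∧
      ∀ i γ, comp α i γ = δ i * comp α' (e i) γ * (δ (perm α i γ))⁻¹ ∧
        e (perm α i γ) = perm α' (e i) γ := by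
  have hex : ∀ i, ∃ x : SL(2, ℤ) × I', α i = (x.1 : Mat) * α' x.2 :=
    fun i => (hα'.2 (α i) (hα.1 i)).exists
  choose x hx using hex
  have hinj : Function.Injective (fun i => (x i).2) := by
    intro i i' hii
    have h1 : α i = (((x i).1 * ((x i').1)⁻¹ : SL(2, ℤ)) : Mat) * α i' := by
      have h2 : (((x i').1)⁻¹ : SL(2, ℤ)) * ((x i').1 : Mat) = 1 := by
        rw [← Matrix.SpecialLinearGroup.coe_mul, inv_mul_cancel, Matrix.SpecialLinearGroup.coe_one]
      have hii' : (x i).2 = (x i').2 := hii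
      rw [Matrix.SpecialLinearGroup.coe_mul, hx i', Matrix.mul_assoc, ← Matrix.mul_assoc _ ((x i').1 : Mat), h2,
        Matrix.one_mul, ← hii']
      exact hx i
    have h3 : α i = ((1 : SL(2, ℤ)) : Mat) * α i := by
      rw [Matrix.SpecialLinearGroup.coe_one, Matrix.one_mul]
    have h4 := (hα.2 (α i) (hα.1 i)).unique (y₁ := ((1 : SL(2, ℤ)), i))
      (y₂ := ((x i).1 * ((x i').1)⁻¹, i')) h3 h1
    exact (Prod.ext_iff.1 h4).2
  have hsurj : Function.Surjective (fun i => (x i).2) := by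
    intro k
    obtain ⟨⟨ε, i⟩, hε⟩ := (hα.2 (α' k) (hα'.1 k)).exists
    refine ⟨i, ?_⟩
    have h1 : α' k = ((ε * (x i).1 : SL(2, ℤ)) : Mat) * α' (x i).2 := by
      rw [Matrix.SpecialLinearGroup.coe_mul, Matrix.mul_assoc, ← hx i]
      exact hε
    have h3 : α' k = ((1 : SL(2, ℤ)) : Mat) * α' k := by
      rw [Matrix.SpecialLinearGroup.coe_one, Matrix.one_mul]
    have h4 := (hα'.2 (α' k) (hα'.1 k)).unique (y₁ := ((1 : SL(2, ℤ)), k))
      (y₂ := (ε * (x i).1, (x i).2)) h3 h1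
    exact (Prod.ext_iff.1 h4).2.symm
  let e : I ≃ I' := Equiv.ofBijective _ ⟨hinj, hsurj⟩
  have he : ∀ i, e i = (x i).2 := fun i => rfl
  refine ⟨e, fun i => (x i).1, fun i => by rw [he]; exact hx i, fun i γ => ?_⟩
  set k' := perm α' (e i) γ with hk'
  obtain ⟨k, hk⟩ : ∃ k, e k = k' := e.surjective k'
  have h1 : α i * (γ : Mat) = (((x i).1 * comp α' (e i) γ * ((x k).1)⁻¹ : SL(2, ℤ)) : Mat) * α k := by
    have h2 : (((x k).1)⁻¹ : SL(2, ℤ)) * ((x k).1 : Mat) = 1 := by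
      rw [← Matrix.SpecialLinearGroup.coe_mul, inv_mul_cancel, Matrix.SpecialLinearGroup.coe_one]
    have h3 : α i * (γ : Mat) = ((x i).1 : Mat) * ((comp α' (e i) γ : Mat) * α' k') := by
      rw [← comp_spec hα' (e i) γ, hx i, Matrix.mul_assoc, he]
    rw [h3, Matrix.SpecialLinearGroup.coe_mul, Matrix.SpecialLinearGroup.coe_mul, hx k,
      Matrix.mul_assoc _ _ (((x k).1 : Mat) * _), ← Matrix.mul_assoc _ ((x k).1 : Mat), h2, Matrix.one_mul, ← he k, hk,
      Matrix.mul_assoc]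
  obtain ⟨h4, h5⟩ := comp_unique hα h1
  rw [h5, hk]
  exact ⟨h4, rfl⟩

theorem op_reps (hρ : IsRep ℓ ρ) (cop : IsCoprime (p : ℤ) (ℓ : ℤ)) {I I' : Type} [Fintype I] [Fintype I']
    {α : I → Mat} (hα : IsReps p α) {α' : I' → Mat} (hα' : IsReps p α') (A : Type) [AddCommGroup A]
    (u : SL(2, ℤ) → ι → A) (hu : Coc (jG hρ A) (ι → A) u) :
    Cob (jG hρ A) (ι → A) (fun γ => (TG hρ cop hα A).op u γ - (TG hρ cop hα' A).op u γ) := by
  obtain ⟨e, δ, h1, h2⟩ := k1_data hα hα'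
  refine op_change (TG hρ cop hα A) (TG hρ cop hα' A) e δ ?_ (fun i γ => (h2 i γ).1)
    (fun i γ => (h2 i γ).2) u hu
  intro i
  change act ρ A (α i).adjugate = act ρ A (α' (e i)).adjugate * act ρ A (((δ i)⁻¹ : SL(2, ℤ)) : Mat)
  have h3 : IsCoprime (α' (e i)).adjugate.det (ℓ : ℤ) := by
    rw [Matrix.det_adjugate, Fintype.card_fin, hα'.1 (e i)]
    simpa using cop
  rw [← act_mul hρ A h3 (cop_SL ℓ _), Matrix.SpecialLinearGroup.coe_inv, ← Matrix.adjugate_mul_distrib, ← h1 i]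

theorem op_op_reps (hρ : IsRep ℓ ρ) (cop : IsCoprime (p : ℤ) (ℓ : ℤ)) {I I' : Type} [Fintype I] [Fintype I']
    {α : I → Mat} (hα : IsReps p α) {α' : I' → Mat} (hα' : IsReps p α') (A : Type) [AddCommGroup A]
    (u : SL(2, ℤ) → ι → A) (hu : Coc (jG hρ A) (ι → A) u) :
    Cob (jG hρ A) (ι → A) (fun γ => (TG hρ cop hα A).op ((TG hρ cop hα A).op u) γ -
      (TG hρ cop hα' A).op ((TG hρ cop hα' A).op u) γ) := by
  obtain ⟨m, hm⟩ := op_reps hρ cop hα hα' A u hu
  obtain ⟨m2, hm2⟩ := op_reps hρ cop hα hα' A ((TG hρ cop hα' A).op u) (op_coc _ u hu)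
  refine ⟨(TG hρ cop hα A).act0 m + m2, fun γ => ?_⟩
  have h1 : (TG hρ cop hα A).op ((TG hρ cop hα A).op u) γ - (TG hρ cop hα A).op ((TG hρ cop hα' A).op u) γ =
      jG hρ A γ • (TG hρ cop hα A).act0 m - (TG hρ cop hα A).act0 m := by
    have h2 : (TG hρ cop hα A).op
        (fun g => (TG hρ cop hα A).op u g - (TG hρ cop hα' A).op u g) =
        fun g => (TG hρ cop hα A).op ((TG hρ cop hα A).op u) g -
          (TG hρ cop hα A).op ((TG hρ cop hα' A).op u) g :=
      op_sub (TG hρ cop hα A) ((TG hρ cop hα A).op u) ((TG hρ cop hα' A).op u)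
    have h3 : (fun g => (TG hρ cop hα A).op u g - (TG hρ cop hα' A).op u g) =
        fun g => jG hρ A g • m - m := funext hm
    rw [h3, op_cob] at h2
    exact (congrFun h2 γ).symm
  have h4 : (TG hρ cop hα A).op ((TG hρ cop hα' A).op u) γ - (TG hρ cop hα' A).op ((TG hρ cop hα' A).op u) γ =
      jG hρ A γ • m2 - m2 := hm2 γ
  calc (TG hρ cop hα A).op ((TG hρ cop hα A).op u) γ - (TG hρ cop hα' A).op ((TG hρ cop hα' A).op u) γ
      = ((TG hρ cop hα A).op ((TG hρ cop hα A).op u) γ - (TG hρ cop hα A).op ((TG hρ cop hα' A).op u) γ) +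
        ((TG hρ cop hα A).op ((TG hρ cop hα' A).op u) γ -
          (TG hρ cop hα' A).op ((TG hρ cop hα' A).op u) γ) := by abel
    _ = (jG hρ A γ • (TG hρ cop hα A).act0 m - (TG hρ cop hα A).act0 m) + (jG hρ A γ • m2 - m2) := by
        rw [h1, h4]
    _ = jG hρ A γ • ((TG hρ cop hα A).act0 m + m2) - ((TG hρ cop hα A).act0 m + m2) := by
        rw [smul_add]; abel

end KS44
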